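import Pool.Agent.Lib.MP_b5021c_nt.BP.H71.Tot
import Pool.Agent.Lib.MP_b5021c_nt.H41.Rks
import Pool.Agent.Lib.MP_b5021c_nt.H47.Mut
import Pool.Agent.Lib.MP_b5021c_nt.B.H65.Skmu
import Pool.Agent.Lib.MP_b5021c_nt.IfaceEV
import Pool.Agent.Lib.MP_b5021c_nt.IfaceEF

/-!
# Board b5, BpS: the total lattice (helper71)

`tc D (k, a)` is the coefficient of `z^k w^a` in `D`, `ts D` the total support, `trk D` the total
rank (for an element with `(0, 0)` in its total support).
-/

namespace Pool.Agent.B5.Tl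

set_option linter.unusedSectionVars false

open scoped LaurentPolynomial
open Polynomial
open Pool.Agent.B5.H40 (uT uT_val)
open Pool.Agent.B5.Tot

/-! ## Ranks and functionals -/

section Ranks

variable {L : Type} [AddCommGroup L] [Module.Free ℤ L] [Module.Finite ℤ L]

/-- A point outside the rational span is separated by a functional. -/
theorem ann_of_not_mem (S : Set L) (x : L)
    (hx : ∀ n : ℤ, n ≠ 0 → n • x ∉ Submodule.span ℤ S) :
    ∃ mu : L →+ ℤ, (∀ a ∈ S, mu a = 0) ∧ mu x ≠ 0 := by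
  let N := Submodule.span ℤ S
  have hnt : Submodule.mkQ N x ∉ Submodule.torsion ℤ (L ⧸ N) := by
    intro h
    obtain ⟨a, ha⟩ := (Submodule.mem_torsion_iff _).1 h
    have ha' : (a : ℤ) • Submodule.mkQ N x = 0 := ha
    rw [← map_smul, Submodule.mkQ_apply, Submodule.Quotient.mk_eq_zero] at ha'
    exact hx a (nonZeroDivisors.coe_ne_zero a) ha'
  let Q := (L ⧸ N) ⧸ Submodule.torsion ℤ (L ⧸ N)
  let b := Module.Free.chooseBasis ℤ Q
  have hx0 : (Submodule.Quotient.mk (Submodule.mkQ N x) : Q) ≠ 0 := by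
    intro h
    exact hnt ((Submodule.Quotient.mk_eq_zero _).1 h)
  have hrep : b.repr (Submodule.Quotient.mk (Submodule.mkQ N x) : Q) ≠ 0 := by
    intro h
    exact hx0 (b.repr.map_eq_zero_iff.1 h)
  obtain ⟨i, hi⟩ := Finsupp.ne_iff.1 hrep
  refine ⟨((b.coord i).comp ((Submodule.mkQ (Submodule.torsion ℤ (L ⧸ N))).comp
    (Submodule.mkQ N))).toAddMonoidHom, ?_, hi⟩
  intro a ha
  have h2 : Submodule.mkQ N a = 0 := by
    rw [Submodule.mkQ_apply, Submodule.Quotient.mk_eq_zero]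
    exact Submodule.subset_span ha
  change b.coord i (Submodule.mkQ _ (Submodule.mkQ N a)) = 0
  rw [h2, map_zero, map_zero]

/-- If all functionals killing `T` kill `S` then the rank of `S` is not larger. -/
theorem mem_of_ann {S T : Set L} (h : ∀ mu : L →+ ℤ, (∀ a ∈ T, mu a = 0) → ∀ a ∈ S, mu a = 0) :
    ∀ a ∈ S, ∃ n : ℤ, n ≠ 0 ∧ n • a ∈ Submodule.span ℤ T := by
  intro a ha
  by_contra hne
  push Not at hne
  obtain ⟨mu, h1, h2⟩ := ann_of_not_mem T a hne
  exact h2 (h mu h1 a ha)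

theorem rk_le_of_ann {S T : Set L}
    (h : ∀ mu : L →+ ℤ, (∀ a ∈ T, mu a = 0) → ∀ a ∈ S, mu a = 0) : rk S ≤ rk T :=
  (H41.rks L L).2.2.2.2.2.2.2.2.1 S T (mem_of_ann h)

/-- The kernel of a functional which is not zero on a submodule. -/
theorem rk_lt_span {S T : Set L} (mu : L →+ ℤ) (hS : ∀ a ∈ S, mu a = 0)
    (hle : S ⊆ Submodule.span ℤ T) {x : L} (hx : x ∈ Submodule.span ℤ T) (hmx : mu x ≠ 0) :
    rk S + 1 ≤ rk T := by
  let M := Submodule.span ℤ T
  let mu' : M →+ ℤ := mu.comp M.subtype.toAddMonoidHom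
  have hmu' : mu' ≠ 0 := by
    intro h
    exact hmx (DFunLike.congr_fun h ⟨x, hx⟩)
  have h1 := (H41.rks M M).1 mu' hmu'
  have h2 : Submodule.span ℤ S ≤ (Ker mu').map M.subtype := by
    rw [Submodule.span_le]
    intro a ha
    exact ⟨⟨a, hle ha⟩, hS a ha, rfl⟩
  have h3 := Submodule.finrank_mono h2
  have h4 : Module.finrank ℤ ((Ker mu').map M.subtype) = Module.finrank ℤ (Ker mu') :=
    (Submodule.equivMapOfInjective M.subtype (Submodule.subtype_injective M) _).finrank_eq.symm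
  change Module.finrank ℤ (Submodule.span ℤ S) + 1 ≤ Module.finrank ℤ M
  omega

/-- Strict inequality of ranks. -/
theorem rk_lt_of_ann {S T : Set L}
    (h : ∀ mu : L →+ ℤ, (∀ a ∈ T, mu a = 0) → ∀ a ∈ S, mu a = 0)
    (mu : L →+ ℤ) (hS : ∀ a ∈ S, mu a = 0) {x : L} (hx : x ∈ T) (hmx : mu x ≠ 0) :
    rk S + 1 ≤ rk T := by
  have h1 : rk S + 1 ≤ rk (S ∪ T) :=
    rk_lt_span mu hS (fun a ha => Submodule.subset_span (Or.inl ha))
      (Submodule.subset_span (Or.inr hx)) hmx
  have h2 : rk (S ∪ T) ≤ rk T := rk_le_of_ann (fun nu hnu a ha => by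
    rcases ha with ha | ha
    · exact h nu hnu a ha
    · exact hnu a ha)
  omega

theorem rk_singleton_le (b : L) : rk {b} ≤ 1 := by
  by_cases hb : b = 0
  · rw [hb, rk, Submodule.span_zero_singleton, finrank_bot]
    exact zero_le_one
  · rw [(H41.rks L L).2.2.2.2.2.2.1 b hb]

theorem rk_insert_le (b : L) (S : Set L) : rk (insert b S) ≤ rk S + 1 := by
  have h1 := (H41.rks L L).2.2.2.2.2.1 {b} S
  have h2 := rk_singleton_le b
  rw [Set.singleton_union] at h1
  omega

theorem rk_lt_finrank {S : Set L} (mu : L →+ ℤ) (hS : ∀ a ∈ S, mu a = 0) (hmu : mu ≠ 0) :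
    rk S + 1 ≤ Module.finrank ℤ L := by
  obtain ⟨x, hx⟩ : ∃ x, mu x ≠ 0 := by
    by_contra h
    push Not at h
    exact hmu (AddMonoidHom.ext h)
  have h1 : rk S + 1 ≤ rk (Set.univ : Set L) :=
    rk_lt_span mu hS (fun a _ => Submodule.subset_span (Set.mem_univ a))
      (Submodule.subset_span (Set.mem_univ x)) hx
  have h2 := (H41.rks L L).2.2.1 (Set.univ : Set L)
  omega

end Ranks

/-! ## The total lattice -/

section Basic

variable {O : Type} [CommRing O] {L : Type} [AddCommGroup L]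

/-- The coefficient of `z^k w^a`. -/
noncomputable def tc (D : AO O L) (x : ℤ × L) : O := (D.coeff x.2).coeff x.1

/-- The total support. -/
def ts (D : AO O L) : Set (ℤ × L) := {x | tc D x ≠ 0}

/-- The total rank. -/
noncomputable def trk (D : AO O L) : ℕ := rk (ts D)

/-- A functional of `L` as a functional of the total lattice. -/
def pr (k : L →+ ℤ) : ℤ × L →+ ℤ := k.comp (AddMonoidHom.snd ℤ L)

theorem pr_apply (k : L →+ ℤ) (x : ℤ × L) : pr k x = k x.2 := rfl

theorem mem_ts {D : AO O L} {x : ℤ × L} : x ∈ ts D ↔ tc D x ≠ 0 := Iff.rfl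

theorem snd_of_ts {D : AO O L} {x : ℤ × L} (h : x ∈ ts D) : x.2 ∈ supp D := by
  intro h0
  apply h
  change (D.coeff x.2).coeff x.1 = 0
  rw [h0]
  rfl

theorem exists_ts {D : AO O L} {a : L} (h : a ∈ supp D) : ∃ k : ℤ, (k, a) ∈ ts D := by
  by_contra hne
  push Not at hne
  apply h
  apply AddMonoidAlgebra.ext
  apply Finsupp.ext
  intro k
  have := hne k
  rw [mem_ts, not_not] at this
  exact this

/-- The inclusion of the total lattice of a kernel. -/
def inc2 (k : L →+ ℤ) : ℤ × Ker k →+ ℤ × L :=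
  (AddMonoidHom.id ℤ).prodMap (incl (Ker k))

theorem inc2_apply (k : L →+ ℤ) (x : ℤ × Ker k) : inc2 k x = (x.1, (x.2 : L)) := rfl

theorem inc2_inj (k : L →+ ℤ) : Function.Injective (inc2 k) := by
  intro x y h
  rw [inc2_apply, inc2_apply, Prod.mk.injEq] at h
  exact Prod.ext h.1 (Subtype.ext h.2)

/-- The projection along `(-m, S)`. -/
def prj2 (k : L →+ ℤ) (S : L) (h : k S = 1) (m : ℤ) : ℤ × L →+ ℤ × Ker k where
  toFun x := (x.1 + k x.2 * m, prj k S h x.2)
  map_zero' := by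
    rw [Prod.snd_zero, map_zero, map_zero, zero_mul, Prod.fst_zero, add_zero]
    rfl
  map_add' x y := by
    rw [Prod.snd_add, map_add, map_add, Prod.fst_add]
    refine Prod.ext ?_ rfl
    change x.1 + y.1 + (k x.2 + k y.2) * m = x.1 + k x.2 * m + (y.1 + k y.2 * m)
    ring

theorem prj2_apply (k : L →+ ℤ) (S : L) (h : k S = 1) (m : ℤ) (x : ℤ × L) :
    prj2 k S h m x = (x.1 + k x.2 * m, prj k S h x.2) := rfl

theorem prj2_b (k : L →+ ℤ) (S : L) (h : k S = 1) (m : ℤ) : prj2 k S h m (-m, S) = 0 := by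
  rw [prj2_apply]
  refine Prod.ext ?_ (Subtype.ext ?_)
  · change -m + k S * m = 0
    rw [h]; ring
  · rw [prj_coe, h, one_smul, sub_self]; rfl

theorem prj2_inc2 (k : L →+ ℤ) (S : L) (h : k S = 1) (m : ℤ) (x : ℤ × Ker k) :
    prj2 k S h m (inc2 k x) = x := by
  have hx : k (x.2 : L) = 0 := x.2.2
  rw [prj2_apply, inc2_apply]
  refine Prod.ext ?_ (Subtype.ext ?_)
  · change x.1 + k (x.2 : L) * m = x.1
    rw [hx]; ring
  · rw [prj_coe]
    change (x.2 : L) - k (x.2 : L) • S = x.2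
    rw [hx, zero_smul, sub_zero]

theorem inc2_prj2 (k : L →+ ℤ) (S : L) (h : k S = 1) (m : ℤ) (x : ℤ × L) :
    inc2 k (prj2 k S h m x) = x - k x.2 • (-m, S) := by
  rw [prj2_apply, inc2_apply]
  refine Prod.ext ?_ ?_
  · change x.1 + k x.2 * m = x.1 - k x.2 • (-m)
    rw [smul_eq_mul]; ring
  · rfl

end Basic

section Cl

variable {O : Type} [CommRing O] [IsDomain O] [IsPrincipalIdealRing O] [Coef O] {L : Type}
  [AddCommGroup L] [Module.Free ℤ L] [Module.Finite ℤ L]

/-- Coefficients of a multiple by a unit. -/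
theorem uT_coeff (v : Oˣ) (m : ℤ) (q : RO O) (n : ℤ) :
    (((uT v m : (RO O)ˣ) : RO O) * q).coeff n = (v : O) * q.coeff (n - m) := by
  have h : ((uT v m : (RO O)ˣ) : RO O) = AddMonoidAlgebra.single m (v : O) := by
    rw [uT_val, LaurentPolynomial.single_eq_C_mul_T]
  rw [h, AddMonoidAlgebra.coeff_single_mul_apply, neg_add_eq_sub]

/-- Total coefficients of a closing. -/
theorem tc_cl (k : L →+ ℤ) (S : L) (h : k S = 1) (v : Oˣ) (m : ℤ) (D : AO O L)
    (hD : ∀ a ∈ supp D, k a = 0 ∨ k a = 1) (x : ℤ × Ker k) :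
    tc (cl k S h (uT v m) D) x = tc D (inc2 k x) + (v : O) * tc D (inc2 k x + (-m, S)) := by
  change ((cl k S h (uT v m) D).coeff x.2).coeff x.1 = _
  rw [Pool.Agent.B5.H47.cl_coeff_bin k S h (uT v m) D hD x.2, AddMonoidAlgebra.coeff_add,
    Finsupp.add_apply, uT_coeff]
  rfl

/-- The port functional takes the values `0`, `1` on the total support. -/
theorem bi_of (k : L →+ ℤ) (D : AO O L) (hD : ∀ a ∈ supp D, k a = 0 ∨ k a = 1) :
    Bi (pr k) (tc D) := fun x hx => hD x.2 (snd_of_ts hx)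

/-- The closed set of a closing in the total lattice. -/
def AS (k : L →+ ℤ) (S : L) (m : ℤ) (V : AO O (Ker k)) : Set (ℤ × L) :=
  insert (-m, S) (inc2 k '' ts V)

/-- The functionals killing a closing, in terms of the closing. -/
theorem kt_iff (k : L →+ ℤ) (S : L) (h : k S = 1) (v : Oˣ) (m : ℤ) (D : AO O L)
    (hD : ∀ a ∈ supp D, k a = 0 ∨ k a = 1) (nu : ℤ × L →+ ℤ) :
    KT (pr k) (-m, S) (v : O) (tc D) nu ↔ ∀ x ∈ AS k S m (cl k S h (uT v m) D), nu x = 0 := by
  constructor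
  · rintro ⟨h0, h1⟩ x (rfl | ⟨y, hy, rfl⟩)
    · exact h0
    · by_contra hne
      apply hy
      have := h1 (inc2 k y) (by rw [pr_apply]; exact y.2.2) hne
      rw [← this]
      exact tc_cl k S h v m D hD y
  · intro h1
    refine ⟨h1 _ (Or.inl rfl), fun x hx hne => ?_⟩
    by_contra hc
    apply hne
    refine h1 x (Or.inr ⟨(x.1, ⟨x.2, hx⟩), ?_, rfl⟩)
    rw [mem_ts, tc_cl k S h v m D hD]
    exact hc

end Cl

section Cl2

variable {O : Type} [CommRing O] [IsDomain O] [IsPrincipalIdealRing O] [Coef O] {L : Type}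
  [AddCommGroup L] [Module.Free ℤ L] [Module.Finite ℤ L]

theorem finrank_tot : Module.finrank ℤ (ℤ × L) = Module.finrank ℤ L + 1 := by
  rw [Module.finrank_prod, Module.finrank_self, add_comm]

theorem finrank_tker (k : L →+ ℤ) (S : L) (h : k S = 1) :
    Module.finrank ℤ (ℤ × Ker k) = Module.finrank ℤ L := by
  rw [finrank_tot]
  refine (H41.rks L L).1 k ?_
  intro h0
  rw [h0] at h
  exact zero_ne_one h

theorem rk_AS (k : L →+ ℤ) (S : L) (h : k S = 1) (m : ℤ) (V : AO O (Ker k)) :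
    rk (AS k S m V) = trk V + 1 := by
  have h1 : rk (inc2 k '' ts V) = trk V :=
    (H41.rks (ℤ × Ker k) (ℤ × L)).2.2.2.1 (inc2 k) (ts V) (inc2_inj k)
  refine le_antisymm ?_ ?_
  · rw [← h1]; exact rk_insert_le _ _
  · rw [← h1]
    refine rk_lt_span (pr k) ?_ (fun a ha => Submodule.subset_span (Or.inr ha))
      (Submodule.subset_span (Or.inl rfl)) (x := (-m, S)) ?_
    · rintro a ⟨y, _, rfl⟩
      exact y.2.2
    · rw [pr_apply]
      change k S ≠ 0
      rw [h]; exact one_ne_zero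

/-- A closing of deficient total rank is killed by a functional. -/
theorem exists_kt (k : L →+ ℤ) (S : L) (h : k S = 1) (v : Oˣ) (m : ℤ) (D : AO O L)
    (hD : ∀ a ∈ supp D, k a = 0 ∨ k a = 1)
    (hr : trk (cl k S h (uT v m) D) < Module.finrank ℤ L) :
    ∃ nu, nu ≠ 0 ∧ KT (pr k) (-m, S) (v : O) (tc D) nu := by
  have h1 := rk_AS k S h m (cl k S h (uT v m) D)
  obtain ⟨nu, h2, h3⟩ := H65.s_kmu (ℤ × L) (AS k S m (cl k S h (uT v m) D)) (by
    rw [h1, finrank_tot]; omega)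
  exact ⟨nu, h2, (kt_iff k S h v m D hD nu).2 h3⟩

/-- Corank two: a functional with one more zero. -/
theorem exists_kt0 (k : L →+ ℤ) (S : L) (h : k S = 1) (v : Oˣ) (m : ℤ) (D : AO O L)
    (hD : ∀ a ∈ supp D, k a = 0 ∨ k a = 1)
    (hr : trk (cl k S h (uT v m) D) + 1 < Module.finrank ℤ L) (t : ℤ × L) :
    ∃ nu, nu ≠ 0 ∧ nu t = 0 ∧ KT (pr k) (-m, S) (v : O) (tc D) nu := by
  have h1 := rk_AS k S h m (cl k S h (uT v m) D)
  have h4 := rk_insert_le t (AS k S m (cl k S h (uT v m) D))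
  obtain ⟨nu, h2, h3⟩ := H65.s_kmu (ℤ × L) (insert t (AS k S m (cl k S h (uT v m) D))) (by
    rw [finrank_tot]; omega)
  exact ⟨nu, h2, h3 _ (Or.inl rfl), (kt_iff k S h v m D hD nu).2 (fun x hx => h3 x (Or.inr hx))⟩

/-- A functional killing a closing gives a total drop. -/
theorem trk_lt_of_kt (k : L →+ ℤ) (S : L) (h : k S = 1) (v : Oˣ) (m : ℤ) (D : AO O L)
    (hD : ∀ a ∈ supp D, k a = 0 ∨ k a = 1) {nu : ℤ × L →+ ℤ} (hnu : nu ≠ 0)
    (hk : KT (pr k) (-m, S) (v : O) (tc D) nu) :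
    trk (cl k S h (uT v m) D) + 1 ≤ Module.finrank ℤ L := by
  have h1 := rk_AS k S h m (cl k S h (uT v m) D)
  have h2 := rk_lt_finrank nu ((kt_iff k S h v m D hD nu).1 hk) hnu
  rw [finrank_tot] at h2
  omega

/-- Two independent functionals. -/
theorem trk_lt_of_kt2 (k : L →+ ℤ) (S : L) (h : k S = 1) (v : Oˣ) (m : ℤ) (D : AO O L)
    (hD : ∀ a ∈ supp D, k a = 0 ∨ k a = 1) {nu nu' : ℤ × L →+ ℤ} {t : ℤ × L} (ht : nu t ≠ 0)
    (ht' : nu' t = 0) (hnu : nu' ≠ 0)
    (hk : KT (pr k) (-m, S) (v : O) (tc D) nu) (hk' : KT (pr k) (-m, S) (v : O) (tc D) nu') :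
    trk (cl k S h (uT v m) D) + 2 ≤ Module.finrank ℤ L := by
  have h1 := rk_AS k S h m (cl k S h (uT v m) D)
  have h3 : rk (AS k S m (cl k S h (uT v m) D)) + 1 ≤
      rk (insert t (AS k S m (cl k S h (uT v m) D))) :=
    rk_lt_span nu ((kt_iff k S h v m D hD nu).1 hk)
      (fun a ha => Submodule.subset_span (Or.inr ha)) (Submodule.subset_span (Or.inl rfl)) ht
  have h2 : rk (insert t (AS k S m (cl k S h (uT v m) D))) + 1 ≤ Module.finrank ℤ (ℤ × L) := by
    refine rk_lt_finrank nu' ?_ hnu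
    rintro a (rfl | ha)
    · exact ht'
    · exact (kt_iff k S h v m D hD nu').1 hk' a ha
  rw [finrank_tot] at h2
  omega

/-- (INC) in terms of ranks: `T ∉ U_b`, `b ∈ U_T`: the drop of `T` is smaller. -/
theorem trk_lt_of_inc {k k' : L →+ ℤ} {S T : L} (h : k S = 1) (h' : k' T = 1) (v v' : Oˣ)
    (m m' : ℤ) (D : AO O L) (hD : ∀ a ∈ supp D, k a = 0 ∨ k a = 1)
    (hD' : ∀ a ∈ supp D, k' a = 0 ∨ k' a = 1) (hkT : k T = 0) (hkS : k' S = 0)
    {mb : ℤ × L →+ ℤ} (hb : KT (pr k) (-m, S) (v : O) (tc D) mb) (hbT : mb (-m', T) ≠ 0)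
    (hU : ∀ nu, KT (pr k') (-m', T) (v' : O) (tc D) nu → nu (-m, S) = 0) :
    trk (cl k S h (uT v m) D) + 1 ≤ trk (cl k' T h' (uT v' m') D) := by
  have h1 := rk_AS k S h m (cl k S h (uT v m) D)
  have h2 := rk_AS k' T h' m' (cl k' T h' (uT v' m') D)
  have h3 : rk (AS k S m (cl k S h (uT v m) D)) + 1 ≤
      rk (AS k' T m' (cl k' T h' (uT v' m') D)) := by
    refine rk_lt_of_ann (fun nu hnu => ?_) mb ((kt_iff k S h v m D hD mb).1 hb)
      (x := (-m', T)) (Or.inl rfl) hbT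
    have hT := (kt_iff k' T h' v' m' D hD' nu).2 hnu
    exact (kt_iff k S h v m D hD nu).1 (inc (p := pr k) (q := pr k') (bi_of k' D hD') hkT hkS h'
      v'.ne_zero hb hbT hT (hU nu hT))
  omega

end Cl2

/-! ## Products -/

section Prod

variable {O : Type} [CommRing O] {L : Type} [AddCommGroup L]

/-- The coefficient of `z^k`, as an additive map. -/
noncomputable def cf (k : ℤ) : RO O →+ O where
  toFun q := q.coeff k
  map_zero' := rfl
  map_add' _ _ := rfl

theorem exists_mul_one {F G : RO O} {k : ℤ} (h : (F * G).coeff k ≠ 0) :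
    ∃ i j : ℤ, i + j = k ∧ F.coeff i ≠ 0 ∧ G.coeff j ≠ 0 := by
  classical
  by_contra hne
  push Not at hne
  apply h
  rw [AddMonoidAlgebra.coeff_mul]
  refine Finset.sum_eq_zero fun i hi => Finset.sum_eq_zero fun j hj => ?_
  dsimp only
  split_ifs with hij
  · exact absurd (hne i j hij (Finsupp.mem_support_iff.1 hi)) (Finsupp.mem_support_iff.1 hj)
  · rfl

theorem exists_mul {F G : AO O L} {x : ℤ × L} (h : x ∈ ts (F * G)) :
    ∃ y ∈ ts F, ∃ z ∈ ts G, y + z = x := by
  classical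
  by_contra hne
  push Not at hne
  apply h
  change cf x.1 ((F * G).coeff x.2) = 0
  rw [AddMonoidAlgebra.coeff_mul, Finsupp.sum, map_sum]
  refine Finset.sum_eq_zero fun b _ => ?_
  rw [Finsupp.sum, map_sum]
  refine Finset.sum_eq_zero fun c _ => ?_
  split_ifs with hbc
  · by_contra h0
    obtain ⟨i, j, hij, hi, hj⟩ := exists_mul_one h0
    exact hne (i, b) hi (j, c) hj (Prod.ext hij hbc)
  · exact map_zero _

theorem ts_mul_le (F G : AO O L) :
    ts (F * G) ⊆ (Submodule.span ℤ (ts F ∪ ts G) : Submodule ℤ (ℤ × L)) := by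
  intro x hx
  obtain ⟨y, hy, z, hz, rfl⟩ := exists_mul hx
  exact Submodule.add_mem _ (Submodule.subset_span (Or.inl hy)) (Submodule.subset_span (Or.inr hz))

variable [Module.Free ℤ L] [Module.Finite ℤ L]

theorem rk_le_of_subset_span {S T : Set L} (h : S ⊆ (Submodule.span ℤ T : Submodule ℤ L)) :
    rk S ≤ rk T := Submodule.finrank_mono (Submodule.span_le.2 h)

theorem trk_mul_le (F G : AO O L) : trk (F * G) ≤ trk F + trk G :=
  (rk_le_of_subset_span (ts_mul_le F G)).trans ((H41.rks (ℤ × L) (ℤ × L)).2.2.2.2.2.1 _ _)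

theorem trk_le_finrank (F : AO O L) : trk F ≤ Module.finrank ℤ L + 1 := by
  rw [← finrank_tot (L := L)]
  exact (H41.rks (ℤ × L) (ℤ × L)).2.2.1 _

theorem ts_cst (c : RO O) : ∀ x ∈ ts (cst c : AO O L), x.2 = 0 := by
  classical
  intro x hx
  by_contra h
  apply hx
  change ((AddMonoidAlgebra.single (0 : L) c).coeff x.2).coeff x.1 = 0
  rw [AddMonoidAlgebra.coeff_single, Finsupp.single_apply, if_neg (fun h1 => h h1.symm)]
  rfl

theorem trk_cst_le (c : RO O) : trk (cst c : AO O L) ≤ 1 := by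
  have h1 : rk (ts (cst c : AO O L)) ≤ rk {((1 : ℤ), (0 : L))} := by
    refine rk_le_of_subset_span fun x hx => ?_
    rw [SetLike.mem_coe, Submodule.mem_span_singleton]
    refine ⟨x.1, ?_⟩
    rw [Prod.smul_mk, smul_eq_mul, mul_one, smul_zero]
    exact Prod.ext rfl (ts_cst c x hx).symm
  exact h1.trans (rk_singleton_le _)

theorem trk_cst_const (a : O) : trk (cst (LaurentPolynomial.C a) : AO O L) = 0 := by
  have h1 : rk (ts (cst (LaurentPolynomial.C a) : AO O L)) ≤ rk {(0 : ℤ × L)} := by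
    refine rk_le_of_subset_span fun x hx => ?_
    have h2 := ts_cst _ x hx
    have h3 : x.1 = 0 := by
      by_contra h
      apply hx
      change ((AddMonoidAlgebra.single (0 : L) (LaurentPolynomial.C a)).coeff x.2).coeff x.1 = 0
      rw [h2, AddMonoidAlgebra.coeff_single, Finsupp.single_eq_same, LaurentPolynomial.C_apply,
        if_neg h]
    rw [show x = 0 from Prod.ext h3 h2]
    exact Submodule.zero_mem _
  have h4 : rk {(0 : ℤ × L)} = 0 := by
    rw [rk, Submodule.span_zero_singleton, finrank_bot]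
  rw [trk]
  omega

/-- The `w`-rank and the total rank. -/
theorem rk_le_trk (F : AO O L) : rk (supp F) ≤ trk F := by
  have h1 : supp F ⊆ (AddMonoidHom.snd ℤ L) '' ts F := by
    intro a ha
    obtain ⟨k, hk⟩ := exists_ts ha
    exact ⟨(k, a), hk, rfl⟩
  exact ((H41.rks L L).2.1 _ _ h1).trans
    ((H41.rks (ℤ × L) L).2.2.2.2.1 (AddMonoidHom.snd ℤ L) (ts F))

theorem trk_le_rk (F : AO O L) : trk F ≤ rk (supp F) + 1 := by
  have h1 : ts F ⊆ (Submodule.span ℤ (insert ((1 : ℤ), (0 : L)) (AddMonoidHom.inr ℤ L '' supp F)) :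
      Submodule ℤ (ℤ × L)) := by
    intro x hx
    have h2 : x = x.1 • ((1 : ℤ), (0 : L)) + AddMonoidHom.inr ℤ L x.2 := by
      refine Prod.ext ?_ ?_
      · change x.1 = x.1 • (1 : ℤ) + 0
        rw [smul_eq_mul, mul_one, add_zero]
      · change x.2 = x.1 • (0 : L) + x.2
        rw [smul_zero, zero_add]
    rw [h2]
    exact Submodule.add_mem _ (Submodule.smul_mem _ _ (Submodule.subset_span (Or.inl rfl)))
      (Submodule.subset_span (Or.inr ⟨x.2, snd_of_ts hx, rfl⟩))
  refine (rk_le_of_subset_span h1).trans ((rk_insert_le _ _).trans ?_)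
  exact Nat.add_le_add_right ((H41.rks L (ℤ × L)).2.2.2.2.1 (AddMonoidHom.inr ℤ L) (supp F)) 1

/-- A normalised z-free element has equal ranks. -/
theorem trk_zfree {F : AO O L} (h : ZFree F) (h0 : ((0 : ℤ), (0 : L)) ∈ ts F) :
    trk F = rk (supp F) := by
  refine le_antisymm ?_ (rk_le_trk F)
  obtain ⟨q, l, n, hq, hl⟩ := h
  have hn : n = 0 := by
    have := hl 0 0 h0
    rw [map_zero, mul_zero, zero_add] at this
    have hq' : (q : ℤ) ≠ 0 := by exact_mod_cast hq.ne'
    exact (mul_eq_zero.1 this.symm).resolve_left hq'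
  have hts : ∀ x ∈ ts F, (q : ℤ) * x.1 = l x.2 := by
    intro x hx
    have := hl x.2 x.1 hx
    rw [hn, mul_zero, add_zero] at this
    exact this
  -- the projection is injective on the span
  let K : Submodule ℤ (ℤ × L) := Submodule.span ℤ (ts F)
  have hK : ∀ x ∈ K, (q : ℤ) * x.1 = l x.2 := by
    intro x hx
    induction hx using Submodule.span_induction with
    | mem x hx => exact hts x hx
    | zero => rw [Prod.fst_zero, Prod.snd_zero, map_zero, mul_zero]
    | add x y _ _ h1 h2 => rw [Prod.fst_add, Prod.snd_add, map_add, mul_add, h1, h2]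
    | smul a x _ h1 =>
      rw [Prod.smul_fst, Prod.smul_snd, map_zsmul, smul_eq_mul, smul_eq_mul, ← h1]; ring
  let f : K →ₗ[ℤ] L := (LinearMap.snd ℤ ℤ L).comp K.subtype
  have hf : Function.Injective f := by
    rw [← LinearMap.ker_eq_bot, LinearMap.ker_eq_bot']
    intro x hx
    have h1 : (x : ℤ × L).2 = 0 := hx
    have h2 := hK x x.2
    rw [h1, map_zero] at h2
    have hq' : (q : ℤ) ≠ 0 := by exact_mod_cast hq.ne'
    exact Subtype.ext (Prod.ext ((mul_eq_zero.1 h2).resolve_left hq') h1)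
  have h3 : Module.finrank ℤ (LinearMap.range f) = Module.finrank ℤ K :=
    LinearMap.finrank_range_of_inj hf
  have h4 : LinearMap.range f ≤ Submodule.span ℤ (supp F) := by
    rintro _ ⟨x, rfl⟩
    change (x : ℤ × L).2 ∈ Submodule.span ℤ (supp F)
    have : K ≤ (Submodule.span ℤ (supp F)).comap (LinearMap.snd ℤ ℤ L) := by
      rw [Submodule.span_le]
      intro y hy
      exact Submodule.subset_span (snd_of_ts hy)
    exact this x.2
  have h5 := Submodule.finrank_mono h4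
  change Module.finrank ℤ K ≤ Module.finrank ℤ (Submodule.span ℤ (supp F))
  omega

end Prod

end Pool.Agent.B5.Tl
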