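import Pool.Agent.Lib.MP_b5021c_nt.BP.H71.Tot

/-!
# Board b5, BpS: the chain step (helper71)

Abstract form: a finite family of vectors `R i` (the rays) with ports `q i` and loads `v i`;
`N i` = the functionals of the total lattice which kill the closing of `R i`; `i ~ j` (mutual):
`N i` is not zero at `R j` and conversely.
-/

namespace Pool.Agent.B5.Tot

section

variable {Λ : Type*} [AddCommGroup Λ] {O : Type*} [CommRing O] [IsDomain O]

/-- `KR` at general loads. -/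
def KRg (p q : Λ →+ ℤ) (b T : Λ) (v v' : O) (c : Λ → O) (nu : Λ →+ ℤ) : Prop :=
  nu b = 0 ∧ nu T = 0 ∧ ∀ x, p x = 0 → q x = 0 → nu x ≠ 0 →
    v * v' * c (x + b + T) = c x ∧ v * c (x + b) + v' * c (x + T) + v * v' * c (x + b + T) = 0

/-- (CLM) at general loads. -/
theorem clmg {p q q' : Λ →+ ℤ} {b T T' : Λ} {v v' v'' : O} {c : Λ → O} (hp : Bi p c)
    (hq : Bi q c) (hq' : Bi q' c)
    (hpb : p b = 1) (hpT : p T = 0) (hqb : q b = 0) (hqT : q T = 1) (hqT' : q' T' = 1)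
    (hv : v ≠ 0) (hv' : v' ≠ 0) (hv'' : v'' ≠ 0)
    (hcT' : c T' ≠ 0) {mb mT mT' nu : Λ →+ ℤ}
    (hb : KT p b v c mb) (hbT : mb T ≠ 0) (hT : KT q T v' c mT) (hTb : mT b = 0)
    (hTT' : mT T' ≠ 0) (hT' : KT q' T' v'' c mT') (hT'T : mT' T ≠ 0)
    (hn : KRg p q b T v v' c nu) : ∀ x, c x ≠ 0 → nu x = 0 := by
  have hvv : v * v' ≠ 0 := mul_ne_zero hv hv'
  -- the shape of a killed class
  have shape : ∀ y, p y = 0 → q y = 0 → nu y ≠ 0 →
      v * v' * c (y + b + T) = c y ∧ v * c (y + b) + v' * c (y + T) = - c y ∧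
        (v * c (y + b) = - c y ∨ c (y + b) = 0) := by
    intro y hpy hqy hny
    obtain ⟨h1, h2⟩ := hn.2.2 y hpy hqy hny
    refine ⟨h1, by rw [h1] at h2; linear_combination h2, ?_⟩
    by_cases hm : mb y = 0
    · right
      have := hb.2 (y + T) (by rw [map_add, hpy, hpT, add_zero])
        (by rw [map_add, hm, zero_add]; exact hbT)
      rw [show y + T + b = y + b + T by abel] at this
      have h3 : v * c (y + b) = 0 := by linear_combination h2 - v' * this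
      exact (mul_eq_zero.1 h3).resolve_left hv
    · left
      have := hb.2 y hpy hm
      linear_combination this
  -- a killed class with `mT ≠ 0` is zero
  have zero : ∀ y, p y = 0 → q y = 0 → nu y ≠ 0 → mT y ≠ 0 →
      c y = 0 ∧ c (y + b) = 0 ∧ c (y + T) = 0 ∧ c (y + b + T) = 0 := by
    intro y hpy hqy hny hm
    obtain ⟨h1, h2, _⟩ := shape y hpy hqy hny
    have l0 := hT.2 y hqy hm
    have l1 := hT.2 (y + b) (by rw [map_add, hqy, hqb, add_zero])
      (by rw [map_add, hTb, add_zero]; exact hm)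
    have c0 : c y = 0 := by linear_combination l0 + v * l1 - h1 - h2
    have c3 : c (y + b + T) = 0 := by
      have : v * v' * c (y + b + T) = 0 := by rw [h1, c0]
      exact (mul_eq_zero.1 this).resolve_left hvv
    refine ⟨c0, ?_, ?_, c3⟩
    · rw [c3, mul_zero, add_zero] at l1
      exact l1
    · rw [c0, zero_add] at l0
      exact (mul_eq_zero.1 l0).resolve_left hv'
  -- a point of the support with `nu ≠ 0` has `mT = 0`
  have pt : ∀ x, nu x ≠ 0 → mT x ≠ 0 → c x = 0 := by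
    intro x hnx hmx
    by_contra hx
    have hz := zero (x - p x • b - q x • T)
      (by rw [map_sub, map_sub, map_zsmul, map_zsmul, hpb, hpT]; simp)
      (by rw [map_sub, map_sub, map_zsmul, map_zsmul, hqb, hqT]; simp)
      (by rw [map_sub, map_sub, map_zsmul, map_zsmul, hn.1, hn.2.1]; simpa using hnx)
      (by rw [map_sub, map_sub, map_zsmul, map_zsmul, hTb, hT.1]; simpa using hmx)
    rcases hp x hx with h0 | h0 <;> rcases hq x hx with h1 | h1 <;> rw [h0, h1] at hz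
    · apply hx; simpa using hz.1
    · apply hx; simpa using hz.2.2.1
    · apply hx; simpa using hz.2.1
    · apply hx
      have := hz.2.2.2
      rwa [one_smul, one_smul, show x - b - T + b + T = x by abel] at this
  have hnT' : nu T' = 0 := by
    by_contra h
    exact hcT' (pt T' h hTT')
  intro x hx
  by_contra hnx
  -- base point
  obtain ⟨y, hpy, hqy, hny, hsome⟩ : ∃ y, p y = 0 ∧ q y = 0 ∧ nu y ≠ 0 ∧
      (c y ≠ 0 ∨ c (y + b) ≠ 0 ∨ c (y + T) ≠ 0 ∨ c (y + b + T) ≠ 0) := by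
    refine ⟨x - p x • b - q x • T,
      by rw [map_sub, map_sub, map_zsmul, map_zsmul, hpb, hpT]; simp,
      by rw [map_sub, map_sub, map_zsmul, map_zsmul, hqb, hqT]; simp,
      by rw [map_sub, map_sub, map_zsmul, map_zsmul, hn.1, hn.2.1]; simpa using hnx, ?_⟩
    rcases hp x hx with h0 | h0 <;> rcases hq x hx with h1 | h1 <;> rw [h0, h1]
    · left; simpa using hx
    · right; right; left; simpa using hx
    · right; left; simpa using hx
    · right; right; right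
      rwa [one_smul, one_smul, show x - b - T + b + T = x by abel]
  obtain ⟨s1, s2, s3⟩ := shape y hpy hqy hny
  have hcy : c y ≠ 0 := by
    intro h0
    rw [h0, neg_zero] at s2 s3
    have h1 : c (y + b) = 0 := by
      rcases s3 with h | h
      · exact (mul_eq_zero.1 h).resolve_left hv
      · exact h
    rw [h1, mul_zero, zero_add] at s2
    rw [h0] at s1
    rcases hsome with h | h | h | h
    exacts [h h0, h h1, h ((mul_eq_zero.1 s2).resolve_left hv'),
      h ((mul_eq_zero.1 s1).resolve_left hvv)]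
  -- every point `a` of the support with `nu a ≠ 0` is killed by `mT'`
  have al : ∀ a, c a ≠ 0 → nu a ≠ 0 → mT' a = 0 := by
    intro a ha hna
    have hma : mT a = 0 := by
      by_contra h
      exact ha (pt a hna h)
    refine hT'.alone hq' hqT' hv'' ha ?_ ?_
    · refine pt _ (by rw [map_add, hnT', add_zero]; exact hna) ?_
      rw [map_add, hma, zero_add]; exact hTT'
    · refine pt _ (by rw [map_sub, hnT', sub_zero]; exact hna) ?_
      rw [map_sub, hma, zero_sub]; exact neg_ne_zero.2 hTT'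
  have n1 : nu (y + T) ≠ 0 := by rw [map_add, hn.2.1, add_zero]; exact hny
  have n2 : nu (y + b) ≠ 0 := by rw [map_add, hn.1, add_zero]; exact hny
  have n3 : nu (y + b + T) ≠ 0 := by rw [map_add, hn.2.1, add_zero]; exact n2
  rcases s3 with h | h
  · -- `v c (y + b) = - c y`
    have hb0 : c (y + b) ≠ 0 := by
      intro h0
      rw [h0, mul_zero] at h
      exact hcy (neg_eq_zero.1 h.symm)
    have hbT0 : c (y + b + T) ≠ 0 := by
      intro h0
      rw [h0, mul_zero] at s1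
      exact hcy s1.symm
    have a1 := al (y + b) hb0 n2
    have a2 := al (y + b + T) hbT0 n3
    rw [map_add, a1, zero_add] at a2
    exact hT'T a2
  · have hT0 : c (y + T) ≠ 0 := by
      intro h0
      rw [h, h0, mul_zero, mul_zero, zero_add] at s2
      exact hcy (neg_eq_zero.1 s2.symm)
    have a1 := al y hcy hny
    have a2 := al (y + T) hT0 n1
    rw [map_add, a1, zero_add] at a2
    exact hT'T a2

/-- The killing functionals are closed under combinations. -/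
theorem KT.comb {p : Λ →+ ℤ} {b : Λ} {v : O} {c : Λ → O} {m1 m0 : Λ →+ ℤ} (h1 : KT p b v c m1)
    (h0 : KT p b v c m0) (s t : ℤ) : KT p b v c (s • m1 - t • m0) := by
  have m2v : ∀ x, (s • m1 - t • m0 : Λ →+ ℤ) x = s * m1 x - t * m0 x := fun x => by simp
  refine ⟨by rw [m2v, h1.1, h0.1]; ring, fun x hx hne => ?_⟩
  by_cases hm : m1 x = 0
  · have : m0 x ≠ 0 := by
      intro h
      rw [m2v, hm, h] at hne
      simp at hne
    exact h0.2 x hx this
  · exact h1.2 x hx hm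

theorem comb_apply (m1 m0 : Λ →+ ℤ) (s t : ℤ) (x : Λ) :
    (s • m1 - t • m0 : Λ →+ ℤ) x = s * m1 x - t * m0 x := by simp

/-- `KR` gives `KD` at the loads `v eta`, `v' eta`, `eta^2 - eta + 1 = 0`. -/
theorem KRg.kd {O' : Type*} [CommRing O'] [IsDomain O'] (f : O →+* O') {eta : O'}
    (he : eta ^ 2 - eta + 1 = 0) {p q : Λ →+ ℤ} {b T : Λ} {v v' : O} {c : Λ → O} {nu : Λ →+ ℤ}
    (h : KRg p q b T v v' c nu) :
    KD p q b T (eta * f v) (eta * f v') (fun x => f (c x)) nu := by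
  refine ⟨h.1, h.2.1, fun x hp hq hn => ?_⟩
  obtain ⟨h1, h2⟩ := h.2.2 x hp hq hn
  have h1' := congrArg f h1
  have h2' := congrArg f h2
  simp only [map_mul, map_add, map_zero] at h1' h2'
  linear_combination (eta ^ 2 - eta) * h1' + eta * h2' + f (c x) * he

end

/-! ## The system of rays -/

section

variable {Λ : Type*} [AddCommGroup Λ] {O : Type*} [CommRing O] [IsDomain O] {ι : Type*}

/-- The rays with their ports and loads. -/
structure Sys (c : Λ → O) (R : ι → Λ) (q : ι → Λ →+ ℤ) (v : ι → O) : Prop where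
  bi : ∀ i, Bi (q i) c
  one : ∀ i, q i (R i) = 1
  ne : ∀ i, v i ≠ 0
  cR : ∀ i, c (R i) ≠ 0
  dis : ∀ i j mu, KT (q i) (R i) (v i) c mu → mu (R j) ≠ 0 → q i (R j) = 0 ∧ q j (R i) = 0
  spn : ∀ mu : Λ →+ ℤ, (∀ x, c x ≠ 0 → mu x = 0) → mu = 0

/-- `nu` kills the closing of the ray `i`. -/
def NN (c : Λ → O) (R : ι → Λ) (q : ι → Λ →+ ℤ) (v : ι → O) (i : ι) (nu : Λ →+ ℤ) : Prop :=
  KT (q i) (R i) (v i) c nu

/-- `j` is outside `U_i`. -/
def Ou (c : Λ → O) (R : ι → Λ) (q : ι → Λ →+ ℤ) (v : ι → O) (i j : ι) : Prop :=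
  ∃ mu, NN c R q v i mu ∧ mu (R j) ≠ 0

/-- Type E: all killing functionals vanish at `ez`. -/
def TyE (c : Λ → O) (R : ι → Λ) (q : ι → Λ →+ ℤ) (v : ι → O) (ez : Λ) (i : ι) : Prop :=
  ∀ mu, NN c R q v i mu → mu ez = 0

variable {c : Λ → O} {R : ι → Λ} {q : ι → Λ →+ ℤ} {v : ι → O} {ez : Λ}

/-- (INC). -/
theorem Sys.inc (h : Sys c R q v) {i j : ι} (ho : Ou c R q v i j) {mu : Λ →+ ℤ}
    (hm : NN c R q v j mu) (h0 : mu (R i) = 0) : NN c R q v i mu := by
  obtain ⟨mb, hb, hbT⟩ := ho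
  obtain ⟨d1, d2⟩ := h.dis i j mb hb hbT
  exact Tot.inc (h.bi j) d1 d2 (h.one j) (h.ne j) hb hbT hm h0

/-- (Z1). -/
theorem Sys.z1 (h : Sys c R q v) {b T : ι} (hE : TyE c R q v ez b) (ho : Ou c R q v b T)
    (hZ : ¬ TyE c R q v ez T) : Ou c R q v T b := by
  by_contra hno
  apply hZ
  intro mu hmu
  have h0 : mu (R b) = 0 := by
    by_contra hne
    exact hno ⟨mu, hmu, hne⟩
  exact hE mu (h.inc ho hmu h0)

/-- (STRUCT) every adjacent ray outside `U_b` is mutual with `b`. -/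
theorem Sys.struct [Finite ι] (h : Sys c R q v) {b : ι} {adj : ι → Prop}
    (hE : TyE c R q v ez b)
    (hPb : ∀ T, adj T → Ou c R q v b T → ∃ nu, nu ≠ 0 ∧ NN c R q v T nu)
    (hface : ∀ mu, mu ≠ 0 → NN c R q v b mu → ∃ T, adj T ∧ mu (R T) ≠ 0)
    (hF : ∀ T1 T nu, adj T1 → Ou c R q v b T1 → TyE c R q v ez T1 → Ou c R q v T1 T →
      Ou c R q v T T1 → TyE c R q v ez T → nu ≠ 0 → NN c R q v b nu → nu (R T1) = 0 →
        ∃ nu', nu' ≠ 0 ∧ KRg (q b) (q T1) (R b) (R T1) (v b) (v T1) c nu') :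
    ∀ T, adj T → Ou c R q v b T → Ou c R q v T b := by
  classical
  intro T0 hT0 ho0
  by_contra hno0
  -- `N_T0 ≤ N_b`
  have hle0 : ∀ mu, NN c R q v T0 mu → NN c R q v b mu := by
    intro mu hmu
    refine h.inc ho0 hmu ?_
    by_contra hne
    exact hno0 ⟨mu, hmu, hne⟩
  -- the candidates
  let C : Set ι := {T | Ou c R q v b T ∧ (∃ nu, nu ≠ 0 ∧ NN c R q v T nu) ∧
    ∀ mu, NN c R q v T mu → NN c R q v T0 mu}
  have hC : C.Nonempty := ⟨T0, ho0, hPb T0 hT0 ho0, fun _ hmu => hmu⟩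
  let S : Set (Set (Λ →+ ℤ)) := (fun T => {mu | NN c R q v T mu}) '' C
  have hSfin : S.Finite := (Set.toFinite C).image _
  obtain ⟨A, hA⟩ := hSfin.exists_minimal (hC.image _)
  obtain ⟨T, hTC, rfl⟩ := hA.1
  have hmin : ∀ T1 ∈ C, (∀ mu, NN c R q v T1 mu → NN c R q v T mu) →
      ∀ mu, NN c R q v T mu → NN c R q v T1 mu := by
    intro T1 hT1 hle mu hmu
    exact hA.2 (Set.mem_image_of_mem _ hT1) hle hmu
  obtain ⟨hoT, ⟨mu, hmu0, hmu⟩, hleT⟩ := hTC
  have hleb : ∀ mu, NN c R q v T mu → NN c R q v b mu := fun mu hmu => hle0 mu (hleT mu hmu)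
  have hTE : TyE c R q v ez T := fun mu hmu => hE mu (hleb mu hmu)
  have hTb : ∀ mu, NN c R q v T mu → mu (R b) = 0 := fun mu hmu => (hleb mu hmu).1
  -- (ii)
  obtain ⟨T1, hadj, hmT1⟩ := hface mu hmu0 (hleb mu hmu)
  have hbT1 : Ou c R q v b T1 := ⟨mu, hleb mu hmu, hmT1⟩
  have hTT1 : Ou c R q v T T1 := ⟨mu, hmu, hmT1⟩
  have hN1 := hPb T1 hadj hbT1
  -- (i)
  have hT1T : Ou c R q v T1 T := by
    by_contra hno
    have hle : ∀ nu, NN c R q v T1 nu → NN c R q v T nu := by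
      intro nu hnu
      refine h.inc hTT1 hnu ?_
      by_contra hne
      exact hno ⟨nu, hnu, hne⟩
    have := hmin T1 ⟨hbT1, hN1, fun nu hnu => hleT nu (hle nu hnu)⟩ hle mu hmu
    exact hmT1 this.1
  by_cases hm : Ou c R q v T1 b
  · -- (iv)
    obtain ⟨m1, hm1, hm1b⟩ := hm
    -- on `N_T1`: `{T = 0} ⊆ {b = 0}`
    have k1 : ∀ nu, NN c R q v T1 nu → nu (R T) = 0 → nu (R b) = 0 := by
      intro nu hnu h0
      exact hTb nu (h.inc hTT1 hnu h0)
    -- `N_b ∩ {T1 = 0} ⊆ N_T`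
    have k2 : ∀ nu, NN c R q v b nu → nu (R T1) = 0 → NN c R q v T nu := by
      intro nu hnu h0
      have hnu1 : NN c R q v T1 nu := h.inc ⟨m1, hm1, hm1b⟩ hnu h0
      have hnb : nu (R b) = 0 := hnu.1
      have e1 := k1 _ (KT.comb hnu1 hm1 (m1 (R T)) (nu (R T)))
        (by rw [comb_apply]; ring)
      rw [comb_apply, hnb, mul_zero, zero_sub, neg_eq_zero] at e1
      have e2 : nu (R T) = 0 := (mul_eq_zero.1 e1).resolve_right hm1b
      exact h.inc hTT1 hnu1 e2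
    obtain ⟨mb, hmb, hmbT⟩ := hoT
    have k3 := k2 _ (KT.comb hmb (hleb mu hmu) (mu (R T1)) (mb (R T1)))
      (by rw [comb_apply]; ring)
    have k4 := k3.1
    rw [comb_apply, hmu.1, mul_zero, sub_zero] at k4
    rcases mul_eq_zero.1 k4 with k5 | k5
    · exact hmT1 k5
    · exact hmbT k5
  · -- (iii)
    have hT1E : TyE c R q v ez T1 := by
      by_contra hZ
      exact hm (h.z1 hE hbT1 hZ)
    obtain ⟨nu1, hnu10, hnu1⟩ := hN1
    have hb0 : ∀ nu, NN c R q v T1 nu → nu (R b) = 0 := by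
      intro nu hnu
      by_contra hne
      exact hm ⟨nu, hnu, hne⟩
    have hnub : NN c R q v b nu1 := h.inc hbT1 hnu1 (hb0 nu1 hnu1)
    obtain ⟨nu', hnu'0, hKR⟩ := hF T1 T nu1 hadj hbT1 hT1E hT1T hTT1 hTE hnu10 hnub hnu1.1
    apply hnu'0
    apply h.spn
    obtain ⟨mT1, hmT1N, hmT1T⟩ := hT1T
    obtain ⟨mT, hmTN, hmTT1⟩ := hTT1
    obtain ⟨d1, d2⟩ := h.dis b T1 mu (hleb mu hmu) hmT1
    exact clmg (h.bi b) (h.bi T1) (h.bi T) (h.one b) d1 d2 (h.one T1) (h.one T)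
      (h.ne b) (h.ne T1) (h.ne T) (h.cR T) (hleb mu hmu) hmT1 hmT1N (hb0 mT1 hmT1N) hmT1T
      hmTN hmTT1 hKR

/-- (G) the killing functionals of `b` are proportional: one which vanishes at an adjacent ray
`T` outside `U_b` is zero. -/
theorem Sys.dim_one {O' : Type*} [CommRing O'] [IsDomain O'] (f : O →+* O')
    (hf : Function.Injective f) {eta : O'} (he : eta ^ 2 - eta + 1 = 0)
    (h : Sys c R q v) {b : ι} {adj : ι → Prop} (hbE : TyE c R q v ez b)
    (hmut : ∀ T, adj T → Ou c R q v b T → Ou c R q v T b)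
    (hface : ∀ mu, mu ≠ 0 → NN c R q v b mu → ∃ T, adj T ∧ mu (R T) ≠ 0)
    (hF : ∀ T1 T nu, adj T1 → Ou c R q v b T1 → TyE c R q v ez T1 → Ou c R q v T1 T →
      Ou c R q v T T1 → TyE c R q v ez T → nu ≠ 0 → NN c R q v b nu → nu (R T1) = 0 →
        ∃ nu', nu' ≠ 0 ∧ KRg (q b) (q T1) (R b) (R T1) (v b) (v T1) c nu')
    {T : ι} (hT : adj T) (hoT : Ou c R q v b T) (hTE : TyE c R q v ez T) {mu : Λ →+ ℤ}
    (hmu : NN c R q v b mu) (hmT : mu (R T) = 0) : mu = 0 := by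
  by_contra hmu0
  obtain ⟨T', hadj', hmT'⟩ := hface mu hmu0 hmu
  have hoT' : Ou c R q v b T' := ⟨mu, hmu, hmT'⟩
  obtain ⟨nu, hnu0, hKR⟩ := hF T b mu hT hoT hTE (hmut T hT hoT) hoT hbE hmu0 hmu hmT
  apply hnu0
  apply h.spn
  obtain ⟨m1, hm1, hm1T⟩ := hoT
  obtain ⟨mT, hmTN, hmTb⟩ := hmut T hT ⟨m1, hm1, hm1T⟩
  obtain ⟨mR, hmRN, hmRb⟩ := hmut T' hadj' hoT'
  obtain ⟨d1, d2⟩ := h.dis b T m1 hm1 hm1T
  obtain ⟨d3, d4⟩ := h.dis b T' mu hmu hmT'
  have heta0 : eta ≠ 0 := by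
    rintro rfl
    simp at he
  have heta1 : eta ≠ 1 := by
    rintro rfl
    simp at he
  have hinj : ∀ a : O, f a = 0 → a = 0 := fun a ha => hf (by rw [ha, map_zero])
  have lift : ∀ {p : Λ →+ ℤ} {b : Λ} {v : O} {nu : Λ →+ ℤ}, KT p b v c nu →
      KT p b (f v) (fun x => f (c x)) nu := by
    intro p b v nu hK
    refine ⟨hK.1, fun x hx hn => ?_⟩
    have := congrArg f (hK.2 x hx hn)
    simpa only [map_add, map_mul, map_zero] using this
  have liftB : ∀ {p : Λ →+ ℤ}, Bi p c → Bi p (fun x => f (c x)) := by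
    intro p hB x hx
    exact hB x (fun h0 => hx (by simp only [h0, map_zero]))
  have hvf : ∀ i, f (v i) ≠ 0 := fun i h0 => h.ne i (hinj _ h0)
  intro x hx
  refine t2g (c := fun x => f (c x)) (e := eta * f (v b)) (e' := eta * f (v T))
    (liftB (h.bi b)) (liftB (h.bi T)) (liftB (h.bi T')) (h.one b) d1 d2 (h.one T)
    (h.one T') d3 d4 (hvf b) (hvf T') ?_ ?_ (mul_ne_zero heta0 (hvf b))
    (mul_ne_zero heta0 (hvf T)) (fun h0 => h.cR T' (hinj _ h0)) (lift hm1) hm1T (lift hmu) hmT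
    hmT' (lift hmTN) hmTb (lift hmRN) hmRb (hKR.kd f he) x (fun h0 => hx (hinj _ h0))
  · intro h0
    apply heta1
    have : (eta - 1) * f (v b) = 0 := by linear_combination h0
    exact sub_eq_zero.1 ((mul_eq_zero.1 this).resolve_right (hvf b))
  · intro h0
    apply heta1
    have : (eta - 1) * f (v T) = 0 := by linear_combination h0
    exact sub_eq_zero.1 ((mul_eq_zero.1 this).resolve_right (hvf T))

/-- (STRUCT') every adjacent ray outside `U_b` is mutual with `b`, or there is a bad pair: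
`T1`, `x` adjacent, mutual, `N_T1, N_x ⊆ N_b`, with a three-dimensional face `F3 T1 x`. -/
theorem Sys.struct' [Finite ι] (h : Sys c R q v) {b : ι} {adj : ι → Prop} {F3 : ι → ι → Prop}
    (hPb : ∀ T, adj T → Ou c R q v b T → ∃ nu, nu ≠ 0 ∧ NN c R q v T nu)
    (hface : ∀ T1 mu, adj T1 → Ou c R q v b T1 → mu ≠ 0 → NN c R q v T1 mu → NN c R q v b mu →
      ∃ x, adj x ∧ F3 T1 x ∧ mu (R x) ≠ 0) :
    (∀ T, adj T → Ou c R q v b T → Ou c R q v T b) ∨
      ∃ T1 x, adj T1 ∧ adj x ∧ F3 T1 x ∧ Ou c R q v b T1 ∧ Ou c R q v b x ∧ Ou c R q v T1 x ∧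
        Ou c R q v x T1 ∧ (∀ nu, NN c R q v T1 nu → NN c R q v b nu) ∧
        (∀ nu, NN c R q v x nu → NN c R q v b nu) ∧ ∃ mu, NN c R q v T1 mu ∧ mu (R x) ≠ 0 := by
  classical
  by_contra hcon
  push Not at hcon
  obtain ⟨⟨T0, hT0, ho0, hno0⟩, hbad⟩ := hcon
  have hle0 : ∀ mu, NN c R q v T0 mu → NN c R q v b mu := by
    intro mu hmu
    refine h.inc ho0 hmu ?_
    by_contra hne
    exact hno0 ⟨mu, hmu, hne⟩
  -- the candidates
  let C : Set ι := {T | adj T ∧ Ou c R q v b T ∧ (∃ nu, nu ≠ 0 ∧ NN c R q v T nu) ∧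
    ∀ mu, NN c R q v T mu → NN c R q v b mu}
  have hC : C.Nonempty := ⟨T0, hT0, ho0, hPb T0 hT0 ho0, hle0⟩
  let S : Set (Set (Λ →+ ℤ)) := (fun T => {mu | NN c R q v T mu}) '' C
  have hSfin : S.Finite := (Set.toFinite C).image _
  obtain ⟨A, hA⟩ := hSfin.exists_minimal (hC.image _)
  obtain ⟨T1, hTC, rfl⟩ := hA.1
  have hmin : ∀ x ∈ C, (∀ mu, NN c R q v x mu → NN c R q v T1 mu) →
      ∀ mu, NN c R q v T1 mu → NN c R q v x mu := by
    intro x hx hle mu hmu
    exact hA.2 (Set.mem_image_of_mem _ hx) hle hmu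
  obtain ⟨hadj1, hoT1, ⟨mu, hmu0, hmu⟩, hleb⟩ := hTC
  have hT1b : ∀ nu, NN c R q v T1 nu → nu (R b) = 0 := fun nu hnu => (hleb nu hnu).1
  obtain ⟨x, hadjx, hF3, hmx⟩ := hface T1 mu hadj1 hoT1 hmu0 hmu (hleb mu hmu)
  have hbx : Ou c R q v b x := ⟨mu, hleb mu hmu, hmx⟩
  have hT1x : Ou c R q v T1 x := ⟨mu, hmu, hmx⟩
  have hNx := hPb x hadjx hbx
  have hxT1 : Ou c R q v x T1 := by
    by_contra hno
    have hle : ∀ nu, NN c R q v x nu → NN c R q v T1 nu := by
      intro nu hnu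
      refine h.inc hT1x hnu ?_
      by_contra hne
      exact hno ⟨nu, hnu, hne⟩
    have := hmin x ⟨hadjx, hbx, hNx, fun nu hnu => hleb nu (hle nu hnu)⟩ hle mu hmu
    exact hmx this.1
  have hxb : ¬ Ou c R q v x b := by
    rintro ⟨m1, hm1, hm1b⟩
    have k1 : ∀ nu, NN c R q v x nu → nu (R T1) = 0 → nu (R b) = 0 := by
      intro nu hnu h0
      exact hT1b nu (h.inc hT1x hnu h0)
    have k2 : ∀ nu, NN c R q v b nu → nu (R x) = 0 → NN c R q v T1 nu := by
      intro nu hnu h0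
      have hnu1 : NN c R q v x nu := h.inc ⟨m1, hm1, hm1b⟩ hnu h0
      have hnb : nu (R b) = 0 := hnu.1
      have e1 := k1 _ (KT.comb hnu1 hm1 (m1 (R T1)) (nu (R T1)))
        (by rw [comb_apply]; ring)
      rw [comb_apply, hnb, mul_zero, zero_sub, neg_eq_zero] at e1
      have e2 : nu (R T1) = 0 := (mul_eq_zero.1 e1).resolve_right hm1b
      exact h.inc hT1x hnu1 e2
    obtain ⟨mb, hmb, hmbT⟩ := hoT1
    have k3 := k2 _ (KT.comb hmb (hleb mu hmu) (mu (R x)) (mb (R x)))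
      (by rw [comb_apply]; ring)
    have k4 := k3.1
    rw [comb_apply, hmu.1, mul_zero, sub_zero] at k4
    rcases mul_eq_zero.1 k4 with k5 | k5
    · exact hmx k5
    · exact hmbT k5
  have hlex : ∀ nu, NN c R q v x nu → NN c R q v b nu := by
    intro nu hnu
    refine h.inc hbx hnu ?_
    by_contra hne
    exact hxb ⟨nu, hnu, hne⟩
  exact hmx (hbad T1 x hadj1 hadjx hF3 hoT1 hbx hT1x hxT1 hleb hlex mu hmu)

/-- The double closing `(b, T1)` of a bad pair has no total drop. -/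
theorem Sys.bad_full (h : Sys c R q v) {b T1 x : ι} (h1 : Ou c R q v b T1)
    (h3 : Ou c R q v T1 x) (h4 : Ou c R q v x T1)
    (h5 : ∀ nu, NN c R q v T1 nu → NN c R q v b nu) {nu : Λ →+ ℤ}
    (hK : KRg (q b) (q T1) (R b) (R T1) (v b) (v T1) c nu) : nu = 0 := by
  apply h.spn
  obtain ⟨mb, hmb, hmbT⟩ := h1
  obtain ⟨m1, hm1, hm1x⟩ := h3
  obtain ⟨mx, hmx, hmxT⟩ := h4
  obtain ⟨d1, d2⟩ := h.dis b T1 mb hmb hmbT
  exact clmg (h.bi b) (h.bi T1) (h.bi x) (h.one b) d1 d2 (h.one T1) (h.one x)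
    (h.ne b) (h.ne T1) (h.ne x) (h.cR x) hmb hmbT hm1 (h5 m1 hm1).1 hm1x hmx hmxT hK

/-- `b`, `T` and `b`, `R` mutual, `mu ∈ N_b` zero at `T`, not zero at `R`: the double closing
`(b, T)` has no total drop. -/
theorem Sys.mut_full {O' : Type*} [CommRing O'] [IsDomain O'] (f : O →+* O')
    (hf : Function.Injective f) {eta : O'} (he : eta ^ 2 - eta + 1 = 0)
    (h : Sys c R q v) {b T T' : ι} (hoT : Ou c R q v b T) (hTb : Ou c R q v T b)
    (hT'b : Ou c R q v T' b) {mu : Λ →+ ℤ} (hmu : NN c R q v b mu) (hmT : mu (R T) = 0)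
    (hmT' : mu (R T') ≠ 0) {nu : Λ →+ ℤ}
    (hKR : KRg (q b) (q T) (R b) (R T) (v b) (v T) c nu) : nu = 0 := by
  apply h.spn
  obtain ⟨m1, hm1, hm1T⟩ := hoT
  obtain ⟨mT, hmTN, hmTb⟩ := hTb
  obtain ⟨mR, hmRN, hmRb⟩ := hT'b
  obtain ⟨d1, d2⟩ := h.dis b T m1 hm1 hm1T
  obtain ⟨d3, d4⟩ := h.dis b T' mu hmu hmT'
  have heta0 : eta ≠ 0 := by
    rintro rfl
    simp at he
  have heta1 : eta ≠ 1 := by
    rintro rfl
    simp at he
  have hinj : ∀ a : O, f a = 0 → a = 0 := fun a ha => hf (by rw [ha, map_zero])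
  have lift : ∀ {p : Λ →+ ℤ} {b : Λ} {v : O} {nu : Λ →+ ℤ}, KT p b v c nu →
      KT p b (f v) (fun x => f (c x)) nu := by
    intro p b v nu hK
    refine ⟨hK.1, fun x hx hn => ?_⟩
    have := congrArg f (hK.2 x hx hn)
    simpa only [map_add, map_mul, map_zero] using this
  have liftB : ∀ {p : Λ →+ ℤ}, Bi p c → Bi p (fun x => f (c x)) := by
    intro p hB x hx
    exact hB x (fun h0 => hx (by simp only [h0, map_zero]))
  have hvf : ∀ i, f (v i) ≠ 0 := fun i h0 => h.ne i (hinj _ h0)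
  intro x hx
  refine t2g (c := fun x => f (c x)) (e := eta * f (v b)) (e' := eta * f (v T))
    (liftB (h.bi b)) (liftB (h.bi T)) (liftB (h.bi T')) (h.one b) d1 d2 (h.one T)
    (h.one T') d3 d4 (hvf b) (hvf T') ?_ ?_ (mul_ne_zero heta0 (hvf b))
    (mul_ne_zero heta0 (hvf T)) (fun h0 => h.cR T' (hinj _ h0)) (lift hm1) hm1T (lift hmu) hmT
    hmT' (lift hmTN) hmTb (lift hmRN) hmRb (hKR.kd f he) x (fun h0 => hx (hinj _ h0))
  · intro h0
    apply heta1
    have : (eta - 1) * f (v b) = 0 := by linear_combination h0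
    exact sub_eq_zero.1 ((mul_eq_zero.1 this).resolve_right (hvf b))
  · intro h0
    apply heta1
    have : (eta - 1) * f (v T) = 0 := by linear_combination h0
    exact sub_eq_zero.1 ((mul_eq_zero.1 this).resolve_right (hvf T))

/-- (MUT) `mu ∈ N_b`, zero at a mutual partner `T`, is in `N_T`. -/
theorem Sys.mut_mem (h : Sys c R q v) {b T : ι} (hTb : Ou c R q v T b) {mu : Λ →+ ℤ}
    (hmu : NN c R q v b mu) (hmT : mu (R T) = 0) : NN c R q v T mu := h.inc hTb hmu hmT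

end

end Pool.Agent.B5.Tot
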