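import Mathlib

/-!
# Board b5, BpS: killing functionals in the total lattice (helper71)

`c : Λ → O` is the coefficient function of an element (`Λ = ℤ × L` for the total lattice), `p` a
functional (a port of `b`, `p b = 1`) with the values `0, 1` on the support of `c`.
`KT p b v c ν`: the functional `ν` kills the closing `x^b = v` (all class sums
`c λ + v c (λ + b)`, `p λ = 0`, `ν λ ≠ 0`, vanish) and `ν b = 0`.
Nothing else (no rays, no injectivity of the ports, no stability) is used.
-/

namespace Pool.Agent.B5.Tot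

variable {Λ : Type*} [AddCommGroup Λ] {O : Type*} [CommRing O] [IsDomain O]

/-- `p` takes the values `0` and `1` on the support of `c`. -/
def Bi (p : Λ →+ ℤ) (c : Λ → O) : Prop := ∀ x, c x ≠ 0 → p x = 0 ∨ p x = 1

/-- `ν` kills the closing `x^b = v`. -/
def KT (p : Λ →+ ℤ) (b : Λ) (v : O) (c : Λ → O) (nu : Λ →+ ℤ) : Prop :=
  nu b = 0 ∧ ∀ x, p x = 0 → nu x ≠ 0 → c x + v * c (x + b) = 0

/-- `ν` kills the double closing `x^b = e`, `x^T = e'`. -/
def KD (p q : Λ →+ ℤ) (b T : Λ) (e e' : O) (c : Λ → O) (nu : Λ →+ ℤ) : Prop :=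
  nu b = 0 ∧ nu T = 0 ∧ ∀ x, p x = 0 → q x = 0 → nu x ≠ 0 →
    c x + e * c (x + b) + e' * c (x + T) + e * e' * c (x + b + T) = 0

/-- `ν` kills the double closing at two conjugate loads of a real element: the real form. -/
def KR (p q : Λ →+ ℤ) (b T : Λ) (c : Λ → O) (nu : Λ →+ ℤ) : Prop :=
  nu b = 0 ∧ nu T = 0 ∧ ∀ x, p x = 0 → q x = 0 → nu x ≠ 0 →
    c (x + b + T) = c x ∧ c (x + b) + c (x + T) + c (x + b + T) = 0

/-- A functional killing a closing of `T` vanishes at every point of the support which is alone in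
its class. -/
theorem KT.alone {q : Λ →+ ℤ} {T : Λ} {v : O} {c : Λ → O} {mu : Λ →+ ℤ} (h : KT q T v c mu)
    (hq : Bi q c) (hT : q T = 1) (hv : v ≠ 0) {a : Λ} (ha : c a ≠ 0) (h1 : c (a + T) = 0)
    (h2 : c (a - T) = 0) : mu a = 0 := by
  by_contra hne
  rcases hq a ha with h0 | h0
  · have := h.2 a h0 hne
    rw [h1, mul_zero, add_zero] at this
    exact ha this
  · have hq' : q (a - T) = 0 := by rw [map_sub, h0, hT]; norm_num
    have hmu : mu (a - T) ≠ 0 := by rw [map_sub, h.1, sub_zero]; exact hne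
    have := h.2 (a - T) hq' hmu
    rw [h2, zero_add, sub_add_cancel] at this
    exact ha ((mul_eq_zero.1 this).resolve_left hv)

/-- (INC) `μ_b T ≠ 0` for one `μ_b` which kills `x^b = v`; a functional which kills `x^T = v'` and
vanishes at `b` kills `x^b = v`. -/
theorem inc {p q : Λ →+ ℤ} {b T : Λ} {v v' : O} {c : Λ → O} (hq : Bi q c)
    (hpT : p T = 0) (hqb : q b = 0) (hqT : q T = 1) (hv' : v' ≠ 0) {mb mu : Λ →+ ℤ}
    (hb : KT p b v c mb) (hbT : mb T ≠ 0) (hT : KT q T v' c mu) (hmb : mu b = 0) :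
    KT p b v c mu := by
  refine ⟨hmb, fun x hx hne => ?_⟩
  -- the two lines at `y`, `q y = 0`
  have key : ∀ y, p y = 0 → q y = 0 → mu y ≠ 0 →
      c y + v * c (y + b) = 0 ∧ c (y + T) + v * c (y + T + b) = 0 := by
    intro y hpy hqy hmy
    have t0 := hT.2 y hqy hmy
    have t1 := hT.2 (y + b) (by rw [map_add, hqy, hqb, add_zero])
      (by rw [map_add, hmb, add_zero]; exact hmy)
    have e1 : y + b + T = y + T + b := by abel
    rw [e1] at t1
    by_cases hmy2 : mb y = 0
    · have hne2 : mb (y + T) ≠ 0 := by rw [map_add, hmy2, zero_add]; exact hbT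
      have l1 := hb.2 (y + T) (by rw [map_add, hpy, hpT, add_zero]) hne2
      refine ⟨?_, l1⟩
      linear_combination t0 + v * t1 - v' * l1
    · have l0 := hb.2 y hpy hmy2
      refine ⟨l0, ?_⟩
      have : v' * (c (y + T) + v * c (y + T + b)) = 0 := by
        linear_combination t0 + v * t1 - l0
      exact (mul_eq_zero.1 this).resolve_left hv'
  by_cases h0 : c x = 0 ∧ c (x + b) = 0
  · rw [h0.1, h0.2, mul_zero, add_zero]
  · have hqx : q x = 0 ∨ q x = 1 := by
      by_cases h1 : c x = 0
      · have h2 : c (x + b) ≠ 0 := fun h => h0 ⟨h1, h⟩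
        have := hq _ h2
        rwa [map_add, hqb, add_zero] at this
      · exact hq _ h1
    rcases hqx with h1 | h1
    · exact (key x hx h1 hne).1
    · have := (key (x - T) (by rw [map_sub, hx, hpT, sub_zero]) (by rw [map_sub, h1, hqT]; norm_num)
        (by rw [map_sub, hT.1, sub_zero]; exact hne)).2
      rwa [sub_add_cancel] at this

/-- (X) `b`, `T` mutual at the loads `v`, `v'`: no functional kills a closing `x^b = v1`,
`v1 ≠ v`. -/
theorem xload {p q : Λ →+ ℤ} {b T : Λ} {v v' v1 : O} {c : Λ → O} (hp : Bi p c) (hq : Bi q c)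
    (hpb : p b = 1) (hpT : p T = 0) (hqT : q T = 1) (hv' : v' ≠ 0) (hv1 : v1 ≠ 0)
    (hne : v1 ≠ v) (hcT : c T ≠ 0) {mu mu' nu : Λ →+ ℤ}
    (hb : KT p b v c mu) (hbT : mu T ≠ 0) (hT : KT q T v' c mu') (hTb : mu' b ≠ 0)
    (hn : KT p b v1 c nu) : ∀ x, c x ≠ 0 → nu x = 0 := by
  -- a class killed at both loads is zero
  have both : ∀ y, p y = 0 → nu y ≠ 0 → mu y ≠ 0 → c y = 0 ∧ c (y + b) = 0 := by
    intro y hpy h1 h2
    have e1 := hn.2 y hpy h1
    have e2 := hb.2 y hpy h2
    have e3 : (v1 - v) * c (y + b) = 0 := by linear_combination e1 - e2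
    have e4 := (mul_eq_zero.1 e3).resolve_left (sub_ne_zero.2 hne)
    refine ⟨?_, e4⟩
    rw [e4, mul_zero, add_zero] at e1
    exact e1
  have hnT : nu T = 0 := by
    by_contra h
    exact hcT (both T hpT h hbT).1
  intro x hx
  by_contra hnx
  -- the base point
  obtain ⟨y, hpy, hny, hy0, hy1⟩ : ∃ y, p y = 0 ∧ nu y ≠ 0 ∧ c y ≠ 0 ∧ c (y + b) ≠ 0 := by
    rcases hp x hx with h0 | h0
    · refine ⟨x, h0, hnx, hx, fun h => ?_⟩
      have := hn.2 x h0 hnx
      rw [h, mul_zero, add_zero] at this
      exact hx this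
    · have hpy : p (x - b) = 0 := by rw [map_sub, h0, hpb]; norm_num
      have hny : nu (x - b) ≠ 0 := by rw [map_sub, hn.1, sub_zero]; exact hnx
      refine ⟨x - b, hpy, hny, fun h => ?_, by rwa [sub_add_cancel]⟩
      have := hn.2 (x - b) hpy hny
      rw [h, zero_add, sub_add_cancel] at this
      exact hx ((mul_eq_zero.1 this).resolve_left hv1)
  have hmy : mu y = 0 := by
    by_contra h
    exact hy0 (both y hpy hny h).1
  have hpl := both (y + T) (by rw [map_add, hpy, hpT, add_zero])
    (by rw [map_add, hnT, add_zero]; exact hny) (by rw [map_add, hmy, zero_add]; exact hbT)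
  have hmi := both (y - T) (by rw [map_sub, hpy, hpT, sub_zero])
    (by rw [map_sub, hnT, sub_zero]; exact hny)
    (by rw [map_sub, hmy, zero_sub]; exact neg_ne_zero.2 hbT)
  have m0 : mu' y = 0 := hT.alone hq hqT hv' hy0 hpl.1 hmi.1
  have m1 : mu' (y + b) = 0 := by
    refine hT.alone hq hqT hv' hy1 ?_ ?_
    · rw [show y + b + T = y + T + b by abel]; exact hpl.2
    · rw [show y + b - T = y - T + b by abel]; exact hmi.2
  rw [map_add, m0, zero_add] at m1
  exact hTb m1

/-- (CLM) real element: `T ∉ U_b`, `b ∈ U_T`, `T` has a mutual partner `T'`: the double closing at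
`(e^(iπ/3), e^(iπ/3))` has no drop. -/
theorem clm {p q q' : Λ →+ ℤ} {b T T' : Λ} {c : Λ → O} (hp : Bi p c) (hq : Bi q c) (hq' : Bi q' c)
    (hpb : p b = 1) (hpT : p T = 0) (hqb : q b = 0) (hqT : q T = 1) (hqT' : q' T' = 1)
    (hcT' : c T' ≠ 0) {mb mT mT' nu : Λ →+ ℤ}
    (hb : KT p b 1 c mb) (hbT : mb T ≠ 0) (hT : KT q T 1 c mT) (hTb : mT b = 0)
    (hTT' : mT T' ≠ 0) (hT' : KT q' T' 1 c mT') (hT'T : mT' T ≠ 0)
    (hn : KR p q b T c nu) : ∀ x, c x ≠ 0 → nu x = 0 := by
  -- the shape of a killed class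
  have shape : ∀ y, p y = 0 → q y = 0 → nu y ≠ 0 →
      c (y + b + T) = c y ∧ c (y + b) + c (y + T) = - c y ∧
        (c (y + b) = - c y ∨ c (y + b) = 0) := by
    intro y hpy hqy hny
    obtain ⟨h1, h2⟩ := hn.2.2 y hpy hqy hny
    refine ⟨h1, by rw [h1] at h2; linear_combination h2, ?_⟩
    by_cases hm : mb y = 0
    · right
      have := hb.2 (y + T) (by rw [map_add, hpy, hpT, add_zero])
        (by rw [map_add, hm, zero_add]; exact hbT)
      rw [one_mul, show y + T + b = y + b + T by abel] at this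
      linear_combination h2 - this
    · left
      have := hb.2 y hpy hm
      linear_combination this
  -- a killed class with `mT ≠ 0` is zero
  have zero : ∀ y, p y = 0 → q y = 0 → nu y ≠ 0 → mT y ≠ 0 →
      c y = 0 ∧ c (y + b) = 0 ∧ c (y + T) = 0 ∧ c (y + b + T) = 0 := by
    intro y hpy hqy hny hm
    obtain ⟨h1, h2, _⟩ := shape y hpy hqy hny
    have l0 := hT.2 y hqy hm
    have l1 := hT.2 (y + b) (by rw [map_add, hqy, hqb, add_zero])
      (by rw [map_add, hTb, add_zero]; exact hm)
    rw [one_mul] at l0 l1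
    have c0 : c y = 0 := by linear_combination l0 + l1 - h1 - h2
    refine ⟨c0, ?_, ?_, ?_⟩
    · linear_combination l1 - h1 - c0
    · linear_combination l0 - c0
    · linear_combination h1 + c0
  -- a point of the support with `nu ≠ 0` has `mT = 0`
  have pt : ∀ x, nu x ≠ 0 → mT x ≠ 0 → c x = 0 := by
    intro x hnx hmx
    by_contra hx
    have hz := zero (x - p x • b - q x • T)
      (by rw [map_sub, map_sub, map_zsmul, map_zsmul, hpb, hpT]; simp)
      (by rw [map_sub, map_sub, map_zsmul, map_zsmul, hqb, hqT]; simp)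
      (by rw [map_sub, map_sub, map_zsmul, map_zsmul, hn.1, hn.2.1]; simpa using hnx)
      (by rw [map_sub, map_sub, map_zsmul, map_zsmul, hTb, hT.1]; simpa using hmx)
    rcases hp x hx with h0 | h0 <;> rcases hq x hx with h1 | h1 <;> rw [h0, h1] at hz
    · apply hx; simpa using hz.1
    · apply hx; simpa using hz.2.2.1
    · apply hx; simpa using hz.2.1
    · apply hx
      have := hz.2.2.2
      rwa [one_smul, one_smul, show x - b - T + b + T = x by abel] at this
  have hnT' : nu T' = 0 := by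
    by_contra h
    exact hcT' (pt T' h hTT')
  intro x hx
  by_contra hnx
  -- base point
  obtain ⟨y, hpy, hqy, hny, hsome⟩ : ∃ y, p y = 0 ∧ q y = 0 ∧ nu y ≠ 0 ∧
      (c y ≠ 0 ∨ c (y + b) ≠ 0 ∨ c (y + T) ≠ 0 ∨ c (y + b + T) ≠ 0) := by
    refine ⟨x - p x • b - q x • T,
      by rw [map_sub, map_sub, map_zsmul, map_zsmul, hpb, hpT]; simp,
      by rw [map_sub, map_sub, map_zsmul, map_zsmul, hqb, hqT]; simp,
      by rw [map_sub, map_sub, map_zsmul, map_zsmul, hn.1, hn.2.1]; simpa using hnx, ?_⟩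
    rcases hp x hx with h0 | h0 <;> rcases hq x hx with h1 | h1 <;> rw [h0, h1]
    · left; simpa using hx
    · right; right; left; simpa using hx
    · right; left; simpa using hx
    · right; right; right
      rwa [one_smul, one_smul, show x - b - T + b + T = x by abel]
  obtain ⟨s1, s2, s3⟩ := shape y hpy hqy hny
  have hcy : c y ≠ 0 := by
    intro h0
    rw [h0, neg_zero] at s2 s3
    have h1 : c (y + b) = 0 := by rcases s3 with h | h <;> exact h
    rw [h1, zero_add] at s2
    rw [h0] at s1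
    rcases hsome with h | h | h | h
    exacts [h h0, h h1, h s2, h s1]
  -- every point `a` of the support with `nu a ≠ 0` is killed by `mT'`
  have al : ∀ a, c a ≠ 0 → nu a ≠ 0 → mT' a = 0 := by
    intro a ha hna
    have hma : mT a = 0 := by
      by_contra h
      exact ha (pt a hna h)
    refine hT'.alone hq' hqT' one_ne_zero ha ?_ ?_
    · refine pt _ (by rw [map_add, hnT', add_zero]; exact hna) ?_
      rw [map_add, hma, zero_add]; exact hTT'
    · refine pt _ (by rw [map_sub, hnT', sub_zero]; exact hna) ?_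
      rw [map_sub, hma, zero_sub]; exact neg_ne_zero.2 hTT'
  have n1 : nu (y + T) ≠ 0 := by rw [map_add, hn.2.1, add_zero]; exact hny
  have n2 : nu (y + b) ≠ 0 := by rw [map_add, hn.1, add_zero]; exact hny
  have n3 : nu (y + b + T) ≠ 0 := by rw [map_add, hn.2.1, add_zero]; exact n2
  rcases s3 with h | h
  · -- `c (y + b) = - c y`
    have a1 := al (y + b) (by rw [h]; exact neg_ne_zero.2 hcy) n2
    have a2 := al (y + b + T) (by rw [s1]; exact hcy) n3
    rw [map_add, a1, zero_add] at a2
    exact hT'T a2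
  · have hT0 : c (y + T) ≠ 0 := by
      rw [h, zero_add] at s2
      rw [s2]; exact neg_ne_zero.2 hcy
    have a1 := al y hcy hny
    have a2 := al (y + T) hT0 n1
    rw [map_add, a1, zero_add] at a2
    exact hT'T a2

/-- (T2G) `b`, `T` mutual, `b`, `R` mutual, `N_b` separates `T` and `R`: the double closing of
`(b, T)` at other loads has no drop. -/
theorem t2g {p q r : Λ →+ ℤ} {b T R : Λ} {v v' v'' e e' : O} {c : Λ → O} (hp : Bi p c)
    (hq : Bi q c) (hr : Bi r c)
    (hpb : p b = 1) (hpT : p T = 0) (hqb : q b = 0) (hqT : q T = 1) (hrR : r R = 1)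
    (hpR : p R = 0) (hrb : r b = 0)
    (hv : v ≠ 0) (hv'' : v'' ≠ 0) (he : e ≠ v) (he' : e' ≠ v') (he0 : e ≠ 0)
    (he0' : e' ≠ 0) (hcR : c R ≠ 0) {m1 m0 mT mR nu : Λ →+ ℤ}
    (h1 : KT p b v c m1) (h1T : m1 T ≠ 0) (h0 : KT p b v c m0) (h0T : m0 T = 0)
    (h0R : m0 R ≠ 0) (hT : KT q T v' c mT) (hTb : mT b ≠ 0) (hR : KT r R v'' c mR)
    (hRb : mR b ≠ 0) (hn : KD p q b T e e' c nu) : ∀ x, c x ≠ 0 → nu x = 0 := by
  -- `ν ≠ 0`, `m0 ≠ 0`: the class is zero
  have zero : ∀ y, p y = 0 → q y = 0 → nu y ≠ 0 → m0 y ≠ 0 →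
      c y = 0 ∧ c (y + b) = 0 ∧ c (y + T) = 0 ∧ c (y + b + T) = 0 := by
    intro y hpy hqy hny hm
    have b0 := h0.2 y hpy hm
    have b1 := h0.2 (y + T) (by rw [map_add, hpy, hpT, add_zero])
      (by rw [map_add, h0T, add_zero]; exact hm)
    rw [show y + T + b = y + b + T by abel] at b1
    have k := hn.2.2 y hpy hqy hny
    have tl : c (y + b) + v' * c (y + b + T) = 0 := by
      by_cases hmt : mT y = 0
      · exact hT.2 (y + b) (by rw [map_add, hqy, hqb, add_zero])
          (by rw [map_add, hmt, zero_add]; exact hTb)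
      · have := hT.2 y hqy hmt
        have h2 : v * (c (y + b) + v' * c (y + b + T)) = 0 := by
          linear_combination b0 + v' * b1 - this
        exact (mul_eq_zero.1 h2).resolve_left hv
    have c11 : (e - v) * (e' - v') * c (y + b + T) = 0 := by
      linear_combination k - b0 - e' * b1 - (e - v) * tl
    have z11 : c (y + b + T) = 0 :=
      (mul_eq_zero.1 c11).resolve_left (mul_ne_zero (sub_ne_zero.2 he) (sub_ne_zero.2 he'))
    rw [z11, mul_zero, add_zero] at tl b1
    rw [tl, mul_zero, add_zero] at b0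
    exact ⟨b0, tl, b1, z11⟩
  have pt : ∀ x, nu x ≠ 0 → m0 x ≠ 0 → c x = 0 := by
    intro x hnx hmx
    by_contra hx
    have hz := zero (x - p x • b - q x • T)
      (by rw [map_sub, map_sub, map_zsmul, map_zsmul, hpb, hpT]; simp)
      (by rw [map_sub, map_sub, map_zsmul, map_zsmul, hqb, hqT]; simp)
      (by rw [map_sub, map_sub, map_zsmul, map_zsmul, hn.1, hn.2.1]; simpa using hnx)
      (by rw [map_sub, map_sub, map_zsmul, map_zsmul, h0.1, h0T]; simpa using hmx)
    rcases hp x hx with g0 | g0 <;> rcases hq x hx with g1 | g1 <;> rw [g0, g1] at hz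
    · apply hx; simpa using hz.1
    · apply hx; simpa using hz.2.2.1
    · apply hx; simpa using hz.2.1
    · apply hx
      have := hz.2.2.2
      rwa [one_smul, one_smul, show x - b - T + b + T = x by abel] at this
  have hnR : nu R = 0 := by
    by_contra h
    exact hcR (pt R h h0R)
  -- the functional `m2`: `0` at `b` and `R`, nonzero at `T`, kills both closings
  let m2 : Λ →+ ℤ := m0 R • m1 - m1 R • m0
  have m2v : ∀ x, m2 x = m0 R * m1 x - m1 R * m0 x := fun x => by
    simp [m2]
  have m2T : m2 T ≠ 0 := by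
    rw [m2v, h0T, mul_zero, sub_zero]
    exact mul_ne_zero h0R h1T
  have m2R : m2 R = 0 := by rw [m2v]; ring
  have m2b : KT p b v c m2 := by
    refine ⟨by rw [m2v, h1.1, h0.1]; ring, fun x hx hne => ?_⟩
    by_cases hm : m1 x = 0
    · have : m0 x ≠ 0 := by
        intro h
        rw [m2v, hm, h] at hne
        simp at hne
      exact h0.2 x hx this
    · exact h1.2 x hx hm
  have m2R' : KT r R v'' c m2 := inc (p := r) (q := p) (T := b) (b := R) hp hrb hpR hpb hv hR hRb
    m2b m2R
  intro x hx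
  by_contra hnx
  have al : ∀ a, c a ≠ 0 → nu a ≠ 0 → mR a = 0 ∧ m2 a = 0 := by
    intro a ha hna
    have hma : m0 a = 0 := by
      by_contra h
      exact ha (pt a hna h)
    have g1 : c (a + R) = 0 := pt _ (by rw [map_add, hnR, add_zero]; exact hna)
      (by rw [map_add, hma, zero_add]; exact h0R)
    have g2 : c (a - R) = 0 := pt _ (by rw [map_sub, hnR, sub_zero]; exact hna)
      (by rw [map_sub, hma, zero_sub]; exact neg_ne_zero.2 h0R)
    exact ⟨hR.alone hr hrR hv'' ha g1 g2, m2R'.alone hr hrR hv'' ha g1 g2⟩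
  -- base point
  obtain ⟨y, hpy, hqy, hny, hsome⟩ : ∃ y, p y = 0 ∧ q y = 0 ∧ nu y ≠ 0 ∧
      (c y ≠ 0 ∨ c (y + b) ≠ 0 ∨ c (y + T) ≠ 0 ∨ c (y + b + T) ≠ 0) := by
    refine ⟨x - p x • b - q x • T,
      by rw [map_sub, map_sub, map_zsmul, map_zsmul, hpb, hpT]; simp,
      by rw [map_sub, map_sub, map_zsmul, map_zsmul, hqb, hqT]; simp,
      by rw [map_sub, map_sub, map_zsmul, map_zsmul, hn.1, hn.2.1]; simpa using hnx, ?_⟩
    rcases hp x hx with g0 | g0 <;> rcases hq x hx with g1 | g1 <;> rw [g0, g1]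
    · left; simpa using hx
    · right; right; left; simpa using hx
    · right; left; simpa using hx
    · right; right; right
      rwa [one_smul, one_smul, show x - b - T + b + T = x by abel]
  have n1 : nu (y + T) ≠ 0 := by rw [map_add, hn.2.1, add_zero]; exact hny
  have n2 : nu (y + b) ≠ 0 := by rw [map_add, hn.1, add_zero]; exact hny
  have n3 : nu (y + b + T) ≠ 0 := by rw [map_add, hn.2.1, add_zero]; exact n2
  have k := hn.2.2 y hpy hqy hny
  -- two different points of the support in the class are impossible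
  have f00 := al y
  have f10 := al (y + b)
  have f01 := al (y + T)
  have f11 := al (y + b + T)
  simp only [map_add] at f00 f10 f01 f11
  have hm2b : m2 b = 0 := m2b.1
  have z11 : c (y + b + T) ≠ 0 → c y = 0 ∧ c (y + b) = 0 ∧ c (y + T) = 0 := by
    intro h
    have g := f11 h (by simpa [map_add] using n3)
    rw [hm2b] at g
    refine ⟨?_, ?_, ?_⟩
    · by_contra hc
      have g' := f00 hc hny
      have : m2 T = 0 := by linarith [g.2, g'.2]
      exact m2T this
    · by_contra hc
      have g' := f10 hc (by simpa [map_add] using n2)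
      rw [hm2b] at g'
      have : m2 T = 0 := by linarith [g.2, g'.2]
      exact m2T this
    · by_contra hc
      have g' := f01 hc (by simpa [map_add] using n1)
      have : mR b = 0 := by linarith [g.1, g'.1]
      exact hRb this
  have z01 : c (y + T) ≠ 0 → c y = 0 ∧ c (y + b) = 0 := by
    intro h
    have g := f01 h (by simpa [map_add] using n1)
    refine ⟨?_, ?_⟩
    · by_contra hc
      have g' := f00 hc hny
      have : m2 T = 0 := by linarith [g.2, g'.2]
      exact m2T this
    · by_contra hc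
      have g' := f10 hc (by simpa [map_add] using n2)
      rw [hm2b] at g'
      have : m2 T = 0 := by linarith [g.2, g'.2]
      exact m2T this
  have z10 : c (y + b) ≠ 0 → c y = 0 := by
    intro h
    have g := f10 h (by simpa [map_add] using n2)
    by_contra hc
    have g' := f00 hc hny
    have : mR b = 0 := by linarith [g.1, g'.1]
    exact hRb this
  by_cases c11 : c (y + b + T) = 0
  · by_cases c01 : c (y + T) = 0
    · by_cases c10 : c (y + b) = 0
      · rw [c11, c01, c10] at k
        have c00 : c y = 0 := by simpa using k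
        rcases hsome with h | h | h | h
        exacts [h c00, h c10, h c01, h c11]
      · rw [c11, c01, z10 c10] at k
        have : e * c (y + b) = 0 := by simpa using k
        exact c10 ((mul_eq_zero.1 this).resolve_left he0)
    · obtain ⟨g1, g2⟩ := z01 c01
      rw [c11, g1, g2] at k
      have : e' * c (y + T) = 0 := by simpa using k
      exact c01 ((mul_eq_zero.1 this).resolve_left he0')
  · obtain ⟨g1, g2, g3⟩ := z11 c11
    rw [g1, g2, g3] at k
    have : e * e' * c (y + b + T) = 0 := by simpa using k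
    exact c11 ((mul_eq_zero.1 this).resolve_left (mul_ne_zero he0 he0'))

end Pool.Agent.B5.Tot
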