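import Pool.Agent.Lib.MP_b5021c_nt.BP.H71.Tst
import Pool.Agent.Lib.MP_b5021c_nt.BP.H57.T2n

/-!
# Board b5, BpS: extremal closings without small factors are z-free up to a content (helper71)

`zf_all`: a closing over `Eis` with injective outside ports, without small factor, content of
measure one, apex of class `V(|al|)`, rank at least `Bev (norm al)`: the product of the factors is
z-free.  `prop_poly`: the coefficients are proportional.
-/

namespace Pool.Agent.B5.Zf

set_option linter.unusedSectionVars false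

open scoped LaurentPolynomial
open Polynomial
open Pool.Agent.B5 Pool.Agent.B5.Tl
open Pool.Agent.MP_b5021c_nt (Eis)
open Pool.Agent.B5.H93 (nE_cast three_le_nE classV_const)

section

variable {O : Type} [CommRing O] {L : Type} [AddCommGroup L]

/-- multiplication by `z^m` and z-freeness. -/
theorem zfree_T {F : AO O L} {m : ℤ} (h : ZFree (cst (LaurentPolynomial.T m) * F)) : ZFree F := by
  obtain ⟨q, l, n, hq, hl⟩ := h
  refine ⟨q, l, n - m, hq, fun a k hk => ?_⟩
  have h1 : ((cst (LaurentPolynomial.T m) * F).coeff a).coeff (k + m) ≠ 0 := by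
    rw [H78.cstm, LaurentPolynomial.T, AddMonoidAlgebra.coeff_single_mul_apply, one_mul]
    rw [show -m + (k + m) = k by ring]
    exact hk
  have h2 := hl a (k + m) h1
  linear_combination h2

theorem zfree_T' {F : AO O L} (m : ℤ) (h : ZFree F) : ZFree (cst (LaurentPolynomial.T m) * F) := by
  apply zfree_T (m := -m)
  have h1 : cst (LaurentPolynomial.T (-m)) * (cst (LaurentPolynomial.T m) * F) = F := by
    rw [← mul_assoc, H78.cst_cst, ← LaurentPolynomial.T_add, neg_add_cancel,
      LaurentPolynomial.T_zero, H78.cst_one, one_mul]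
  rw [h1]
  exact h

end

section

variable {O : Type} [CommRing O] [IsDomain O] [IsPrincipalIdealRing O] [Coef O] {L : Type}
  [AddCommGroup L] [Module.Free ℤ L] [Module.Finite ℤ L]

/-- total rank equal to the rank: z-free. -/
theorem zfree_of_trk {F : AO O L} (h : trk F ≤ rk (supp F)) : ZFree F := by
  -- a functional which kills the total support and not `e_z`
  have h1 : rk (supp F) + 1 ≤ rk (insert ((1 : ℤ), (0 : L)) (ts F)) := by
    have h2 : AddMonoidHom.inr ℤ L '' supp F ⊆
        (Submodule.span ℤ (insert ((1 : ℤ), (0 : L)) (ts F)) : Submodule ℤ (ℤ × L)) := by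
      rintro _ ⟨a, ha, rfl⟩
      obtain ⟨k, hk⟩ := exists_ts ha
      have h3 : (AddMonoidHom.inr ℤ L a : ℤ × L) = (k, a) - k • ((1 : ℤ), (0 : L)) := by
        simp
      rw [h3]
      exact Submodule.sub_mem _ (Submodule.subset_span (Or.inr hk))
        (Submodule.smul_mem _ _ (Submodule.subset_span (Or.inl rfl)))
    have h3 : rk (AddMonoidHom.inr ℤ L '' supp F) = rk (supp F) :=
      (H41.rks L (ℤ × L)).2.2.2.1 (AddMonoidHom.inr ℤ L) (supp F)
        (fun a b hab => by simpa using hab)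
    rw [← h3]
    refine rk_lt_span (AddMonoidHom.fst ℤ L) ?_ h2 (Submodule.subset_span (Or.inl rfl))
      (x := ((1 : ℤ), (0 : L))) one_ne_zero
    rintro _ ⟨a, _, rfl⟩
    rfl
  obtain ⟨nu, hnu, hne⟩ : ∃ nu : ℤ × L →+ ℤ, (∀ x ∈ ts F, nu x = 0) ∧ nu ((1 : ℤ), (0 : L)) ≠ 0 := by
    by_contra hcon
    push Not at hcon
    have h4 : rk (insert ((1 : ℤ), (0 : L)) (ts F)) ≤ rk (ts F) := by
      refine rk_le_of_ann fun nu hnu x hx => ?_
      rcases hx with rfl | hx
      · exact hcon nu hnu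
      · exact hnu x hx
    change trk F ≤ _ at h
    unfold trk at h
    omega
  have hv : ∀ (k : ℤ) (a : L), nu (k, a) = k * nu (1, 0) + nu (0, a) := by
    intro k a
    have : ((k, a) : ℤ × L) = k • ((1 : ℤ), (0 : L)) + (0, a) := by simp
    rw [this, map_add, map_zsmul, smul_eq_mul]
  rcases lt_or_gt_of_ne hne with h5 | h5
  · refine ⟨(-nu (1, 0)).toNat, nu.comp (AddMonoidHom.inr ℤ L), 0, by omega, fun a k hk => ?_⟩
    have h6 := hnu (k, a) hk
    rw [hv] at h6
    rw [Int.toNat_of_nonneg (by omega)]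
    change _ = nu (0, a) + _
    linear_combination -h6
  · refine ⟨(nu (1, 0)).toNat, -nu.comp (AddMonoidHom.inr ℤ L), 0, by omega, fun a k hk => ?_⟩
    have h6 := hnu (k, a) hk
    rw [hv] at h6
    rw [Int.toNat_of_nonneg (by omega)]
    change _ = -nu (0, a) + _
    linear_combination h6

/-- total rank of a product. -/
theorem trk_prod_le {n : ℕ} (s : Finset (Fin n)) (G : Fin n → AO O L) :
    trk (∏ i ∈ s, G i) ≤ ∑ i ∈ s, trk (G i) := by
  classical
  induction s using Finset.induction_on with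
  | empty =>
    rw [Finset.prod_empty, Finset.sum_empty]
    have h1 := trk_cst_const (L := L) (1 : O)
    rw [map_one, H78.cst_one] at h1
    exact h1.le
  | insert i s hi ih =>
    rw [Finset.prod_insert hi, Finset.sum_insert hi]
    exact (trk_mul_le _ _).trans (Nat.add_le_add_left ih _)

/-- an element with a class `V` apex can be moved so that `(0,0)` is in its total support. -/
theorem exists_shift {F : AO O L} {N : ℝ} (h : ClassV N (F.coeff 0)) :
    ∃ m : ℤ, ((0 : ℤ), (0 : L)) ∈ ts (cst (LaurentPolynomial.T m) * F) := by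
  obtain ⟨hN, n, q, hq, hqN, -⟩ := h
  refine ⟨-n, ?_⟩
  rw [mem_ts]
  change ((cst (LaurentPolynomial.T (-n)) * F).coeff 0).coeff 0 ≠ 0
  rw [H78.cstm, hq, ← mul_assoc, ← LaurentPolynomial.T_add, neg_add_cancel,
    LaurentPolynomial.T_zero, one_mul, LaurentPolynomial.coeff_toLaurent]
  change (Finsupp.mapDomain (Nat.castEmbedding (R := ℤ)) q.toFinsupp.coeff) ((0 : ℕ) : ℤ) ≠ 0
  have h1 : (Finsupp.mapDomain (Nat.castEmbedding (R := ℤ)) q.toFinsupp.coeff) ((0 : ℕ) : ℤ) =
      q.coeff 0 := Finsupp.mapDomain_apply (Nat.castEmbedding (R := ℤ)).injective _ 0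
  rw [h1]
  intro h0
  rw [h0, map_zero, norm_zero] at hqN
  linarith

/-- the coefficients of a z-free element are monomials. -/
theorem mono_of_zfree {F : AO O L} (h : ZFree F) (a : L) :
    ∃ (k : ℤ) (x : O), F.coeff a = LaurentPolynomial.T k * LaurentPolynomial.C x := by
  obtain ⟨q, l, n, hq, hl⟩ := h
  by_cases h0 : F.coeff a = 0
  · exact ⟨0, 0, by rw [h0, map_zero, mul_zero]⟩
  · have hex : ∃ k, (F.coeff a).coeff k ≠ 0 := by
      by_contra hcon
      push Not at hcon
      apply h0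
      apply AddMonoidAlgebra.ext
      apply Finsupp.ext
      intro k
      rw [hcon k]
      rfl
    obtain ⟨k, hk⟩ := hex
    refine ⟨k, (F.coeff a).coeff k, ?_⟩
    apply AddMonoidAlgebra.ext
    apply Finsupp.ext
    intro j
    rw [mul_comm, ← LaurentPolynomial.single_eq_C_mul_T, AddMonoidAlgebra.coeff_single,
      Finsupp.single_apply]
    by_cases hj : k = j
    · rw [if_pos hj, hj]
    · rw [if_neg hj]
      by_contra hne
      apply hj
      have h1 := hl a k hk
      have h2 := hl a j hne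
      have h3 : (q : ℤ) * k = q * j := by rw [h1, h2]
      exact mul_left_cancel₀ (by exact_mod_cast hq.ne') h3

/-- The coefficients of `cst c * F`, `F` z-free, are proportional. -/
theorem prop_poly (hU : UnitRS) {c : RO O} {F V : AO O L} (hz : ZFree F) (hV : V = cst c * F)
    {a b : L} {w w' : (RO O)ˣ} {p q : O[X]} (hp : (w : RO O) * V.coeff a = toLaurent p)
    (hq : (w' : RO O) * V.coeff b = toLaurent q) (hp0 : p.coeff 0 ≠ 0) (hq0 : q.coeff 0 ≠ 0) :
    C (p.coeff 0) * q = C (q.coeff 0) * p := by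
  obtain ⟨k, x, hx⟩ := mono_of_zfree hz a
  obtain ⟨k', x', hx'⟩ := mono_of_zfree hz b
  obtain ⟨m, s, hs, hw⟩ := (hU O _).mp w.isUnit
  obtain ⟨m', s', hs', hw'⟩ := (hU O _).mp w'.isUnit
  rw [hV, H78.cstm, hx, hw] at hp
  rw [hV, H78.cstm, hx', hw'] at hq
  have hx0 : x ≠ 0 := by
    rintro rfl
    rw [map_zero, mul_zero, mul_zero, mul_zero] at hp
    have := toLaurent_injective ((map_zero _).trans hp)
    rw [← this, coeff_zero] at hp0
    exact hp0 rfl
  have hx0' : x' ≠ 0 := by
    rintro rfl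
    rw [map_zero, mul_zero, mul_zero, mul_zero] at hq
    have := toLaurent_injective ((map_zero _).trans hq)
    rw [← this, coeff_zero] at hq0
    exact hq0 rfl
  have h1 : (LaurentPolynomial.T (m' + k') : RO O) * toLaurent (C (s' * x') * p) =
      LaurentPolynomial.T (m + k) * toLaurent (C (s * x) * q) := by
    have e1 : toLaurent (C (s' * x') * p) = LaurentPolynomial.C (s' * x') * toLaurent p := by
      rw [map_mul, toLaurent_C]
    have e2 : toLaurent (C (s * x) * q) = LaurentPolynomial.C (s * x) * toLaurent q := by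
      rw [map_mul, toLaurent_C]
    rw [e1, e2, ← hp, ← hq, LaurentPolynomial.T_add, LaurentPolynomial.T_add,
      map_mul LaurentPolynomial.C, map_mul LaurentPolynomial.C]
    ring
  obtain ⟨-, h2⟩ := H09.nf_unique _ _ _ _ (by
      rw [coeff_C_mul]; exact mul_ne_zero (mul_ne_zero hs'.ne_zero hx0') hp0) (by
      rw [coeff_C_mul]; exact mul_ne_zero (mul_ne_zero hs.ne_zero hx0) hq0) h1
  have h3 := congrArg (fun f : O[X] => f.coeff 0) h2
  simp only [coeff_C_mul] at h3
  have h4 : C (s * x) * (C (p.coeff 0) * q) = C (s * x) * (C (q.coeff 0) * p) := by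
    calc C (s * x) * (C (p.coeff 0) * q) = C (p.coeff 0) * (C (s * x) * q) := by ring
      _ = C (p.coeff 0) * (C (s' * x') * p) := by rw [h2]
      _ = C (s' * x' * p.coeff 0) * p := by rw [C_mul (a := s' * x')]; ring
      _ = C (s * x * q.coeff 0) * p := by rw [h3]
      _ = _ := by rw [C_mul (a := s * x)]; ring
  exact mul_left_cancel₀ (C_ne_zero.2 (mul_ne_zero hs.ne_zero hx0)) h4

end

/-! ## Over `Eis` -/

section

variable {P L : Type} [Fintype P] [DecidableEq P] [AddCommGroup L] [Module.Free ℤ L]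
  [Module.Finite ℤ L] {phi : L →+ (P → ℤ)}

/-- monotone bound. -/
theorem bdE (hEv : EvS) (hEvm : EvmS) (ga : Eis) (N' : ℝ) (h : N' ≤ ‖(Coef.emb ga : ℂ)‖) :
    BdV Eis N' (Bev (nE ga)) := by
  intro P L _ _ _ _ _ phi D hD hV
  obtain ⟨ga', hga'⟩ := classV_const hV
  rw [← hga'] at hV h
  have h3 := hEv ga' P L phi D hD hV
  have h4 : nE ga' ≤ nE ga := by
    have h5 : ((nE ga' : ℕ) : ℝ) ≤ ((nE ga : ℕ) : ℝ) := by
      rw [nE_cast, nE_cast]
      exact pow_le_pow_left₀ (norm_nonneg _) h 2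
    exact_mod_cast h5
  exact h3.trans (by exact_mod_cast hEvm.1 h4)

theorem one_le_Bev {n : ℕ} (h : 1 ≤ n) : 1 ≤ Bev n := by
  unfold Bev
  split_ifs
  · exact le_rfl
  · omega
  · rw [Nat.le_sqrt]
    omega

/-- LEMMA ZF. -/
theorem zf_all (hG1 : G1pS) (hFw : H71.FclwS) (hL : L2S) (hR : ResWDS) (hRS : ResStS) (hEv : EvS)
    (hEvm : EvmS) (hE1 : E1S) (hMV : MVS) (hMm : MmulS) {D : AO Eis L} {S : L} {i0 : P}
    {eta : (RO Eis)ˣ} {h : co phi i0 S = 1} {c : RO Eis} {n : ℕ}
    {G : Fin n → AO Eis (Ker (co phi i0))} (hI : ImS phi S) (fd : FD phi D S i0 eta h c n G)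
    (hs : snp phi S i0 G = ∅) (hMc : M c = 1) {al : Eis}
    (hV : ClassV ‖(Coef.emb al : ℂ)‖ (D.coeff 0 + (eta : RO Eis) * D.coeff S))
    (hr : Bev (nE al) ≤ rk (supp (cl (co phi i0) S h eta D))) : ZFree (∏ i, G i) := by
  classical
  have hcls := hV
  rw [fd.v00] at hcls
  obtain ⟨Nc, Np, h1, h2, hNN⟩ := (hE1 Eis).1 _ _ _ hcls
  obtain ⟨h3, h4⟩ := Clo.classV_prod hE1 hMV hMm (fun i => (G i).coeff 0) Finset.univ Np h2
  have hex : ∀ i, ∃ ga : Eis, ‖(Coef.emb ga : ℂ)‖ = M ((G i).coeff 0) :=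
    fun i => classV_const (h3 i (Finset.mem_univ i))
  choose ga hga using hex
  have hNc1 : Nc = 1 := by rw [← ((hMV Eis).1 _ _ h1).2, hMc]
  have hbig := BP57.bigO hI fd hs
  have h3le : ∀ i, 3 ≤ nE (ga i) := by
    intro i
    apply three_le_nE
    rw [hga i]
    exact hbig i
  have hcn : ∏ i, nE (ga i) = nE al := by
    have h5 : ((∏ i, nE (ga i) : ℕ) : ℝ) = ((nE al : ℕ) : ℝ) := by
      have h6 : ((∏ i, nE (ga i) : ℕ) : ℝ) = (∏ i, M ((G i).coeff 0)) ^ 2 := by
        rw [Nat.cast_prod, ← Finset.prod_pow]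
        refine Finset.prod_congr rfl fun i _ => ?_
        rw [nE_cast, hga i]
      rw [h6, nE_cast al, hNN, h4, hNc1, one_mul]
    exact_mod_cast h5
  have hbigU : big G = Finset.univ := by
    unfold big
    exact Finset.filter_true_of_mem fun i _ => hbig i
  have hrkle := hG1 Eis P L phi D S i0 eta h c n G fd
    (fun i b _ hp _ => absurd hp (BP57.nopureO hI fd i))
  rw [hs, hbigU, Finset.card_empty, add_zero] at hrkle
  -- each factor
  have hfac : ∀ i, (ZFree (G i) ∧ rk (supp (G i)) ≤ Bev (nE (ga i))) ∨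
      rk (supp (G i)) + 1 ≤ Bev (nE (ga i)) := by
    intro i
    rcases Tst.fac_bound hFw hL hR hRS Eis P L phi D S i0 eta h c n G fd i
      ‖(Coef.emb (ga i) : ℂ)‖ (Bev (nE (ga i))) (by rw [hga i]; exact h3 i (Finset.mem_univ i))
      (by exact_mod_cast one_le_Bev (by have := h3le i; omega))
      (fun N' hN' => bdE hEv hEvm (ga i) N' hN') with ⟨h5, h6⟩ | h6
    · exact Or.inl ⟨h5, by exact_mod_cast h6⟩
    · exact Or.inr (by exact_mod_cast h6)
  have hsum := hEvm.2.2.2 (Fin n) Finset.univ (fun i => nE (ga i)) (fun i _ => h3le i)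
  rw [hcn] at hsum
  have hBb : Bbg (nE al) ≤ Bev (nE al) := by
    unfold Bbg
    split_ifs
    · exact Nat.zero_le _
    · exact le_rfl
  have hrki : ∀ i, rk (supp (G i)) ≤ Bev (nE (ga i)) := by
    intro i
    rcases hfac i with h5 | h5
    · exact h5.2
    · omega
  have hle2 := Finset.sum_le_sum fun i (_ : i ∈ Finset.univ) => hrki i
  have heq : ∑ i, rk (supp (G i)) = ∑ i, Bev (nE (ga i)) := by
    apply le_antisymm hle2
    omega
  have hall : ∀ i, ZFree (G i) := by
    intro i
    have h5 := (Finset.sum_eq_sum_iff_of_le (fun i _ => hrki i)).1 heq i (Finset.mem_univ i)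
    rcases hfac i with h6 | h6
    · exact h6.1
    · omega
  -- shifts
  have hsh : ∀ i, ∃ m : ℤ, ((0 : ℤ), (0 : Ker (co phi i0))) ∈
      ts (cst (LaurentPolynomial.T m) * G i) :=
    fun i => exists_shift (h3 i (Finset.mem_univ i))
  choose m hm using hsh
  have hTne : ∀ k : ℤ, (LaurentPolynomial.T k : RO Eis) ≠ 0 := fun k =>
    (LaurentPolynomial.isUnit_T k).ne_zero
  have htrk : ∀ i, trk (cst (LaurentPolynomial.T (m i)) * G i) = rk (supp (G i)) := by
    intro i
    rw [trk_zfree (zfree_T' (m i) (hall i)) (hm i), H78.supp_cst_mul (hTne _)]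
  have hprod : ∏ i, (cst (LaurentPolynomial.T (m i)) * G i) =
      cst (LaurentPolynomial.T (∑ i, m i)) * ∏ i, G i := by
    rw [Finset.prod_mul_distrib]
    congr 1
    have : ∀ s : Finset (Fin n), ∏ i ∈ s, (cst (LaurentPolynomial.T (m i)) :
        AO Eis (Ker (co phi i0))) = cst (LaurentPolynomial.T (∑ i ∈ s, m i)) := by
      intro s
      induction s using Finset.induction_on with
      | empty => rw [Finset.prod_empty, Finset.sum_empty, LaurentPolynomial.T_zero, H78.cst_one]
      | insert i s hi ih =>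
        rw [Finset.prod_insert hi, Finset.sum_insert hi, ih, H78.cst_cst, LaurentPolynomial.T_add]
    exact this Finset.univ
  have hle3 := trk_prod_le Finset.univ (fun i => cst (LaurentPolynomial.T (m i)) * G i)
  rw [hprod] at hle3
  have hrkV : rk (supp (cl (co phi i0) S h eta D)) = rk (supp (∏ i, G i)) := by
    rw [fd.eq, H78.supp_cst_mul fd.c0]
  apply zfree_T (m := ∑ i, m i)
  apply zfree_of_trk
  rw [H78.supp_cst_mul (hTne _)]
  refine hle3.trans ?_
  rw [Finset.sum_congr rfl (fun i _ => htrk i)]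
  omega

end

end Pool.Agent.B5.Zf
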