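import Pool.Agent.Lib.MP_b5021c_nt.BP.H71.Zf
import Pool.Agent.Lib.MP_b5021c_nt.BP.H71.Struct
import Pool.Agent.Lib.MP_b5021c_nt.BP.H12.B1

/-!
# Board b5, BpS: the double closing at `e^(i pi/3)` (helper71)

`b`, `T` rays (`{b,T}` exposed), `nu` kills the closings of `b` and of `T`, `nu x ≠ 0`, the double
closing of `(b,T)` at the loads `e^(i pi/3)` has no drop; `E_b ~ g`, `E_T ~ E_x ~ f`,
`g(0) = f(0) = 1`: then `g = f = 1` and `p = N`.
-/

namespace Pool.Agent.B5.B3

open Pool.Agent.B5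
open scoped LaurentPolynomial
open Polynomial
open Pool.Agent.MP_b5021c_nt (Eis)
open Pool.Agent.MP_b5021c_nt.Ire (bc)
open Pool.Agent.B5.H25.Bch
open Pool.Agent.B5.BP90 (Et pE pE_inj embN et_im_ne)
open Pool.Agent.B5.BP57 (et_mul et_norm et_sub_norm et_ne_one pE_eval pE_coeff ray_polyU nf_of_unit
  classV_of zf_of_unit norm_unit finrank_kerO C_injL)

set_option linter.unusedSectionVars false

/-! ## `1` and `eta` are independent -/

theorem indep {et : Eis} (he : Et et) {a b : RO ℤ}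
    (h : bcR a + LaurentPolynomial.C et * bcR b = 0) : a = 0 ∧ b = 0 := by
  have key : ∀ n : ℤ, a.coeff n = 0 ∧ b.coeff n = 0 := by
    intro n
    have h2 := congrArg (fun q : RO Eis => q.coeff n) h
    have h3 : (LaurentPolynomial.C et * bcR b).coeff n = et * ((b.coeff n : ℤ) : Eis) := by
      rw [← LaurentPolynomial.smul_eq_C_mul]
      change et * (bcR b).coeff n = _
      rw [H09.bcR_coeff_eq, Finsupp.mapRange_apply]
      rfl
    have h4 : (bcR a).coeff n = ((a.coeff n : ℤ) : Eis) := by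
      rw [H09.bcR_coeff_eq, Finsupp.mapRange_apply]
      rfl
    have h5 : ((a.coeff n : ℤ) : Eis) - et * ((-(b.coeff n) : ℤ) : Eis) = 0 := by
      change (bcR a).coeff n + (LaurentPolynomial.C et * bcR b).coeff n = 0 at h2
      rw [h3, h4] at h2
      push_cast
      linear_combination h2
    have h6 := BP90.et_zero he h5
    rw [h6] at h5
    push_cast at h5
    rw [mul_zero, sub_zero] at h5
    have h7 := congrArg (Coef.emb : Eis →+* ℂ) h5
    rw [embN, map_zero] at h7
    exact ⟨by exact_mod_cast h7, by omega⟩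
  constructor
  · apply AddMonoidAlgebra.ext
    apply Finsupp.ext
    intro n
    exact (key n).1
  · apply AddMonoidAlgebra.ext
    apply Finsupp.ext
    intro n
    exact (key n).2

theorem indepP {et : Eis} (he : Et et) {a b : ℤ[X]} (h : pE a + C et * pE b = 0) :
    a = 0 ∧ b = 0 := by
  have h1 := congrArg (toLaurent : Eis[X] → RO Eis) h
  rw [map_add, map_mul, toLaurent_C, map_zero, ← bcR_L, ← bcR_L] at h1
  obtain ⟨h2, h3⟩ := indep he h1
  exact ⟨toLaurent_injective (by rw [h2, map_zero]), toLaurent_injective (by rw [h3, map_zero])⟩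

/-! ## Ranks -/

section

variable {P L : Type} [Fintype P] [DecidableEq P] [AddCommGroup L] [Module.Free ℤ L]
  [Module.Finite ℤ L] {phi : L →+ (P → ℤ)}

theorem ann_zero {O : Type} [CommRing O] [IsDomain O] [IsPrincipalIdealRing O] [Coef O]
    {E : AO O L} (hD : DD phi E) {mu : L →+ ℤ} (h : ∀ a ∈ supp E, mu a = 0) : mu = 0 := by
  ext x
  obtain ⟨n, hn, hn1⟩ := H61.full_index (⊤ : Submodule ℤ L) (supp E)
    (fun _ _ => Submodule.mem_top) (by rw [finrank_top]; exact hD.spn) x Submodule.mem_top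
  have h1 : ∀ y ∈ Submodule.span ℤ (supp E), mu y = 0 := by
    intro y hy
    induction hy using Submodule.span_induction with
    | mem a ha => exact h a ha
    | zero => exact map_zero mu
    | add a b _ _ ha hb => rw [map_add, ha, hb, add_zero]
    | smul k a _ ha => rw [map_zsmul, ha, smul_zero]
  have h2 := h1 _ hn1
  rw [map_zsmul, smul_eq_mul] at h2
  exact (mul_eq_zero.1 h2).resolve_left hn

variable {E : AO ℤ L} {T : L} {iT : P}

/-- the coefficients of the closing at `eta`. -/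
theorem co_et {et : Eis} (hDb : DD phi (bc E)) (hT : co phi iT T = 1) {eT : (RO ℤ)ˣ}
    {k0 : (RO Eis)ˣ} (hk0 : (k0 : RO Eis) = LaurentPolynomial.C et * bcR (eT : RO ℤ))
    (a : Ker (co phi iT)) : (cl (co phi iT) T hT k0 (bc E)).coeff a =
      bcR (E.coeff (a : L)) + LaurentPolynomial.C et * bcR ((eT : RO ℤ) * E.coeff ((a : L) + T)) := by
  rw [H47.cl_coeff_bin (co phi iT) T hT k0 (bc E) (fun a ha => hDb.bin a ha iT), bc_co, bc_co,
    hk0, map_mul, mul_assoc]

/-- the closing at `eta` has full rank. -/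
theorem full_et {et : Eis} (he : Et et) (hKm : KmuS) (hRk : RkS) (hD : DD phi E)
    (hDb : DD phi (bc E)) (hT : co phi iT T = 1) {eT : (RO ℤ)ˣ} {k0 : (RO Eis)ˣ}
    (hk0 : (k0 : RO Eis) = LaurentPolynomial.C et * bcR (eT : RO ℤ)) :
    rk (supp (cl (co phi iT) T hT k0 (bc E))) = Module.finrank ℤ (Ker (co phi iT)) := by
  refine le_antisymm ((hRk (Ker (co phi iT)) (Ker (co phi iT))).2.2.1 _) ?_
  by_contra hcon
  push Not at hcon
  obtain ⟨mu, hmu, hmuV⟩ := hKm _ _ hcon
  have h1 : mu.comp (prj (co phi iT) T hT) = 0 := by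
    apply ann_zero hD
    intro a ha
    apply hmuV
    change (cl (co phi iT) T hT k0 (bc E)).coeff (prj (co phi iT) T hT a) ≠ 0
    rw [co_et hDb hT hk0]
    intro h2
    obtain ⟨h3, h4⟩ := indep he h2
    have h5 := (mul_eq_zero.1 h4).resolve_left eT.ne_zero
    have hv : ((prj (co phi iT) T hT a : Ker (co phi iT)) : L) = a - co phi iT a • T := rfl
    rw [hv] at h3 h5
    rcases hD.bin a ha iT with h6 | h6
    · have h7 : co phi iT a = 0 := h6
      rw [h7, zero_smul, sub_zero] at h3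
      exact ha h3
    · have h7 : co phi iT a = 1 := h6
      rw [h7, one_smul, sub_add_cancel] at h5
      exact ha h5
  apply hmu
  ext a
  have h2 := DFunLike.congr_fun h1 (a : L)
  have h3 : prj (co phi iT) T hT (a : L) = a := by
    apply Subtype.ext
    change (a : L) - co phi iT (a : L) • T = a
    have h4 : co phi iT (a : L) = 0 := a.2
    rw [h4, zero_smul, sub_zero]
  change mu (prj (co phi iT) T hT (a : L)) = 0 at h2
  rw [h3] at h2
  exact h2

/-- a killing functional gives a drop. -/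
theorem drop_of_kt {O : Type} [CommRing O] [IsDomain O] [IsPrincipalIdealRing O] [Coef O]
    (hRk : RkS) {D : AO O L} (hD : DD phi D) (hT : co phi iT T = 1)
    {eT : (RO O)ˣ} {nu : L →+ ℤ}
    (hn : ∀ a, co phi iT a = 0 → nu a ≠ 0 → D.coeff a + (eT : RO O) * D.coeff (a + T) = 0)
    {x : L} (hx : co phi iT x = 0) (hnx : nu x ≠ 0) :
    rk (supp (cl (co phi iT) T hT eT D)) < Module.finrank ℤ (Ker (co phi iT)) := by
  refine lt_of_le_of_ne ((hRk (Ker (co phi iT)) (Ker (co phi iT))).2.2.1 _) fun heq => ?_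
  obtain ⟨n, hn0, hn1⟩ := H61.full_index (⊤ : Submodule ℤ (Ker (co phi iT)))
    (supp (cl (co phi iT) T hT eT D)) (fun _ _ => Submodule.mem_top)
    (by rw [finrank_top]; exact heq) ⟨x, hx⟩ Submodule.mem_top
  have h1 : ∀ y ∈ Submodule.span ℤ (supp (cl (co phi iT) T hT eT D)), nu (y : L) = 0 := by
    intro y hy
    induction hy using Submodule.span_induction with
    | mem a ha =>
      by_contra hne
      apply ha
      rw [H47.cl_coeff_bin (co phi iT) T hT eT D (fun a ha => hD.bin a ha iT)]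
      exact hn (a : L) a.2 hne
    | zero => exact map_zero nu
    | add a b _ _ ha hb => rw [Submodule.coe_add, map_add, ha, hb, add_zero]
    | smul k a _ ha => rw [Submodule.coe_smul, map_zsmul, ha, smul_zero]
  have h2 := h1 _ hn1
  rw [Submodule.coe_smul, map_zsmul, smul_eq_mul] at h2
  exact hnx ((mul_eq_zero.1 h2).resolve_left hn0)

/-- the port of `b` on the kernel of the port of `T`. -/
theorem co2 {ib : P} (pbT : co phi ib T = 0) (a : Ker (co phi iT)) :
    co (phO phi T iT) ib a = co phi ib (a : L) := by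
  have h1 : phi T ib = 0 := pbT
  change (if phi T ib = 0 then phi (a : L) ib else 0) = _
  rw [if_pos h1]
  rfl

/-- the coefficients of the double closing. -/
theorem co_et2 {et : Eis} (he : Et et) (hDb : DD phi (bc E)) (hT : co phi iT T = 1) {b : L}
    {ib : P} (pTb : co phi iT b = 0) {eb eT : (RO ℤ)ˣ} {k0 k1 : (RO Eis)ˣ}
    (hk0 : (k0 : RO Eis) = LaurentPolynomial.C et * bcR (eT : RO ℤ))
    (hk1 : (k1 : RO Eis) = LaurentPolynomial.C et * bcR (eb : RO ℤ))
    (hDH : DD (phO phi T iT) (cl (co phi iT) T hT k0 (bc E)))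
    (hb' : co (phO phi T iT) ib ⟨b, pTb⟩ = 1) (a : Ker (co (phO phi T iT) ib)) :
    (cl (co (phO phi T iT) ib) ⟨b, pTb⟩ hb' k1 (cl (co phi iT) T hT k0 (bc E))).coeff a =
      bcR (E.coeff ((a : Ker (co phi iT)) : L) -
        (eb : RO ℤ) * (eT : RO ℤ) * E.coeff (((a : Ker (co phi iT)) : L) + b + T)) +
      LaurentPolynomial.C et * bcR ((eb : RO ℤ) * E.coeff (((a : Ker (co phi iT)) : L) + b) +
        (eT : RO ℤ) * E.coeff (((a : Ker (co phi iT)) : L) + T) +
        (eb : RO ℤ) * (eT : RO ℤ) * E.coeff (((a : Ker (co phi iT)) : L) + b + T)) := by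
  have het2 : (LaurentPolynomial.C et : RO Eis) * LaurentPolynomial.C et =
      LaurentPolynomial.C et - 1 := by
    have h3 : et * et = et - 1 := by linear_combination -(et_mul he)
    rw [← map_mul, h3, map_sub, map_one]
  rw [H47.cl_coeff_bin _ _ hb' k1 _ (fun a ha => hDH.bin a ha ib), co_et hDb hT hk0,
    co_et hDb hT hk0, hk1]
  have e1 : (((a : Ker (co phi iT)) + (⟨b, pTb⟩ : Ker (co phi iT)) : Ker (co phi iT)) : L) =
      ((a : Ker (co phi iT)) : L) + b := rfl
  rw [e1]
  simp only [map_add, map_sub, map_mul]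
  linear_combination (bcR (eb : RO ℤ) * bcR (eT : RO ℤ) *
    bcR (E.coeff (((a : Ker (co phi iT)) : L) + b + T))) * het2

/-- the double closing at `eta` has full rank. -/
theorem full2 {et : Eis} (he : Et et) (hKm : KmuS) (hRk : RkS) (hDb : DD phi (bc E))
    (hT : co phi iT T = 1) {b : L} {ib : P} (pbT : co phi ib T = 0)
    (pTb : co phi iT b = 0) {eb eT : (RO ℤ)ˣ} {k0 k1 : (RO Eis)ˣ}
    (hk0 : (k0 : RO Eis) = LaurentPolynomial.C et * bcR (eT : RO ℤ))
    (hk1 : (k1 : RO Eis) = LaurentPolynomial.C et * bcR (eb : RO ℤ))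
    (hDH : DD (phO phi T iT) (cl (co phi iT) T hT k0 (bc E)))
    (hb' : co (phO phi T iT) ib ⟨b, pTb⟩ = 1)
    (hfull : ∀ nu' : L →+ ℤ, Tot.KRg (co phi ib) (co phi iT) b T (eb : RO ℤ) (eT : RO ℤ)
      (fun a => E.coeff a) nu' → nu' = 0) :
    rk (supp (cl (co (phO phi T iT) ib) ⟨b, pTb⟩ hb' k1 (cl (co phi iT) T hT k0 (bc E)))) =
      Module.finrank ℤ (Ker (co (phO phi T iT) ib)) := by
  refine le_antisymm ((hRk _ (Ker (co (phO phi T iT) ib))).2.2.1 _) ?_
  by_contra hcon
  push Not at hcon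
  obtain ⟨mu, hmu, hmuV⟩ := hKm _ _ hcon
  obtain ⟨F, hF⟩ : ∃ F : L →+ Ker (co (phO phi T iT) ib),
      F = (prj (co (phO phi T iT) ib) ⟨b, pTb⟩ hb').comp (prj (co phi iT) T hT) := ⟨_, rfl⟩
  have hFv : ∀ a : L, ((F a : Ker (co phi iT)) : L) =
      (a - co phi iT a • T) - co phi ib (a - co phi iT a • T) • b := by
    intro a
    have h1 : co (phO phi T iT) ib (prj (co phi iT) T hT a) = co phi ib (a - co phi iT a • T) :=
      co2 pbT (prj (co phi iT) T hT a)
    rw [hF, ← h1]
    rfl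
  have hfix : ∀ a : L, co phi ib a = 0 → co phi iT a = 0 →
      ((F a : Ker (co phi iT)) : L) = a := by
    intro a h1 h2
    rw [hFv, h2, zero_smul, sub_zero, h1, zero_smul, sub_zero]
  have hz : ∀ y : Ker (co (phO phi T iT) ib), ((y : Ker (co phi iT)) : L) = 0 → y = 0 :=
    fun y hy => Subtype.ext (Subtype.ext hy)
  have h1 : mu.comp F = 0 := by
    apply hfull
    have pb1 : co phi ib b = 1 := by
      rw [← hb', co2 pbT]
    refine ⟨?_, ?_, ?_⟩
    · change mu (F b) = 0
      rw [hz (F b) (by rw [hFv, pTb, zero_smul, sub_zero, pb1, one_smul, sub_self]), map_zero]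
    · change mu (F T) = 0
      rw [hz (F T) (by rw [hFv, hT, one_smul, sub_self, map_zero, zero_smul, sub_zero]), map_zero]
    · intro a ha1 ha2 hne
      have h2 := hfix a ha1 ha2
      have h3 : (cl (co (phO phi T iT) ib) ⟨b, pTb⟩ hb' k1
          (cl (co phi iT) T hT k0 (bc E))).coeff (F a) = 0 := by
        by_contra h4
        exact hne (hmuV (F a) h4)
      rw [co_et2 he hDb hT pTb hk0 hk1 hDH hb', h2] at h3
      obtain ⟨h5, h6⟩ := indep he h3
      exact ⟨(sub_eq_zero.1 h5).symm, h6⟩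
  apply hmu
  ext a
  have h2 := DFunLike.congr_fun h1 ((a : Ker (co phi iT)) : L)
  have h3 : F ((a : Ker (co phi iT)) : L) = a := by
    apply Subtype.ext
    apply Subtype.ext
    apply hfix
    · have h4 : co (phO phi T iT) ib (a : Ker (co phi iT)) = 0 := a.2
      rwa [co2 pbT] at h4
    · exact (a : Ker (co phi iT)).2
  change mu (F ((a : Ker (co phi iT)) : L)) = 0 at h2
  rw [h3] at h2
  exact h2

end

/-! ## Numbers -/

theorem num_ts {N k : ℕ} (hN : 3 ≤ N) (h : (N - 1) * (N - 1) = k * (N * N + 3 - 3 * N)) :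
    False := by
  obtain ⟨m, rfl⟩ : ∃ m, N = m + 3 := ⟨N - 3, by omega⟩
  have h2 : (m + 3) * (m + 3) + 3 - 3 * (m + 3) = m * m + 3 * m + 3 := by
    have h3 : (m + 3) * (m + 3) = m * m + 6 * m + 9 := by ring
    omega
  have h3 : m + 3 - 1 = m + 2 := by omega
  rw [h2, h3] at h
  rcases k with _ | _ | k
  · simp at h
  · nlinarith
  · nlinarith [Nat.zero_le (k * (m * m + 3 * m + 3))]

/-! ## The theorem -/

/-- (B3). -/
theorem b3 (hFD : FDS) (hE2 : E2S) (hVZ : VZS) (hU : UnitRS) (hMV : MVS) (hE1 : E1S)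
    (hM1 : M1S) (hMm : MmulS) (hG0 : G0S) (hC0 : Coeff0S) (hW : WWfS) (hRF : RayFacS)
    (hQst : QstS) (hQra : QraS) (hMin : MinS) (hB5 : B5aS) (hRk : RkS) (hKm : KmuS)
    (hQc : Qc3S) (hDv : Dv3S) (hNd : Nd3vS) (hG1 : G1pS) (hFw : H71.FclwS) (hL : L2S)
    (hR : ResWDS) (hRS : ResStS) (hEv : EvS) (hEvm : EvmS)
    {P L : Type} [Fintype P] [DecidableEq P] [AddCommGroup L] [Module.Free ℤ L]
    [Module.Finite ℤ L] {phi : L →+ (P → ℤ)} {E : AO ℤ L} (hD : DD phi E) {N : ℕ} (hN : 3 ≤ N)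
    (hrk : Module.finrank ℤ L + 1 = 2 * N) (hcv : ClassV N (E.coeff 0)) {b T x : L}
    (hb0 : b ≠ 0) (hT : Ray E T) (hIT : ImS phi T) {ib iT : P} (pb : co phi ib b = 1)
    (pT : co phi iT T = 1) (pbT : co phi ib T = 0) (pTb : co phi iT b = 0)
    (pbx : co phi ib x = 0) (pTx : co phi iT x = 0)
    (hI2 : ∀ a : L, (∀ i, phi b i = 0 → phi T i = 0 → phi a i = 0) →
      ∃ k l : ℤ, a = k • b + l • T)
    (hl2 : ∃ l : L →+ ℤ, l b = 0 ∧ l T = 0 ∧
      ∀ a ∈ supp E, a ≠ 0 → a ≠ b → a ≠ T → a ≠ b + T → 0 < l a)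
    {w eb eT ex : (RO ℤ)ˣ} {p g f : ℤ[X]} (hp0 : p.coeff 0 = N) (hg0 : g.coeff 0 = 1)
    (hf0 : f.coeff 0 = 1) (hp : (w : RO ℤ) * E.coeff 0 = toLaurent p)
    (hg : (w : RO ℤ) * ((eb : RO ℤ) * E.coeff b) = -toLaurent g)
    (hfT : (w : RO ℤ) * ((eT : RO ℤ) * E.coeff T) = -toLaurent f)
    (hfx : (w : RO ℤ) * ((ex : RO ℤ) * E.coeff x) = -toLaurent f)
    (hfbT : (w : RO ℤ) * ((eb : RO ℤ) * (eT : RO ℤ) * E.coeff (b + T)) = toLaurent f)
    {nu : L →+ ℤ} (hnb : Tot.KT (co phi ib) b (eb : RO ℤ) (fun a => E.coeff a) nu)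
    (hnT : Tot.KT (co phi iT) T (eT : RO ℤ) (fun a => E.coeff a) nu) (hnx : nu x ≠ 0)
    (hfull : ∀ nu' : L →+ ℤ, Tot.KRg (co phi ib) (co phi iT) b T (eb : RO ℤ) (eT : RO ℤ)
      (fun a => E.coeff a) nu' → nu' = 0) :
    g = 1 ∧ f = 1 ∧ p = C (N : ℤ) := by
  classical
  obtain ⟨et, he⟩ : ∃ et : Eis, Et et := ⟨_, Pool.Agent.B5.BP90.et_g6⟩
  have hN' : (3 : ℝ) ≤ N := by exact_mod_cast hN
  have hrk2 : 2 ≤ Module.finrank ℤ L := by omega
  have hpne : p.coeff 0 ≠ 0 := by rw [hp0]; exact_mod_cast (by omega : N ≠ 0)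
  obtain ⟨hpz, -⟩ := zf_of_unit hU hcv hp hpne
  obtain ⟨hpcl, -, hltT⟩ := ray_polyU hE2 hVZ hD hrk2 hT hp hfT hpz
  have hDb : DD phi (bc E) := dd_bc hD (by omega)
  -- units
  have hetu : IsUnit et := IsUnit.of_mul_eq_one _ (et_mul he)
  obtain ⟨eu, heu⟩ := (hetu.map (LaurentPolynomial.C : Eis →+* RO Eis))
  obtain ⟨k0, hk0⟩ : ∃ k0 : (RO Eis)ˣ, (k0 : RO Eis) = LaurentPolynomial.C et * bcR (eT : RO ℤ) :=
    ⟨eu * bcU eT, by rw [Units.val_mul, heu]; rfl⟩
  obtain ⟨k1, hk1⟩ : ∃ k1 : (RO Eis)ˣ, (k1 : RO Eis) = LaurentPolynomial.C et * bcR (eb : RO ℤ) :=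
    ⟨eu * bcU eb, by rw [Units.val_mul, heu]; rfl⟩
  have hee : et * et = et - 1 := by linear_combination -(et_mul he)
  have het2 : (LaurentPolynomial.C et : RO Eis) * LaurentPolynomial.C et =
      LaurentPolynomial.C et - 1 := by
    rw [← map_mul, hee, map_sub, map_one]
  -- coefficients over `Eis`
  have cp := congrArg bcR hp
  have cg := congrArg bcR hg
  have cT := congrArg bcR hfT
  have cx := congrArg bcR hfx
  have cbT := congrArg bcR hfbT
  simp only [map_mul, map_neg, bcR_L] at cp cg cT cx cbT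
  -- the first closing
  obtain ⟨H, hH⟩ : ∃ H, H = cl (co phi iT) T pT k0 (bc E) := ⟨_, rfl⟩
  have hcH : ∀ a : Ker (co phi iT), H.coeff a = bcR (E.coeff (a : L)) +
      LaurentPolynomial.C et * (bcR (eT : RO ℤ) * bcR (E.coeff ((a : L) + T))) := by
    intro a
    rw [hH, co_et hDb pT hk0, map_mul]
  let b' : Ker (co phi iT) := ⟨b, pTb⟩
  let x' : Ker (co phi iT) := ⟨x, pTx⟩
  have cH0 : bcR (w : RO ℤ) * H.coeff 0 = toLaurent (pE p - C et * pE f) := by
    rw [hcH, map_sub, map_mul, toLaurent_C]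
    change bcR (w : RO ℤ) * (bcR (E.coeff 0) + LaurentPolynomial.C et *
      (bcR (eT : RO ℤ) * bcR (E.coeff (0 + T)))) = _
    rw [zero_add]
    linear_combination cp + LaurentPolynomial.C et * cT
  have cHb : bcR (w : RO ℤ) * (bcR (eb : RO ℤ) * H.coeff b') =
      -toLaurent (pE g - C et * pE f) := by
    rw [hcH, map_sub, map_mul, toLaurent_C]
    change bcR (w : RO ℤ) * (bcR (eb : RO ℤ) * (bcR (E.coeff b) + LaurentPolynomial.C et *
      (bcR (eT : RO ℤ) * bcR (E.coeff (b + T))))) = _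
    linear_combination cg + LaurentPolynomial.C et * cbT
  -- the relations at `x`
  have rx : E.coeff x + (eT : RO ℤ) * E.coeff (x + T) = 0 := hnT.2 x pTx hnx
  have rxb : E.coeff (x + b) + (eT : RO ℤ) * E.coeff (x + b + T) = 0 := by
    refine hnT.2 (x + b) (by rw [map_add, pTx, pTb, add_zero]) ?_
    rw [map_add, hnb.1, add_zero]
    exact hnx
  have rb : E.coeff x + (eb : RO ℤ) * E.coeff (x + b) = 0 := hnb.2 x pbx hnx
  have rx' := congrArg bcR rx
  have rxb' := congrArg bcR rxb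
  have rb' := congrArg bcR rb
  simp only [map_add, map_mul, map_zero] at rx' rxb' rb'
  have cHx : H.coeff x' = (1 - LaurentPolynomial.C et) * bcR (E.coeff x) := by
    rw [hcH]
    change bcR (E.coeff x) + LaurentPolynomial.C et *
      (bcR (eT : RO ℤ) * bcR (E.coeff (x + T))) = _
    linear_combination LaurentPolynomial.C et * rx'
  -- numbers
  have v0 : (pE p - C et * pE f).coeff 0 = ((N : ℤ) : Eis) - et := by
    rw [coeff_sub, coeff_C_mul, pE_coeff, pE_coeff, hp0, hf0]
    push_cast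
    ring
  have v1 : (pE g - C et * pE f).coeff 0 = 1 - et := by
    rw [coeff_sub, coeff_C_mul, pE_coeff, pE_coeff, hg0, hf0]
    push_cast
    ring
  have hn1 : ‖(Coef.emb ((pE g - C et * pE f).coeff 0) : ℂ)‖ = 1 := by
    rw [v1, et_sub_norm he]
  have hHbne : H.coeff b' ≠ 0 := by
    intro h0
    rw [h0, mul_zero, mul_zero] at cHb
    have h1 : pE g - C et * pE f = 0 :=
      toLaurent_injective (by rw [map_zero, ← neg_eq_zero, ← cHb])
    rw [h1, coeff_zero, map_zero, norm_zero] at hn1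
    exact zero_ne_one hn1
  -- the ray `b`
  have hsb : supp (bc E) = supp E := supp_bc E
  obtain ⟨l2, l2b, l2T, l2p⟩ := hl2
  have hRb : Ray H b' := by
    rw [hH]
    refine BP12.ray_cl2 pT (fun a ha => hDb.bin a ha iT) k0 hb0 pTb l2T l2b
      (fun a ha h1 h2 h3 h4 => l2p a (by rwa [hsb] at ha) h1 h3 h2 (by rwa [add_comm b T])) ?_
    intro h0
    apply hHbne
    rw [hH]
    rw [H47.cl_coeff_bin (co phi iT) T pT k0 (bc E) (fun a ha => hDb.bin a ha iT)]
    exact h0
  -- `H` is in `DD`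
  have hzE : ∀ z : Circle, evR z (bcR (E.coeff 0)) ≠ 0 := by
    have hz := (hE2 Eis P L phi (bc E) hDb hrk2).1
    rwa [bc_co] at hz
  have hDH : DD (phO phi T iT) H := by
    rw [hH]
    rw [hH] at hRb hcH cH0 cHb cHx
    refine BP57.eta_dd hFD hE2 hVZ hU hMV hE1 hMm hG0 hC0 hW hRF hQst hQra hMin hB5 hRk hKm hQc hDv
      hNd he hk0 hD (by omega) hrk2 hcv hT hIT hp hp0 hfT hf0
      (drop_of_kt hRk hD pT (fun a h1 h2 => hnT.2 a h1 h2) pTx hnx)
      (full_et he hKm hRk hD hDb pT hk0) hRb (w' := -(bcU w * bcU eb))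
      (r := pE g - C et * pE f) ?_ hn1 ?_
    · rw [Units.val_neg, Units.val_mul, H09.bcU_val, H09.bcU_val]
      linear_combination -cHb
    · intro y hy
      have h1 : y ∣ bcR (E.coeff x) := by
        have h2 := (hy x').mul_left (LaurentPolynomial.C et)
        have h3 : LaurentPolynomial.C et * (cl (co phi iT) T pT k0 (bc E)).coeff x' =
            bcR (E.coeff x) := by
          rw [cHx]
          linear_combination (-bcR (E.coeff x)) * het2
        rwa [h3] at h2
      have h2 : y ∣ toLaurent (pE f) := by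
        have h3 : toLaurent (pE f) = -(bcR (w : RO ℤ) * bcR (ex : RO ℤ)) * bcR (E.coeff x) := by
          linear_combination cx
        rw [h3]
        exact h1.mul_left _
      have h3 : y ∣ bcR (E.coeff 0) := by
        have h4 : y ∣ bcR (w : RO ℤ) * (cl (co phi iT) T pT k0 (bc E)).coeff 0 :=
          (hy 0).mul_left _
        rw [cH0, map_sub, map_mul] at h4
        have h5 := dvd_add h4 (h2.mul_left (toLaurent (C et)))
        rw [sub_add_cancel, ← cp] at h5
        exact (IsUnit.dvd_mul_left (bcU w).isUnit).mp h5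
      refine BP57.unit_of_two hE1 hMV hM1 hU (classV_bc hcv) hzE h3 h2 (w := 1) (r := pE f) ?_ ?_
      · rw [Units.val_one, one_mul]
      · rw [pE_coeff, hf0, embN]
        norm_num
  -- the second closing
  have pb' : co (phO phi T iT) ib b' = 1 := by rw [co2 pbT]; exact pb
  have hkerT : Module.finrank ℤ (Ker (co phi iT)) + 1 = Module.finrank ℤ L := finrank_kerO hRk pT
  have hker2 : Module.finrank ℤ (Ker (co (phO phi T iT) ib)) + 1 =
      Module.finrank ℤ (Ker (co phi iT)) := finrank_kerO hRk pb'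
  have hI : ImS (phO phi T iT) b' := by
    intro a ha
    obtain ⟨k, l, hkl⟩ := hI2 (a : L) (by
      intro i h1 h2
      have h3 : phO phi T iT b' i = 0 := by
        change (if phi T i = 0 then phi b i else 0) = 0
        rw [if_pos h2, h1]
      have h4 := ha i h3
      change (if phi T i = 0 then phi (a : L) i else 0) = 0 at h4
      rwa [if_pos h2] at h4)
    have h5 := congrArg (co phi iT) hkl
    have h6 : co phi iT (a : L) = 0 := a.2
    rw [h6, map_add, map_zsmul, map_zsmul, pTb, pT, smul_zero, zero_add, smul_eq_mul,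
      mul_one] at h5
    refine ⟨k, Subtype.ext ?_⟩
    rw [hkl, ← h5, zero_smul, add_zero]
    rfl
  obtain ⟨A, hA⟩ : ∃ A : Eis[X], A = pE p - C et * pE g - pE f := ⟨_, rfl⟩
  obtain ⟨q, hq⟩ : ∃ q : Eis[X], q = pE p - C et * pE f := ⟨_, rfl⟩
  obtain ⟨bt, hbt⟩ : ∃ bt : Eis[X], bt = C et * pE g - C (et - 1) * pE f := ⟨_, rfl⟩
  have hAq : A = q - bt := by
    rw [hA, hq, hbt, map_sub C, C_1]
    ring
  have cH0' := cH0
  have cHb' := cHb
  rw [map_sub, map_mul, toLaurent_C] at cH0' cHb'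
  have cbt : bcR (w : RO ℤ) * ((k1 : RO Eis) * H.coeff b') = -toLaurent bt := by
    rw [hk1, hbt, map_sub, map_mul, map_mul, toLaurent_C, toLaurent_C, map_sub, map_one]
    linear_combination LaurentPolynomial.C et * cHb' + toLaurent (pE f) * het2
  have cA : bcR (w : RO ℤ) * (H.coeff 0 + (k1 : RO Eis) * H.coeff b') = toLaurent A := by
    rw [hAq, map_sub, hq]
    linear_combination cH0 + cbt
  obtain ⟨al, hal⟩ : ∃ al : Eis, al = ((N : ℤ) : Eis) - et - 1 := ⟨_, rfl⟩
  have hA0 : A.coeff 0 = al := by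
    rw [hA, coeff_sub, coeff_sub, coeff_C_mul, pE_coeff, pE_coeff, pE_coeff, hp0, hg0, hf0, hal]
    push_cast
    ring
  have hal0 : al ≠ 0 := by
    intro h0
    have h3 := congrArg (fun y : Eis => (Coef.emb y : ℂ).im) h0
    simp only [hal, map_sub, map_one, map_zero, embN, Complex.sub_im, Complex.one_im,
      Complex.intCast_im, Complex.zero_im, sub_zero, zero_sub, neg_eq_zero] at h3
    exact et_im_ne he h3
  have hqz : ZF (q.map (Coef.emb : Eis →+* ℂ)) := by rw [hq]; exact BP57.eta_zf he hltT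
  rw [← hq] at cH0
  obtain ⟨hqcl, hle, hlt⟩ := ray_polyU hE2 hVZ hDH (by omega) hRb (w := bcU w) cH0 cbt hqz
  have hAz : ZF (A.map (Coef.emb : Eis →+* ℂ)) := by
    intro z hz h0
    rw [hAq, Polynomial.map_sub, eval_sub] at h0
    have h2 := hlt z hz
    rw [sub_eq_zero.mp h0] at h2
    exact lt_irrefl _ h2
  have hVA := classV_of hU (w := bcU w) cA (by rw [hA0]; exact Coef.one_le _ hal0) hAz
  rw [hA0] at hVA
  have hne : H.coeff 0 + (k1 : RO Eis) * H.coeff b' ≠ 0 := ((hMV Eis).1 _ _ hVA).1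
  obtain ⟨c, n, G, fd⟩ := hFD Eis P (Ker (co phi iT)) (phO phi T iT) H b' ib k1 pb'
    ⟨hDH, by omega, hRb, pb', hne⟩
  have hfull2 : rk (supp (cl (co (phO phi T iT) ib) b' pb' k1 H)) =
      Module.finrank ℤ (Ker (co (phO phi T iT) ib)) := by
    rw [hH] at hDH ⊢
    exact full2 he hKm hRk hDb pT pbT pTb hk0 hk1 hDH pb' hfull
  have hc2 : ∀ a : Ker (co (phO phi T iT) ib), (cl (co (phO phi T iT) ib) b' pb' k1 H).coeff a =
      H.coeff (a : Ker (co phi iT)) + (k1 : RO Eis) * H.coeff ((a : Ker (co phi iT)) + b') :=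
    fun a => H47.cl_coeff_bin _ b' pb' k1 H (fun a ha => hDH.bin a ha ib) a
  -- the coefficient at `x`
  have px' : co (phO phi T iT) ib x' = 0 := by rw [co2 pbT]; exact pbx
  let x2 : Ker (co (phO phi T iT) ib) := ⟨x', px'⟩
  have cHxb : H.coeff (x' + b') = (1 - LaurentPolynomial.C et) * bcR (E.coeff (x + b)) := by
    rw [hcH]
    change bcR (E.coeff (x + b)) + LaurentPolynomial.C et *
      (bcR (eT : RO ℤ) * bcR (E.coeff (x + b + T))) = _
    linear_combination LaurentPolynomial.C et * rxb'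
  have cT2x : (cl (co (phO phi T iT) ib) b' pb' k1 H).coeff x2 =
      -LaurentPolynomial.C et * bcR (E.coeff x) := by
    rw [hc2]
    change H.coeff x' + (k1 : RO Eis) * H.coeff (x' + b') = _
    rw [cHx, cHxb, hk1]
    linear_combination (LaurentPolynomial.C et * (1 - LaurentPolynomial.C et)) * rb' +
      bcR (E.coeff x) * het2
  have cT2x' : ((bcU w * bcU ex : (RO Eis)ˣ) : RO Eis) *
      (cl (co (phO phi T iT) ib) b' pb' k1 H).coeff x2 = toLaurent (C et * pE f) := by
    rw [cT2x, Units.val_mul, H09.bcU_val, H09.bcU_val, map_mul, toLaurent_C]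
    linear_combination (-LaurentPolynomial.C et) * cx
  have hf00 : ‖(Coef.emb ((C et * pE f).coeff 0) : ℂ)‖ = 1 := by
    rw [coeff_C_mul, pE_coeff, hf0, map_mul, norm_mul, et_norm he, embN]
    norm_num
  -- the content
  have hMc : M c = 1 := by
    have h1 := hVA
    rw [fd.v00] at h1
    obtain ⟨N1, -, h2, -, -⟩ := (hE1 Eis).1 _ _ _ h1
    have h3 : N1 = 1 := by
      refine BP57.low_classVO hU (w := bcU w * bcU ex) (y := (∏ i, G i).coeff x2) ?_ hf00 h2
      rw [← cT2x', fd.eq, H78.cstm]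
    rw [((hMV Eis).1 _ _ h2).2, h3]
  -- no small factor
  have hs : snp (phO phi T iT) b' ib G = ∅ := by
    by_contra hcon
    have hsn : (snp (phO phi T iT) b' ib G).Nonempty := Finset.nonempty_iff_ne_empty.mpr hcon
    obtain ⟨m, s, hnf⟩ := nf_of_unit hU (w := bcU w) cA
    have hne' : bcU eb ≠ k1 := by
      intro h1
      apply et_ne_one he
      have h2 : (k1 : RO Eis) = bcR (eb : RO ℤ) := by rw [← h1]; rfl
      rw [hk1] at h2
      have h3 : (bcR (eb : RO ℤ)) ≠ 0 := (bcU eb).ne_zero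
      have h4 : (LaurentPolynomial.C et : RO Eis) = LaurentPolynomial.C 1 := by
        rw [map_one]
        exact mul_right_cancel₀ h3 (by rw [h2, one_mul])
      exact C_injL h4
    have hdr : rk (supp (cl (co (phO phi T iT) ib) b' pb' (bcU eb) H)) <
        Module.finrank ℤ (Ker (co (phO phi T iT) ib)) := by
      refine drop_of_kt hRk hDH pb' (nu := nu.comp (incl (Ker (co phi iT)))) ?_ px' hnx
      intro a ha1 ha2
      rw [co2 pbT] at ha1
      have e1 : E.coeff (a : L) + (eb : RO ℤ) * E.coeff ((a : L) + b) = 0 := hnb.2 _ ha1 ha2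
      have e2 : E.coeff ((a : L) + T) + (eb : RO ℤ) * E.coeff ((a : L) + T + b) = 0 := by
        refine hnb.2 _ (by rw [map_add, ha1, pbT, add_zero]) ?_
        rw [map_add, hnT.1, add_zero]
        exact ha2
      rw [add_right_comm] at e2
      have e1' := congrArg bcR e1
      have e2' := congrArg bcR e2
      simp only [map_add, map_mul, map_zero] at e1' e2'
      rw [hcH, hcH, H09.bcU_val]
      change bcR (E.coeff (a : L)) + LaurentPolynomial.C et *
        (bcR (eT : RO ℤ) * bcR (E.coeff ((a : L) + T))) + bcR (eb : RO ℤ) *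
          (bcR (E.coeff ((a : L) + b)) + LaurentPolynomial.C et *
            (bcR (eT : RO ℤ) * bcR (E.coeff ((a : L) + b + T)))) = 0
      linear_combination e1' + (LaurentPolynomial.C et * bcR (eT : RO ℤ)) * e2'
    obtain ⟨t, ht0, -, ht⟩ := BP57.tsgO hQst hQra hMin hC0 hB5 hRk hKm hQc hDv fd hMc hsn hfull2
      hne' hdr hnf (by
        intro z0 hz0 hdv
        have h1 : (C (Coef.emb (s : Eis) : ℂ) * A.map (Coef.emb : Eis →+* ℂ)) =
            (C (s : Eis) * A).map (Coef.emb : Eis →+* ℂ) := by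
          rw [Polynomial.map_mul, map_C]
        rw [← h1] at hdv
        have hsu : IsUnit (C (Coef.emb (s : Eis) : ℂ)) := by
          rw [isUnit_C, isUnit_iff_ne_zero, ← norm_pos_iff, norm_unit]
          exact one_pos
        have hdv2 : (X - C z0) ^ 2 ∣ A.map (Coef.emb : Eis →+* ℂ) :=
          (hsu.dvd_mul_left).mp hdv
        refine hNd (q.map (Coef.emb : Eis →+* ℂ)) (A.map (Coef.emb : Eis →+* ℂ)) z0 hqcl ?_ ?_ hz0
          hdv2
        · intro z hz
          rw [hAq, Polynomial.map_sub, eval_sub, sub_mul, Complex.sub_re]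
          have h2 : ((q.map (Coef.emb : Eis →+* ℂ)).eval z *
              (starRingEnd ℂ) ((q.map (Coef.emb : Eis →+* ℂ)).eval z)).re =
              ‖(q.map (Coef.emb : Eis →+* ℂ)).eval z‖ ^ 2 := by
            rw [Complex.mul_conj, Complex.normSq_eq_norm_sq, Complex.ofReal_re]
          have h3 := Complex.re_le_norm ((bt.map (Coef.emb : Eis →+* ℂ)).eval z *
              (starRingEnd ℂ) ((q.map (Coef.emb : Eis →+* ℂ)).eval z))
          rw [norm_mul, RCLike.norm_conj] at h3
          have h4 := hle z hz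
          rw [h2]
          nlinarith [norm_nonneg ((q.map (Coef.emb : Eis →+* ℂ)).eval z),
            mul_le_mul_of_nonneg_right h4 (norm_nonneg ((q.map (Coef.emb : Eis →+* ℂ)).eval z))]
        · intro h2
          apply hal0
          rw [← hA0]
          have h3 := congrArg (fun f : ℂ[X] => f.coeff 0) h2
          simp only [coeff_map, coeff_zero] at h3
          exact emb_inj (h3.trans (map_zero _).symm))
    -- the apex at the load one
    have h5 : bcR (w : RO ℤ) * (H.coeff 0 + ((bcU eb : (RO Eis)ˣ) : RO Eis) * H.coeff b') =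
        toLaurent (pE p - pE g) := by
      rw [H09.bcU_val, map_sub]
      linear_combination cH0' + cHb'
    obtain ⟨y, hy⟩ : ∃ y : RO Eis, y = ((bcU eb : (RO Eis)ˣ) : RO Eis) *
        ((k1⁻¹ : (RO Eis)ˣ) : RO Eis) := ⟨_, rfl⟩
    rw [← hy] at ht
    have hy1 : LaurentPolynomial.C et * y = 1 := by
      rw [hy, H09.bcU_val, ← mul_assoc, ← hk1, Units.mul_inv]
    obtain ⟨k, τ, hτ, hτ0⟩ := H40.exists_normal t ht0
    have h6 : (LaurentPolynomial.T 0 : RO Eis) * toLaurent (C et * (pE p - pE g)) =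
        LaurentPolynomial.T k * toLaurent (C (et - 1) * τ * A) := by
      rw [LaurentPolynomial.T_zero, one_mul, map_mul, toLaurent_C, ← h5, ht, map_mul, map_mul,
        toLaurent_C, ← cA, map_sub, map_one]
      have h7 : LaurentPolynomial.C et * (1 - y) = LaurentPolynomial.C et - 1 := by
        rw [mul_sub, hy1, mul_one]
      rw [hτ]
      linear_combination (bcR (w : RO ℤ) * (LaurentPolynomial.T k * toLaurent τ *
        (H.coeff 0 + (k1 : RO Eis) * H.coeff b'))) * h7
    have e1 : (C et * (pE p - pE g)).coeff 0 = et * (((N : ℤ) : Eis) - 1) := by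
      rw [coeff_C_mul, coeff_sub, pE_coeff, pE_coeff, hp0, hg0]
      push_cast
      rfl
    have e2 : (C (et - 1) * τ * A).coeff 0 = (et - 1) * τ.coeff 0 * al := by
      rw [mul_coeff_zero, mul_coeff_zero, coeff_C_zero, hA0]
    have hn2 : ‖(Coef.emb (et * (((N : ℤ) : Eis) - 1)) : ℂ)‖ = (N : ℝ) - 1 := by
      rw [map_mul, norm_mul, et_norm he, one_mul, map_sub, embN, map_one]
      have h8 : ((N : ℤ) : ℂ) - 1 = (((N : ℝ) - 1 : ℝ) : ℂ) := by push_cast; ring
      rw [h8, Complex.norm_real, Real.norm_eq_abs, abs_of_nonneg (by linarith)]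
    have hne1 : (C et * (pE p - pE g)).coeff 0 ≠ 0 := by
      rw [e1]
      intro h8
      rw [h8, map_zero, norm_zero] at hn2
      linarith
    have hne2 : (C (et - 1) * τ * A).coeff 0 ≠ 0 := by
      rw [e2]
      exact mul_ne_zero (mul_ne_zero (sub_ne_zero.mpr (et_ne_one he)) hτ0) hal0
    obtain ⟨-, h8⟩ := H09.nf_unique 0 k _ _ hne1 hne2 h6
    have h9 := congrArg (fun f : Eis[X] => ‖(Coef.emb (f.coeff 0) : ℂ)‖) h8
    simp only [e1, e2] at h9
    rw [hn2, map_mul, map_mul, norm_mul, norm_mul] at h9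
    have h10 : ‖(Coef.emb (et - 1) : ℂ)‖ = 1 := by
      rw [← et_sub_norm he, ← norm_neg, ← map_neg, neg_sub]
    rw [h10, one_mul] at h9
    apply num_ts hN (k := nE (τ.coeff 0))
    have h11 : nE al = N * N + 3 - 3 * N := by rw [hal]; exact BP57.nE_al he hN
    rw [← h11]
    have h12 : (((N - 1) * (N - 1) : ℕ) : ℝ) =
        ((nE (τ.coeff 0) * nE al : ℕ) : ℝ) := by
      rw [Nat.cast_mul, Nat.cast_mul, H93.nE_cast, H93.nE_cast, Nat.cast_sub (by omega : 1 ≤ N),
        Nat.cast_one, h9]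
      ring
    exact_mod_cast h12
  -- z-free
  have hzf : ZFree (∏ i, G i) := by
    refine Zf.zf_all hG1 hFw hL hR hRS hEv hEvm hE1 hMV hMm hI fd hs hMc (al := al) hVA ?_
    rw [hfull2]
    have h11 : nE al = N * N + 3 - 3 * N := by rw [hal]; exact BP57.nE_al he hN
    have hn2 : 3 ≤ N * N + 3 - 3 * N := by
      have : 3 * N ≤ N * N := Nat.mul_le_mul_right N hN
      omega
    rw [BP57.bev_dvd hN (by rw [h11]; exact hn2) (by rw [h11]), h11, BP57.sqrt_n2 hN]
    omega
  have hcl0 : ((bcU w : (RO Eis)ˣ) : RO Eis) *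
      (cl (co (phO phi T iT) ib) b' pb' k1 H).coeff 0 = toLaurent A := by
    rw [← cA, hc2]
    change bcR (w : RO ℤ) * (H.coeff 0 + (k1 : RO Eis) * H.coeff (0 + b')) = _
    rw [zero_add]
  have hprop := Zf.prop_poly hU hzf fd.eq hcl0 cT2x' (by rw [hA0]; exact hal0) (by
    intro h0
    rw [h0, map_zero, norm_zero] at hf00
    exact zero_ne_one hf00)
  have hqf : (C et * pE f).coeff 0 = et := by
    rw [coeff_C_mul, pE_coeff, hf0]
    push_cast
    ring
  rw [hA0, hqf] at hprop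
  have het0 : et ≠ 0 := by
    intro h0
    have := et_mul he
    rw [h0, zero_mul] at this
    exact zero_ne_one this
  have hAf : C al * pE f = A := by
    apply mul_left_cancel₀ (C_ne_zero.2 het0)
    linear_combination hprop
  have hfin : pE (p - C (N : ℤ) * f) + C et * pE (f - g) = 0 := by
    have h1 : pE (p - C (N : ℤ) * f) = pE p - C ((N : ℤ) : Eis) * pE f := by
      rw [pE, Polynomial.map_sub, Polynomial.map_mul, map_C]
      rfl
    have h2 : pE (f - g) = pE f - pE g := Polynomial.map_sub _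
    rw [h1, h2]
    rw [hA, hal, map_sub C, map_sub C, C_1] at hAf
    linear_combination -hAf
  obtain ⟨h1, h2⟩ := indepP he hfin
  have hpf : p = C (N : ℤ) * f := sub_eq_zero.1 h1
  have hgf : f = g := sub_eq_zero.1 h2
  have hf1 : f = 1 := by
    refine BP57.one_of_zf hU hM1 hMV hf0 fun z hz h3 => hpcl z hz ?_
    rw [hpf, Polynomial.map_mul, eval_mul, h3, mul_zero]
  refine ⟨by rw [← hgf, hf1], hf1, by rw [hpf, hf1, mul_one]⟩

end Pool.Agent.B5.B3
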