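import Pool.Agent.Lib.MP_b5021c_nt.E.H78.EfAll

/-!
# Board b5, BpS: Theorem Z without ports, and for exponents in `W(I,J)` (helper71)

`FclgS`: an element (stable, unitary, irreducible, full-dimensional) of class `V(N)` is z-free, or
there is a completion `G + y G^#` of rank one more, of class `V(N')`, `N' ≤ N`.
`FclwS`: the same in the classes `WD`, `BdwS`: the bound for factors.
-/

namespace Pool.Agent.B5.H71

open scoped LaurentPolynomial
open Polynomial Pool.Agent.B5 Pool.Agent.B5.H78

/-- Theorem Z without ports. -/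
def FclgS : Prop := ∀ (O : Type) [CommRing O] [IsDomain O] [IsPrincipalIdealRing O] [Coef O]
  (L : Type) [AddCommGroup L] [Module.Free ℤ L] [Module.Finite ℤ L] (D : AO O L) (N : ℝ),
    Stable D → Unitary D → Irreducible D → rk (supp D) = Module.finrank ℤ L →
    ClassV N (D.coeff 0) → 1 ≤ Module.finrank ℤ L →
      ZFree D ∨ ∃ (N' : ℝ) (D' : AO O (L × ℤ)), N' ≤ N ∧ Stable D' ∧ Unitary D' ∧
        Irreducible D' ∧ rk (supp D') = Module.finrank ℤ (L × ℤ) ∧ ClassV N' (D'.coeff 0) ∧
        ∀ x ∈ supp D', (x.2 = 0 ∧ x.1 ∈ supp D) ∨ (x.2 = 1 ∧ -x.1 ∈ supp D)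

/-- The completion of the primitive part of the part of weight zero, without ports. -/
theorem wcmg (hWst : WstS) (hCI : ComplIrrS) (hC : ComplS) (O : Type) [CommRing O] [IsDomain O]
    [IsPrincipalIdealRing O] [Coef O] (L : Type) [AddCommGroup L] [Module.Free ℤ L]
    [Module.Finite ℤ L] (D : AO O L) (q0 : Polynomial O) (q : ℕ) (l : L →+ ℤ) (c : RO O)
    (G : AO O L) (hE : EFD D q0 q l) (hc : c ≠ 0) (hcG : wp q l 0 D = cst c * G)
    (hrk : rk (supp G) = Module.finrank ℤ L)
    (hcop : ∀ h : AO O L, Irreducible h → h ∣ G → h ∣ sharp G → False) :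
    Stable (compl G) ∧ Unitary (compl G) ∧ Irreducible (compl G) ∧
      rk (supp (compl G)) = Module.finrank ℤ (L × ℤ) ∧
      (∃ N : ℝ, N ≤ ‖(Coef.emb (q0.coeff 0) : ℂ)‖ ∧ ClassV N ((compl G).coeff 0)) ∧
      ∀ x ∈ supp (compl G), (x.2 = 0 ∧ x.1 ∈ supp D) ∨ (x.2 = 1 ∧ -x.1 ∈ supp D) := by
  obtain ⟨hW, -⟩ := hWst O L D q0 q l hE
  have hco : ∀ a, (wp q l 0 D).coeff a = c * G.coeff a := fun a => by
    rw [hcG]; exact H78.cstm c G a
  have hx0 : (q0.coeff 0 : O) ≠ 0 := by
    intro h0
    apply hE.zf 0 (by simp)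
    rw [← Polynomial.coeff_zero_eq_eval_zero, Polynomial.coeff_map, h0, map_zero]
  have hC0 : c * G.coeff 0 = LaurentPolynomial.C (q0.coeff 0) := by
    rw [← hco]
    apply AddMonoidAlgebra.ext
    apply Finsupp.ext
    intro k
    rw [wp_coeff, hE.c0, l.map_zero, sub_zero, ← LaurentPolynomial.single_eq_C,
      AddMonoidAlgebra.coeff_single, Finsupp.single_apply]
    have hq := hE.qpos
    by_cases hk : k = 0
    · subst hk
      rw [if_pos (by simp), if_pos rfl, LaurentPolynomial.coeff_toLaurent]
      exact Finsupp.mapDomain_apply (Nat.castEmbedding (R := ℤ)).injective q0.toFinsupp.coeff 0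
    · rw [if_neg, if_neg (fun h => hk h.symm)]
      intro h
      rcases mul_eq_zero.1 h with h | h
      · exact hq.ne' (by exact_mod_cast h)
      · exact hk h
  obtain ⟨hcz, N, hN, hcl⟩ := H03.cls_of_mul hx0 hC0
  have hst : Stable G := H03.stable_of_cst hcz (by rw [← hcG]; exact hW)
  obtain ⟨h1, h2, h3, h4, h5⟩ := hC O L G hst
  have hsG : ∀ a ∈ supp G, a ∈ supp D := by
    intro a ha h0
    have h6 : (wp q l 0 D).coeff a ≠ 0 := by rw [hco]; exact mul_ne_zero hc ha
    apply h6
    apply AddMonoidAlgebra.ext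
    apply Finsupp.ext
    intro k
    rw [wp_coeff, h0]
    simp
  have hG0 : G ≠ 0 := by
    rintro rfl
    exact hst.1 rfl
  refine ⟨h1, h2, hCI O L G hG0 hcop, ?_, ⟨N, hN, by rw [h3]; exact hcl⟩, ?_⟩
  · rw [h5, hrk, Module.finrank_prod, Module.finrank_self]
  · intro x hx
    rcases h4 x hx with ⟨h6, h7⟩ | ⟨h6, h7⟩
    · exact Or.inl ⟨h6, hsG _ h7⟩
    · exact Or.inr ⟨h6, hsG _ h7⟩

theorem fclg (hVtx : VtxS) (hWst : WstS) (hWps : WpsS) (hWdv : WdvS) (hWho : WhoS)
    (hCI : ComplIrrS) (hC : ComplS) (hPrim : PrimS) : FclgS := by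
  intro O _ _ _ _ L _ _ _ D N hst hun hirr hspn hN hrk
  classical
  obtain ⟨hN1, n, q0, hDn, hq0N, hzf⟩ := hN
  -- the normalised element
  have hTu : IsUnit (LaurentPolynomial.T (-n) : RO O) := LaurentPolynomial.isUnit_T _
  have hTz : ∀ z : Circle, evR z (LaurentPolynomial.T (-n) : RO O) ≠ 0 := fun z =>
    (hTu.map (evR z)).ne_zero
  set D1 : AO O L := cst (LaurentPolynomial.T (-n)) * D with hD1
  have hsupp : supp D1 = supp D := supp_cst_mul hTu.ne_zero D
  have dst : Stable D1 := stable_cst hTu.ne_zero hTz hst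
  have dun : Unitary D1 := unitary_cst hTu hun
  have dirr : Irreducible D1 := (associated_unit_mul_left _ _ (isUnit_cst hTu)).symm.irreducible hirr
  have dspn : rk (supp D1) = Module.finrank ℤ L := by rw [hsupp]; exact hspn
  have hc0 : D1.coeff 0 = Polynomial.toLaurent q0 := by
    rw [hD1, cstm, hDn, ← mul_assoc, ← LaurentPolynomial.T_add, neg_add_cancel,
      LaurentPolynomial.T_zero, one_mul]
  have hq0 : q0.coeff 0 ≠ 0 := by
    intro hz
    apply hzf 0 (by simp)
    rw [← Polynomial.coeff_zero_eq_eval_zero, Polynomial.coeff_map, hz, map_zero]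
  have h00 : (D1.coeff 0).coeff 0 ≠ 0 := by
    rw [hc0, toLaurent_coeff, if_pos le_rfl]
    simpa using hq0
  have hneg : ∀ k : ℤ, (D1.coeff 0).coeff k ≠ 0 → 0 ≤ k := by
    intro k hk
    by_contra h1
    rw [hc0, toLaurent_coeff, if_neg h1] at hk
    exact hk rfl
  have hne : ∀ (a : L) (k : ℤ), (D1.coeff a).coeff k ≠ 0 → D1.coeff a ≠ 0 := by
    intro a k hk h0
    rw [h0] at hk
    exact hk rfl
  -- the least exponents
  have hex : ∀ a : L, ∃ m : ℤ, D1.coeff a ≠ 0 → ((D1.coeff a).coeff m ≠ 0 ∧
      ∀ k, (D1.coeff a).coeff k ≠ 0 → m ≤ k) := by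
    intro a
    by_cases ha : D1.coeff a = 0
    · exact ⟨0, fun h => absurd ha h⟩
    · have hs : (D1.coeff a).coeff.support.Nonempty := by
        rw [Finsupp.support_nonempty_iff]
        intro h1
        apply ha
        apply AddMonoidAlgebra.ext
        exact h1
      obtain ⟨m, hm, hmin⟩ := exists_min _ hs
      exact ⟨m, fun _ => ⟨Finsupp.mem_support_iff.mp hm,
        fun k hk => hmin k (Finsupp.mem_support_iff.mpr hk)⟩⟩
  choose m hm using hex
  obtain ⟨lam, hlam⟩ : ∃ lam : L →+ ℤ, Pos lam D1 := by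
    obtain ⟨_, lam, hl, _⟩ := dst
    exact ⟨lam, hl⟩
  have hm0 : 0 ≤ m 0 := hneg _ (hm 0 (hne 0 0 h00)).1
  obtain ⟨q, l, hq, hle, hspan⟩ := hVtx L D1.coeff.support m lam hlam hm0 (by
    have h1 : ((D1.coeff.support : Finset L) : Set L) = supp D1 := by
      ext a
      simp [supp]
    rw [h1]
    exact dspn)
  -- primitivity
  have hwdep : Wdep D1 := by
    have h1 : ∃ a ∈ supp D1, a ≠ 0 := by
      by_contra hcon
      push Not at hcon
      have h2 : rk (supp D1) = 0 := by
        have h3 : Submodule.span ℤ (supp D1) = ⊥ := by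
          rw [Submodule.span_eq_bot]
          exact hcon
        unfold rk
        rw [h3, finrank_bot]
      rw [dspn] at h2
      omega
    obtain ⟨a, ha, ha0⟩ := h1
    exact ⟨a, ha, 0, dst.1, ha0⟩
  have hprim : Prim D1 := (hPrim O L D1 D1).2.1 dirr hwdep
  have hE : EFD D1 q0 q l := by
    refine ⟨dst, hprim, hc0, hzf, hq, ?_⟩
    intro a k hk
    have h1 := hle a (Finsupp.mem_support_iff.mpr (hne a k hk))
    have h2 := (hm a (hne a k hk)).2 k hk
    have h3 : (q : ℤ) * m a ≤ (q : ℤ) * k := mul_le_mul_of_nonneg_left h2 (by positivity)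
    linarith
  have hV0 : Stable (wp q l 0 D1) := (hWst O L D1 q0 q l hE).1
  have hV0ne : wp q l 0 D1 ≠ 0 := by
    intro h0
    apply hV0.1
    rw [h0]
    rfl
  obtain ⟨c, G, hc, hVG, hG⟩ := (hPrim O L (wp q l 0 D1) D1).2.2 hV0ne
  have hrkG : rk (supp G) = Module.finrank ℤ L := by
    rw [← supp_cst_mul hc G, ← hVG]
    apply le_antisymm
    · unfold rk
      exact Submodule.finrank_le _
    · rw [← hspan]
      unfold rk
      apply Submodule.finrank_mono
      apply Submodule.span_mono
      intro a ha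
      obtain ⟨ha1, ha2⟩ := ha
      have ha3 : D1.coeff a ≠ 0 := Finsupp.mem_support_iff.mp ha1
      intro h0
      apply (hm a ha3).1
      have h1 := wp_coeff q l 0 D1 a (m a)
      rw [h0, if_pos (by rw [ha2]; ring)] at h1
      exact h1.symm
  by_cases hcase : ∃ h : AO O L, Irreducible h ∧ h ∣ G ∧ h ∣ sharp G
  · left
    obtain ⟨h, hirr', hhG, hhG'⟩ := hcase
    have hdv := hWdv O L D1 q0 q l c G h hE hc hVG hG hirr' hhG hhG'
    obtain ⟨mm, hsum, _⟩ := hWps O L D1 q0 q l hE
    have hhD : h ∣ D1 := by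
      rw [hsum]
      exact Finset.dvd_sum fun j _ => hdv j
    have hass : Associated h D1 := (hirr'.dvd_irreducible_iff_associated dirr).mp hhD
    have hDV : D1 ∣ wp q l 0 D1 := hass.symm.dvd.trans (hdv 0)
    have hEq := hWho O L D1 q0 q l hE dun hDV
    refine ⟨q, l, n, hq, ?_⟩
    intro a k hk
    have h1 : (D1.coeff a).coeff (k - n) ≠ 0 := by
      rw [hD1, cstm, T_mul_coeff, sub_neg_eq_add, sub_add_cancel]
      exact hk
    rw [hEq] at h1
    have h2 := (wp_ne h1).1
    linarith [mul_sub (q : ℤ) k n]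
  · right
    push Not at hcase
    obtain ⟨h1, h2, h3, h4, ⟨N', hN', hcl⟩, h5⟩ := wcmg hWst hCI hC O L D1 q0 q l c G hE hc hVG
      hrkG (fun h h1 h2 h3 => hcase h h1 h2 h3)
    refine ⟨N', compl G, by rw [← hq0N]; exact hN', h1, h2, h3, h4, hcl, ?_⟩
    rw [hsupp] at h5
    exact h5

theorem fclg_all (hHur : HurS) (hA3 : A3aS) (hB3 : B3S) (hC1 : C1S) (hC2 : C2S) (hB4 : B4S)
    (hSh : SharpS) (hSt : StSpecS) (hC0 : Coeff0S) (hSl : SlMulS) (hPr : PrimS)
    (hCI : ComplIrrS) (hC : ComplS) : FclgS :=
  have hWst : WstS := ef_wst ef_wps hHur hA3 hB3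
  fclg ef_vtx hWst ef_wps
    (Pool.Agent.B5.Z.H39.wdv hWst (Pool.Agent.B5.Z.H39.ful hC2 hB4 hSh hSt hC0 hSl) hC1 hPr)
    Pool.Agent.B5.Z.H39.who hCI hC hPr

/-! ## Exponents in `W(I,J)` -/

/-- The marking of the completion. -/
def phW {P : Type} [DecidableEq P] {L : Type} [AddCommGroup L] (phi : L →+ (P → ℤ))
    (J : Finset P) : L × ℤ →+ (Option P → ℤ) where
  toFun x o := o.elim x.2 fun p => phi x.1 p + if p ∈ J then x.2 else 0
  map_zero' := by
    funext o
    cases o <;> simp
  map_add' x y := by
    funext o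
    cases o with
    | none => rfl
    | some p =>
      simp only [Option.elim_some, Prod.fst_add, Prod.snd_add, map_add, Pi.add_apply]
      split_ifs <;> ring

/-- Theorem Z for `WD`. -/
def FclwS : Prop := ∀ (O : Type) [CommRing O] [IsDomain O] [IsPrincipalIdealRing O] [Coef O]
  (P L : Type) [Fintype P] [DecidableEq P] [AddCommGroup L] [Module.Free ℤ L]
  [Module.Finite ℤ L] (phi : L →+ (P → ℤ)) (I J : Finset P) (D : AO O L) (N : ℝ),
    WD phi I J D → ClassV N (D.coeff 0) → 1 ≤ Module.finrank ℤ L →
      ZFree D ∨ ∃ (N' : ℝ) (D' : AO O (L × ℤ)), N' ≤ N ∧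
        WD (phW phi J) (I.map Function.Embedding.some)
          (insert none (J.map Function.Embedding.some)) D' ∧ ClassV N' (D'.coeff 0)

theorem fclw (h : FclgS) : FclwS := by
  intro O _ _ _ _ P L _ _ _ _ _ phi I J D N hD hN h1
  rcases h O L D N hD.st hD.un hD.irr hD.spn hN h1 with h2 | ⟨N', D', h2, h3, h4, h5, h6, h7, h8⟩
  · exact Or.inl h2
  · refine Or.inr ⟨N', D', h2, ⟨?_, ?_, ?_, h3, h4, h5, h6⟩, h7⟩
    · intro x y hxy
      have e1 : x.2 = y.2 := congrFun hxy none
      have e2 : phi x.1 = phi y.1 := by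
        funext p
        have := congrFun hxy (some p)
        change phi x.1 p + (if p ∈ J then x.2 else 0) = phi y.1 p + (if p ∈ J then y.2 else 0)
          at this
        rw [e1] at this
        exact add_right_cancel this
      exact Prod.ext (hD.inj e2) e1
    · rw [Finset.disjoint_insert_right]
      constructor
      · simp
      · exact (Finset.disjoint_map _).2 hD.dis
    · intro x hx
      have hv : ∀ p, phW phi J x (some p) = phi x.1 p + if p ∈ J then x.2 else 0 := fun p => rfl
      have hn : phW phi J x none = x.2 := rfl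
      rcases h8 x hx with ⟨e1, e2⟩ | ⟨e1, e2⟩
      · obtain ⟨w1, w2, w3⟩ := hD.ww _ e2
        refine ⟨?_, ?_, ?_⟩
        · intro j hj
          rw [Finset.mem_insert, Finset.mem_map] at hj
          rcases hj with rfl | ⟨p, hp, rfl⟩
          · left; rw [hn, e1]
          · change phW phi J x (some p) = 0 ∨ phW phi J x (some p) = 1
            rw [hv, if_pos hp, e1, add_zero]
            exact w1 p hp
        · rcases w2 with w2 | w2
          · left
            intro i hi
            rw [Finset.mem_map] at hi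
            obtain ⟨p, hp, rfl⟩ := hi
            change phW phi J x (some p) = 0 ∨ phW phi J x (some p) = 1
            rw [hv, if_neg (Finset.disjoint_left.1 hD.dis hp), add_zero]
            exact w2 p hp
          · right
            intro i hi
            rw [Finset.mem_map] at hi
            obtain ⟨p, hp, rfl⟩ := hi
            change phW phi J x (some p) = 0 ∨ phW phi J x (some p) = -1
            rw [hv, if_neg (Finset.disjoint_left.1 hD.dis hp), add_zero]
            exact w2 p hp
        · intro o ho1 ho2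
          cases o with
          | none => exact absurd (Finset.mem_insert_self _ _) ho2
          | some p =>
            have hpI : p ∉ I := fun hp => ho1 (Finset.mem_map_of_mem _ hp)
            have hpJ : p ∉ J := fun hp =>
              ho2 (Finset.mem_insert_of_mem (Finset.mem_map_of_mem _ hp))
            rw [hv, if_neg hpJ, add_zero]
            exact w3 p hpI hpJ
      · obtain ⟨w1, w2, w3⟩ := hD.ww _ e2
        have hm : ∀ p, phi (-x.1) p = -phi x.1 p := fun p => by rw [map_neg, Pi.neg_apply]
        refine ⟨?_, ?_, ?_⟩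
        · intro j hj
          rw [Finset.mem_insert, Finset.mem_map] at hj
          rcases hj with rfl | ⟨p, hp, rfl⟩
          · right; rw [hn, e1]
          · change phW phi J x (some p) = 0 ∨ phW phi J x (some p) = 1
            rw [hv, if_pos hp, e1]
            have := w1 p hp
            rw [hm] at this
            omega
        · rcases w2 with w2 | w2
          · right
            intro i hi
            rw [Finset.mem_map] at hi
            obtain ⟨p, hp, rfl⟩ := hi
            change phW phi J x (some p) = 0 ∨ phW phi J x (some p) = -1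
            rw [hv, if_neg (Finset.disjoint_left.1 hD.dis hp), add_zero]
            have := w2 p hp
            rw [hm] at this
            omega
          · left
            intro i hi
            rw [Finset.mem_map] at hi
            obtain ⟨p, hp, rfl⟩ := hi
            change phW phi J x (some p) = 0 ∨ phW phi J x (some p) = 1
            rw [hv, if_neg (Finset.disjoint_left.1 hD.dis hp), add_zero]
            have := w2 p hp
            rw [hm] at this
            omega
        · intro o ho1 ho2
          cases o with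
          | none => exact absurd (Finset.mem_insert_self _ _) ho2
          | some p =>
            have hpI : p ∉ I := fun hp => ho1 (Finset.mem_map_of_mem _ hp)
            have hpJ : p ∉ J := fun hp =>
              ho2 (Finset.mem_insert_of_mem (Finset.mem_map_of_mem _ hp))
            rw [hv, if_neg hpJ, add_zero]
            have := w3 p hpI hpJ
            rw [hm] at this
            omega

end Pool.Agent.B5.H71
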