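import Pool.Agent.Lib.MP_b5021c_nt.BP.H71.B3
import Pool.Agent.Lib.MP_b5021c_nt.BP.H12.Kp
import Pool.Agent.Lib.MP_b5021c_nt.BP.H83.B2

/-!
# Board b5, BpS: row StrS (helper71)

All adjacent rays which `b` sees are mutual with `b` and have the coefficient `g`; the killing
functionals of `b` are proportional.
-/

namespace Pool.Agent.B5.BP71

open Pool.Agent.B5
open scoped LaurentPolynomial
open Polynomial
open Pool.Agent.MP_b5021c_nt (Eis)
open Pool.Agent.B5.H25.Bch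
open Pool.Agent.B5.BPR
open Pool.Agent.B5.BP90 (Et)
open Pool.Agent.B5.BP57 (et_mul)

set_option linter.unusedSectionVars false

section

variable {P : Type} [Fintype P] [DecidableEq P] {L : Type} [AddCommGroup L] [Module.Free ℤ L]
  [Module.Finite ℤ L] {phi : L →+ (P → ℤ)} {E : AO ℤ L}

/-- two rays which see each other have the same coefficient. -/
theorem f_eq {b T : L} {i j : P} {e e' : (RO ℤ)ˣ} {f f' : ℤ[X]} (hb : Gl phi E b i e f)
    (hT : Gl phi E T j e' f') (pT : co phi i T = 0) (pb : co phi j b = 0) {m m' : L →+ ℤ}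
    (h1 : Kw phi E b i e m) (h2 : m T ≠ 0) (h3 : Kw phi E T j e' m') (h4 : m' b ≠ 0) : f = f' := by
  have r1 : E.coeff T + (e : RO ℤ) * E.coeff (T + b) = 0 := h1.2 T pT h2
  have r2 : E.coeff b + (e' : RO ℤ) * E.coeff (b + T) = 0 := h3.2 b pb h4
  have e1 := hb.eq
  have e2 := hT.eq
  rw [add_comm T b] at r1
  apply toLaurent_injective
  linear_combination e1 - e2 + (e' : RO ℤ) * r1 - (e : RO ℤ) * r2

theorem cn_of {N : ℕ} {p g : ℤ[X]} (h1 : g = 1) (h2 : p = C (N : ℤ)) : Cn N p g := by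
  refine ⟨fun h => absurd h1 h, fun _ => Or.inl ⟨1, 0, le_rfl, ?_⟩⟩
  rw [h2, C_0, zero_mul, add_zero]

end

/-- (BPR_ST). -/
theorem strS (hLMN : LMNS) (hUS : RkUSS) (hGen : GenS) (hF1 : F1S) (hF2 : F2S) (hVco : VcoS) (hD3 : D3S)
    (hA6 : A6S) (hMmo : MmonoS) (hB5t : B5S) (hB2c : B2cS) (hFD : FDS) (hE2 : E2S) (hVZ : VZS)
    (hU : UnitRS) (hMV : MVS) (hE1 : E1S) (hM1 : M1S) (hMm : MmulS) (hG0 : G0S) (hC0 : Coeff0S)
    (hW : WWfS) (hRF : RayFacS) (hQst : QstS) (hQra : QraS) (hMin : MinS) (hB5 : B5aS)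
    (hRk : RkS) (hKm : KmuS) (hQc : Qc3S) (hDv : Dv3S) (hNd : Nd3vS) (hG1 : G1pS)
    (hFw : H71.FclwS) (hL : L2S) (hR : ResWDS) (hRS : ResStS) (hEv : EvS) (hEvm : EvmS) :
    StrS := by
  classical
  intro P L _ _ _ _ _ phi E N p g i e f b H hGl hb hfb hNb hadj
  have hD := H.dd
  have hsys := BP12.sysW hVco hF2 hD i e (fun R hR => (hGl R hR).po)
  have hfin := BP12.finite_rays E
  have hAd := BP12.adjS hGen hF1 hF2 hVco hD3 hRk
  have hGb : Gl phi E b (i b) (e b) g := by rw [← hfb]; exact hGl b hb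
  have hp : ((1 : (RO ℤ)ˣ) : RO ℤ) * E.coeff 0 = toLaurent p := by
    rw [Units.val_one, one_mul]; exact H.e0
  have hg : ((1 : (RO ℤ)ˣ) : RO ℤ) * ((e b : RO ℤ) * E.coeff b) = -toLaurent g := by
    rw [Units.val_one, one_mul]; exact hGb.eq
  have hgr : BP12.Gray g E b := BP12.gray_of_gl hGb
  have hI2 : ∀ T, Ray E T → BPR.Adj E b T → (∀ q, phi T q = 0 ∨ phi b q = 0) →
      ∀ a : L, (∀ i, phi b i = 0 → phi T i = 0 → phi a i = 0) →
        ∃ k l : ℤ, a = k • b + l • T := by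
    intro T hT hA hdis a ha
    obtain ⟨l, lb, lT, lp⟩ := hA
    exact BP57.inj2g hD3 hRk hD hb hT (fun q => (hdis q).symm) lb lT lp
      (fun mu hmu h0 => H.fct mu b hmu hgr h0) a ha
  let bi : {R : L // Ray E R} := ⟨b, hb⟩
  rcases hsys.struct' (b := bi) (adj := fun T => BPR.Adj E b T.1)
    (F3 := fun T1 x => BPR.Adj E T1.1 x.1 ∧ ∃ l : L →+ ℤ, l b = 0 ∧ l T1.1 = 0 ∧ l x.1 = 0 ∧
      ∀ a ∈ supp E, 0 ≤ l a ∧ (l a = 0 →
        ∃ i j k : ℤ, (i = 0 ∨ i = 1) ∧ (j = 0 ∨ j = 1) ∧ (k = 0 ∨ k = 1) ∧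
          a = i • b + j • T1.1 + k • x.1))
    (fun T hA ho => (hadj T.1 T.2 hA ho).2) (by
      intro T1 mu hA ho hmu h1 h2
      obtain ⟨mb, hmb, hmbT⟩ := ho
      have hdis := ((hAd P L phi E N p g b (i b) (e b) mb H hGb hmb).2 T1.1 T1.2 hmbT).1
      obtain ⟨x, x1, x2, -, x4, x5, x6⟩ := BP12.face3w hGen hF1 hVco hD hGb (hGl T1.1 T1.2) hA
        hdis hmu h2 h1
      exact ⟨⟨x, x1⟩, x4, ⟨x5, x6⟩, x2⟩) with hmut | hbad
  · -- all mutual
    by_cases hdim : ∀ T, Ray E T → BPR.Adj E b T → Ou phi E b (i b) (e b) T →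
        ∀ nu, Kw phi E b (i b) (e b) nu → nu T = 0 → nu = 0
    · right
      intro T hT hA ho
      have h1 := hmut ⟨T, hT⟩ hA ho
      refine ⟨?_, h1, hdim T hT hA ho⟩
      obtain ⟨m, hm, hmT⟩ := ho
      obtain ⟨m', hm', hmb'⟩ := h1
      obtain ⟨d1, d2⟩ := hsys.dis bi ⟨T, hT⟩ m hm hmT
      exact (f_eq hGb (hGl T hT) d1 d2 hm hmT hm' hmb').symm
    · -- two independent functionals
      left
      push Not at hdim
      obtain ⟨T, hT, hA, ho, nu, hnu, hnT, hnu0⟩ := hdim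
      obtain ⟨R, hR', hRA, hnR⟩ :=
        (hAd P L phi E N p g b (i b) (e b) nu H hGb hnu).1 hnu0
      have hoR : Tot.Ou (fun a => E.coeff a) (fun R : {R : L // Ray E R} => R.1)
        (fun R => co phi (i R.1)) (fun R => ((e R.1 : (RO ℤ)ˣ) : RO ℤ)) bi ⟨R, hR'⟩ :=
        ⟨nu, hnu, hnR⟩
      have hTb := hmut ⟨T, hT⟩ hA ho
      have hRb := hmut ⟨R, hR'⟩ hRA hoR
      obtain ⟨et, he⟩ : ∃ et : Eis, Et et := ⟨_, BP90.et_g6⟩
      have heta : (LaurentPolynomial.C et : RO Eis) ^ 2 - LaurentPolynomial.C et + 1 = 0 := by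
        have h3 : et * et = et - 1 := by linear_combination -(et_mul he)
        have h4 : (LaurentPolynomial.C et : RO Eis) * LaurentPolynomial.C et =
            LaurentPolynomial.C et - 1 := by rw [← map_mul, h3, map_sub, map_one]
        linear_combination h4
      have hnT' : Kw phi E T (i T) (e T) nu := hsys.mut_mem (b := bi) (T := ⟨T, hT⟩) hTb hnu hnT
      obtain ⟨m, hm, hmT⟩ := id ho
      obtain ⟨m', hm', hmb'⟩ := id hTb
      obtain ⟨mR, hmR, hmRb⟩ := id hRb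
      obtain ⟨d1, d2⟩ := hsys.dis bi ⟨T, hT⟩ m hm hmT
      obtain ⟨d3, d4⟩ := hsys.dis bi ⟨R, hR'⟩ nu hnu hnR
      obtain ⟨d5, d6⟩ := hsys.dis ⟨T, hT⟩ ⟨R, hR'⟩ nu hnT' hnR
      have fT : f T = g := (f_eq hGb (hGl T hT) d1 d2 hm hmT hm' hmb').symm
      have fR : f R = g := (f_eq hGb (hGl R hR') d3 d4 hnu hnR hmR hmRb).symm
      obtain ⟨hdis, hI⟩ := (hAd P L phi E N p g b (i b) (e b) m H hGb hm).2 T hT hmT
      have rT : E.coeff T + (e b : RO ℤ) * E.coeff (T + b) = 0 := hm.2 T d1 hmT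
      have eT := (hGl T hT).eq
      have eR := (hGl R hR').eq
      rw [fT] at eT
      rw [fR] at eR
      obtain ⟨h1, -, h2⟩ := B3.b3 hFD hE2 hVZ hU hMV hE1 hM1 hMm hG0 hC0 hW hRF hQst hQra hMin hB5
        hRk hKm hQc hDv hNd hG1 hFw hL hR hRS hEv hEvm hD H.n3 H.rkL H.cv hb.2.1 hT (hI hA)
        (hGl b hb).po (hGl T hT).po d1 d2 d3 d5 (hI2 T hT hA hdis) hA (w := 1) (eb := e b)
        (eT := e T) (ex := e R) (p := p) (g := g) (f := g) H.p0 H.g0 H.g0 hp hg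
        (by rw [Units.val_one, one_mul]; exact eT) (by rw [Units.val_one, one_mul]; exact eR)
        (by
          rw [Units.val_one, one_mul, add_comm b T]
          linear_combination (e T : RO ℤ) * rT - eT) hnu hnT' hnR
        (fun nu' hK => hsys.mut_full bcR bcR_inj heta (b := bi) (T := ⟨T, hT⟩)
          (T' := ⟨R, hR'⟩) ho hTb hRb hnu hnT hnR hK)
      exact cn_of h1 h2
  · -- the bad pair
    left
    obtain ⟨T1, x, hA1, hAx, ⟨hA3, hl3⟩, ho1, hox, ho3, ho4, hle1, hlex, mu, hmu, hmux⟩ := hbad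
    obtain ⟨m1, hm1, hm1T⟩ := id ho1
    obtain ⟨m2, hm2, hm2x⟩ := id hox
    obtain ⟨m4, hm4, hm4T⟩ := id ho4
    obtain ⟨d1, d2⟩ := hsys.dis bi T1 m1 hm1 hm1T
    obtain ⟨d3, d4⟩ := hsys.dis bi x m2 hm2 hm2x
    obtain ⟨d5, d6⟩ := hsys.dis T1 x mu hmu hmux
    have hmub : mu b = 0 := (hle1 mu hmu).1
    obtain ⟨hdis1, hI1⟩ := (hAd P L phi E N p g b (i b) (e b) m1 H hGb hm1).2 T1.1 T1.2 hm1T
    obtain ⟨hdisx, hIx⟩ := (hAd P L phi E N p g b (i b) (e b) m2 H hGb hm2).2 x.1 x.2 hm2x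
    have GT := hGl T1.1 T1.2
    have Gx := hGl x.1 x.2
    have ff : f T1.1 = f x.1 := f_eq GT Gx d5 d6 hmu hmux hm4 hm4T
    have eT := GT.eq
    have ex := Gx.eq
    rw [← ff] at ex
    -- the cube
    have r1 : E.coeff T1.1 + (e b : RO ℤ) * E.coeff (T1.1 + b) = 0 := hm1.2 T1.1 d1 hm1T
    have r2 : E.coeff x.1 + (e b : RO ℤ) * E.coeff (x.1 + b) = 0 := hm2.2 x.1 d3 hm2x
    have r3 : E.coeff x.1 + (e T1.1 : RO ℤ) * E.coeff (x.1 + T1.1) = 0 := hmu.2 x.1 d5 hmux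
    have r4 : E.coeff (x.1 + b) + (e T1.1 : RO ℤ) * E.coeff (x.1 + b + T1.1) = 0 := by
      refine hmu.2 (x.1 + b) (by rw [map_add, d5, d2, add_zero]) ?_
      rw [map_add, hmub, add_zero]
      exact hmux
    rw [add_comm T1.1 b] at r1
    rw [add_comm x.1 b] at r2 r4
    rw [add_comm x.1 T1.1] at r3
    have er : b + x.1 + T1.1 = b + T1.1 + x.1 := by abel
    rw [er] at r4
    have hcT : ((1 : (RO ℤ)ˣ) : RO ℤ) * ((e T1.1 : RO ℤ) * E.coeff T1.1) =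
        -toLaurent (f T1.1) := by rw [Units.val_one, one_mul]; exact eT
    have hcx : ((1 : (RO ℤ)ˣ) : RO ℤ) * ((e x.1 : RO ℤ) * E.coeff x.1) =
        -toLaurent (f T1.1) := by rw [Units.val_one, one_mul]; exact ex
    have hcbT : ((1 : (RO ℤ)ˣ) : RO ℤ) * ((e b : RO ℤ) * (e T1.1 : RO ℤ) *
        E.coeff (b + T1.1)) = toLaurent (f T1.1) := by
      rw [Units.val_one, one_mul]
      linear_combination (e T1.1 : RO ℤ) * r1 - eT
    have hcbx : ((1 : (RO ℤ)ˣ) : RO ℤ) * ((e b : RO ℤ) * (e x.1 : RO ℤ) *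
        E.coeff (b + x.1)) = toLaurent (f T1.1) := by
      rw [Units.val_one, one_mul]
      linear_combination (e x.1 : RO ℤ) * r2 - ex
    have hcTx : ((1 : (RO ℤ)ˣ) : RO ℤ) * ((e T1.1 : RO ℤ) * (e x.1 : RO ℤ) *
        E.coeff (T1.1 + x.1)) = toLaurent (f T1.1) := by
      rw [Units.val_one, one_mul]
      linear_combination (e x.1 : RO ℤ) * r3 - ex
    have hcbTx : ((1 : (RO ℤ)ˣ) : RO ℤ) * ((e b : RO ℤ) * (e T1.1 : RO ℤ) * (e x.1 : RO ℤ) *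
        E.coeff (b + T1.1 + x.1)) = -toLaurent (f T1.1) := by
      rw [Units.val_one, one_mul] at hcbx ⊢
      linear_combination ((e b : RO ℤ) * (e x.1 : RO ℤ)) * r4 - hcbx
    have hpos := GT.pos
    obtain ⟨m, hm⟩ : ∃ m : ℕ, (f T1.1).coeff 0 = m := ⟨((f T1.1).coeff 0).toNat, by omega⟩
    have hm1' : 1 ≤ m := by omega
    have h3m : 3 * m ≤ N + 1 := BP12.b1 hE2 hVZ hU hMV hMmo hA6 hB5t hB2c hD (by
        have := H.rkL
        have := H.n3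
        omega) H.cv T1.2 hb.2.1 x.2.2.1 GT.po Gx.po d5 d2 d6 d4 hA3 hl3
      (by have := H.n3; omega) hm1' H.p0 hm H.g0 hp hg hcT hcx hcTx hcbT hcbx hcbTx
    rcases Nat.lt_or_ge 1 m with h2m | h2m
    · obtain ⟨h1, h2, -⟩ := BP83.b2 hFD hE2 hVZ hU hMV hE1 hM1 hMm hC0 hQst hQra hMin hB5 hRk hKm
        hQc hDv hNd hLMN hUS hG1 hFw hL hR hRS hEv hEvm hD H.rkL H.cv (b := b)
        (BP12.mut_of_ou hVco hD.inj hD.bin T1.2 x.2 GT.po Gx.po ho3 ho4) (hI1 hA1) GT.po d5 d2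
        h2m h3m H.p0 hm H.g0 hp hg hcT hcx hcTx hcbT
      exact cn_of h1 h2
    · have hf1 : (f T1.1).coeff 0 = 1 := by omega
      obtain ⟨h1, -, h2⟩ := B3.b3 hFD hE2 hVZ hU hMV hE1 hM1 hMm hG0 hC0 hW hRF hQst hQra hMin hB5
        hRk hKm hQc hDv hNd hG1 hFw hL hR hRS hEv hEvm hD H.n3 H.rkL H.cv hb.2.1 T1.2 (hI1 hA1)
        (hGl b hb).po GT.po d1 d2 d3 d5 (hI2 T1.1 T1.2 hA1 hdis1) hA1 (w := 1) (eb := e b)
        (eT := e T1.1) (ex := e x.1) (p := p) (g := g) (f := f T1.1) H.p0 H.g0 hf1 hp hg hcT hcx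
        hcbT (hle1 mu hmu) hmu hmux
        (fun nu' hK => hsys.bad_full (b := bi) (T1 := T1) (x := x) ho1 ho3 ho4 hle1 hK)
      exact cn_of h1 h2

end Pool.Agent.B5.BP71
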