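import Pool.Agent.Lib.MP_b5021c_nt.BP.H71.Tl
import Pool.Agent.Lib.MP_b5021c_nt.BP.H71.Fclg
import Pool.Agent.Lib.MP_b5021c_nt.K.H29.G4c
import Pool.Agent.Lib.MP_b5021c_nt.B.H62.Ext

/-!
# Board b5, BpS: total ranks of the factors of a closing (helper71)
-/

namespace Pool.Agent.B5.Tst

open scoped LaurentPolynomial
open Polynomial
open Pool.Agent.B5 Pool.Agent.B5.H71 Pool.Agent.B5.Tl

/-- The bound for an element of `WD`, and one less if it is not z-free. -/
theorem wd_bound (hF : FclwS) (hL : L2S) (O : Type) [CommRing O] [IsDomain O]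
    [IsPrincipalIdealRing O] [Coef O] (P L : Type) [Fintype P] [DecidableEq P] [AddCommGroup L]
    [Module.Free ℤ L] [Module.Finite ℤ L] (phi : L →+ (P → ℤ)) (I J : Finset P) (G : AO O L)
    (r B : ℝ) (hW : WD phi I J G) (hV : ClassV r (G.coeff 0)) (hB : 1 ≤ B)
    (hBd : ∀ N' : ℝ, N' ≤ r → BdV O N' B) (h1 : 1 ≤ Module.finrank ℤ L) :
    (ZFree G ∧ (Module.finrank ℤ L : ℝ) ≤ B) ∨ (Module.finrank ℤ L : ℝ) + 1 ≤ B := by
  have key : ∀ (P L : Type) [Fintype P] [DecidableEq P] [AddCommGroup L] [Module.Free ℤ L]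
      [Module.Finite ℤ L] (phi : L →+ (P → ℤ)) (I J : Finset P) (G : AO O L) (r' : ℝ), r' ≤ r →
      WD phi I J G → ClassV r' (G.coeff 0) → (Module.finrank ℤ L : ℝ) ≤ B := by
    intro P L _ _ _ _ _ phi I J G r' hr hW hV
    by_cases h2 : 2 ≤ Module.finrank ℤ L
    · obtain ⟨P', L', i1, i2, i3, i4, i5, phi', G', hD, hrk, hc⟩ :=
        hL O P L phi I J G hW h2 (Or.inl ⟨r', hV⟩)
      obtain ⟨N', hN', hV'⟩ := hc.1 r' hV
      have := hBd N' (hN'.trans hr) P' L' phi' G' hD hV'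
      rw [hrk] at this
      exact this
    · have h3 : Module.finrank ℤ L ≤ 1 := by omega
      exact le_trans (by exact_mod_cast h3) hB
  rcases hF O P L phi I J G r hW hV h1 with hz | ⟨N', D', hN', hW', hV'⟩
  · exact Or.inl ⟨hz, key P L phi I J G r le_rfl hW hV⟩
  · right
    have := key (Option P) (L × ℤ) (phW phi J) _ _ D' N' hN' hW' hV'
    rw [Module.finrank_prod, Module.finrank_self] at this
    push_cast at this
    exact this

/-- `ZFree` of the restriction to a saturated sublattice. -/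
theorem zfree_of_res {O : Type} [CommRing O] {L : Type} [AddCommGroup L] [Module.Free ℤ L]
    [Module.Finite ℤ L] {K : Submodule ℤ L} (hK : Sat K) {G : AO O L}
    (hsup : ∀ a ∈ supp G, a ∈ K) (h : ZFree (res K G)) : ZFree G := by
  obtain ⟨r, hr⟩ := Pool.Agent.B5.H62.exists_retraction L K hK
  obtain ⟨q, l, n, hq, hl⟩ := h
  refine ⟨q, l.comp r.toAddMonoidHom, n, hq, fun a k hk => ?_⟩
  have ha : a ∈ K := hsup a (fun h0 => hk (by rw [h0]; rfl))
  have h1 : ((res K G).coeff ⟨a, ha⟩).coeff k ≠ 0 := hk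
  have h2 := hl ⟨a, ha⟩ k h1
  rw [h2]
  congr 1
  change l ⟨a, ha⟩ = l (r a)
  have h3 := hr ⟨a, ha⟩
  change r a = ⟨a, ha⟩ at h3
  rw [h3]

/-- A factor of a closing which depends on the variables has rank at least one. -/
theorem one_le_of_wdep {O : Type} [CommRing O] {L : Type} [AddCommGroup L] [Module.Free ℤ L]
    [Module.Finite ℤ L] {G : AO O L} (h : Wdep G) : 1 ≤ rk (supp G) := by
  obtain ⟨a, ha, b, hb, hab⟩ := h
  by_contra hcon
  have h0 : rk (supp G) = 0 := by omega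
  have h1 : Submodule.span ℤ (supp G) = ⊥ := by
    have h2 : Module.finrank ℤ (Submodule.span ℤ (supp G)) = 0 := h0
    exact Submodule.finrank_eq_zero.1 h2
  have h3 : ∀ x ∈ supp G, x = 0 := fun x hx => by
    have := Submodule.subset_span (R := ℤ) hx
    rw [h1] at this
    exact this
  exact hab ((h3 a ha).trans (h3 b hb).symm)

/-- The bound for a factor of a closing, and one less if it is not z-free. -/
theorem fac_bound (hF : FclwS) (hL : L2S) (hR : ResWDS) (hS : ResStS)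
    (O : Type) [CommRing O] [IsDomain O] [IsPrincipalIdealRing O] [Coef O]
    (P L : Type) [Fintype P] [DecidableEq P] [AddCommGroup L] [Module.Free ℤ L]
    [Module.Finite ℤ L] (phi : L →+ (P → ℤ)) (D : AO O L) (S : L) (i0 : P) (eta : (RO O)ˣ)
    (h : co phi i0 S = 1) (c : RO O) (n : ℕ) (G : Fin n → AO O (Ker (co phi i0)))
    (hD : FD phi D S i0 eta h c n G) (i : Fin n) (r B : ℝ) (hV : ClassV r ((G i).coeff 0))
    (hB : 1 ≤ B) (hBd : ∀ N' : ℝ, N' ≤ r → BdV O N' B) :
    (ZFree (G i) ∧ (rk (supp (G i)) : ℝ) ≤ B) ∨ (rk (supp (G i)) : ℝ) + 1 ≤ B := by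
  have hG0 : G i ≠ 0 := (hD.irr i).ne_zero
  obtain ⟨K, hsat, hsup, hfr, hirr, hun, hrk⟩ := hR O (Ker (co phi i0)) (G i) hG0
  have hW : WD ((phK phi (co phi i0)).comp (incl K)) (II phi S i0) (OO phi S) (res K (G i)) := by
    refine ⟨?_, ?_, ?_, ?_, hun (hD.un i), hirr (hD.irr i), ?_⟩
    · intro a b hab
      apply Subtype.ext
      apply Subtype.ext
      exact hD.cc.dd.inj hab
    · rw [Finset.disjoint_left]
      intro j hj1 hj2
      simp only [II, OO, Finset.mem_filter, Finset.mem_univ, true_and] at hj1 hj2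
      rw [hj2] at hj1
      exact zero_ne_one hj1.1
    · intro a ha
      exact hD.ww i (a : Ker (co phi i0)) ha
    · exact (hS O (Ker (co phi i0)) (G i) K hsat hsup).1 (hD.st i)
    · rw [hrk, hfr]
  have hw := one_le_of_wdep (hD.wd i)
  rcases wd_bound hF hL O P K _ _ _ (res K (G i)) r B hW hV hB hBd (by rw [hfr]; exact hw) with
    ⟨h1, h2⟩ | h1
  · rw [hfr] at h2
    exact Or.inl ⟨zfree_of_res hsat hsup h1, h2⟩
  · rw [hfr] at h1
    exact Or.inr h1

/-- The total rank of a factor of a closing, when its constant coefficient is not a multiple of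
`z`. -/
theorem trk_fac (hF : FclwS) (hL : L2S) (hR : ResWDS) (hS : ResStS)
    (O : Type) [CommRing O] [IsDomain O] [IsPrincipalIdealRing O] [Coef O]
    (P L : Type) [Fintype P] [DecidableEq P] [AddCommGroup L] [Module.Free ℤ L]
    [Module.Finite ℤ L] (phi : L →+ (P → ℤ)) (D : AO O L) (S : L) (i0 : P) (eta : (RO O)ˣ)
    (h : co phi i0 S = 1) (c : RO O) (n : ℕ) (G : Fin n → AO O (Ker (co phi i0)))
    (hD : FD phi D S i0 eta h c n G) (i : Fin n) (r B : ℝ) (hV : ClassV r ((G i).coeff 0))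
    (hB : 1 ≤ B) (hBd : ∀ N' : ℝ, N' ≤ r → BdV O N' B)
    (h0 : ((0 : ℤ), (0 : Ker (co phi i0))) ∈ ts (G i)) : (trk (G i) : ℝ) ≤ B := by
  rcases fac_bound hF hL hR hS O P L phi D S i0 eta h c n G hD i r B hV hB hBd with ⟨h1, h2⟩ | h1
  · refine le_trans ?_ h2
    exact_mod_cast (trk_zfree h1 h0).le
  · refine le_trans ?_ h1
    exact_mod_cast trk_le_rk (G i)

end Pool.Agent.B5.Tst
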